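set_option autoImplicit false

namespace H8.Siegel

/-- force evaluation of a natural number (the kernel reduces the major premise to a literal) -/
noncomputable def fN {α : Type} (n : Nat) (f : Nat → α) : α := Nat.rec (f 0) (fun m _ => f (Nat.succ m)) n

/-- selection by the recursor of `Bool` -/
noncomputable def sel {α : Type} (b : Bool) (x y : α) : α := Bool.rec y x b

/-- the state -/
abbrev St : Type := Nat → Nat → Nat → Nat → Nat → Nat → Nat → Nat → Nat → Nat → Bool

/-- upper bound of `√(a²+b²)`, where `s = a² + b²` -/
noncomputable def sqrtUp : Nat → Nat → Nat → Nat :=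
fun a b s =>
  fN
    (sel (Nat.ble a b) (Nat.add b (Nat.div (Nat.mul (nat_lit 3) a) (nat_lit 8)))
      (Nat.add a (Nat.div (Nat.mul (nat_lit 3) b) (nat_lit 8))))
    fun u0 => Nat.succ (Nat.div (Nat.add u0 (Nat.div s u0)) (nat_lit 2))

/-- absolute value of a residue -/
noncomputable def rabs : Nat → Nat → Nat :=
fun Q z => sel (Nat.ble (Nat.add z z) Q) z (Nat.sub Q z)

/-- data of the divisor: `X, q, U_D, L_D` -/
noncomputable def dinfo : Nat → Nat → Nat → (Nat → Nat → Nat → Nat → Bool) → Bool :=
fun Q x y k =>
  fN (Nat.mod (Nat.add x (Nat.sub Q (nat_lit 1073741824))) Q) fun X =>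
    fN (rabs Q X) fun aX =>
      fN (rabs Q y) fun aY =>
        fN (Nat.add (Nat.mul aX aX) (Nat.mul aY aY)) fun q =>
          fN (sqrtUp aX aY q) fun UD => fN (Nat.div q UD) fun LD => k X q UD LD

/-- the convolution digits; `sh = 80 (n-2)`, `h = 2 ^ sh / 2` -/
noncomputable def conv : Nat → Nat → Nat → Nat → Nat → (Nat → Nat → Bool) → Bool :=
fun Q A C sh h k =>
  fN
    (Nat.mod
      (Nat.add (Nat.shiftRight (Nat.add (Nat.add (Nat.mul A A) (Nat.mul C (Nat.sub Q C))) h) sh)
        (nat_lit 604462909807314587353088))
      (nat_lit 1208925819614629174706176))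
    fun U =>
    fN
      (Nat.mod
        (Nat.add (Nat.shiftRight (Nat.add (Nat.mul (nat_lit 2) (Nat.mul A C)) h) sh) (nat_lit 604462909807314587353088))
        (nat_lit 1208925819614629174706176))
      fun V => k U V

/-- absolute value of a digit -/
noncomputable def adist : Nat → Nat :=
fun U => Nat.add (Nat.sub U (nat_lit 604462909807314587353088)) (Nat.sub (nat_lit 604462909807314587353088) U)

/-- modulus bound of the convolution digit -/
noncomputable def modU : Nat → Nat → (Nat → Nat → Bool) → Bool :=
fun U V k =>
  fN (adist U) fun aU =>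
    fN (adist V) fun aV =>
      fN (Nat.add (Nat.mul aU aU) (Nat.mul aV aV)) fun s2 =>
        fN (sqrtUp aU aV s2) fun SU => k s2 SU

/-- the new coefficient -/
noncomputable def newc : Nat → Nat → Nat → Nat → Nat → Nat → (Nat → Nat → Bool) → Bool :=
fun Q X y q U V k =>
  fN (Nat.add U (Nat.sub Q (nat_lit 604462909807314587353088))) fun U =>
    fN (Nat.add V (Nat.sub Q (nat_lit 604462909807314587353088))) fun V =>
      fN (Nat.mul (nat_lit 18446744073709551616) q) fun Kq =>
        fN
          (Nat.add (Nat.div (Nat.mod (Nat.add (Nat.add (Nat.mul U X) (Nat.mul V y)) Kq) Q) q)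
            (Nat.sub Q (nat_lit 18446744073709551616)))
          fun u =>
          fN
            (Nat.add (Nat.div (Nat.mod (Nat.add (Nat.add (Nat.mul V X) (Nat.mul U (Nat.sub Q y))) Kq) Q) q)
              (Nat.sub Q (nat_lit 18446744073709551616)))
            fun v => k u v

/-- the next power -/
noncomputable def newp : Nat → Nat → Nat → Nat → Nat → Nat → (Nat → Nat → Bool) → Bool :=
fun Q x1 y1 ny1 x y k =>
  fN
    (Nat.mod
      (Nat.add
        (Nat.div (Nat.mod (Nat.add (Nat.add (Nat.mul x x1) (Nat.mul y ny1)) (nat_lit 4611686018427387904)) Q)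
          (nat_lit 1073741824))
        (Nat.sub Q (nat_lit 4294967296)))
      Q)
    fun x' =>
    fN
      (Nat.mod
        (Nat.add
          (Nat.div (Nat.mod (Nat.add (Nat.add (Nat.mul x y1) (Nat.mul y x1)) (nat_lit 4611686018427387904)) Q)
            (nat_lit 1073741824))
          (Nat.sub Q (nat_lit 4294967296)))
        Q)
      fun y' => k x' y'

/-- append the new digits -/
noncomputable def fin : Nat → Nat → Nat → Nat → Nat → Nat → Nat → Nat → Nat → (Nat → Nat → Nat → Nat → Bool) → Bool :=
fun Q A C G M u v g m k =>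
  fN (Nat.mod (Nat.add (Nat.mul A (nat_lit 1208925819614629174706176)) u) Q) fun A' =>
    fN (Nat.mod (Nat.add (Nat.mul C (nat_lit 1208925819614629174706176)) v) Q) fun C' =>
      fN (Nat.add (Nat.mul G (nat_lit 1208925819614629174706176)) g) fun G' =>
        fN (Nat.add (Nat.mul M (nat_lit 1208925819614629174706176)) m) fun M' => k A' C' G' M'

/-- one step -/
noncomputable def step : Nat → Nat → Nat → Nat → Nat → St → St :=
fun Q x1 y1 ny1 e ih n x y d A C G M s sh =>
  dinfo Q x y fun X q UD LD =>
    conv Q A C sh (Nat.shiftRight (Nat.shiftLeft (nat_lit 1) sh) (nat_lit 1)) fun U V =>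
      fN
        (Nat.mod (Nat.shiftRight (Nat.sub (Nat.mul G G) (Nat.mul M M)) sh) (nat_lit 1208925819614629174706176)) fun W =>
        modU U V fun s2 SU =>
          fN (Nat.div (Nat.sub (Nat.div s2 SU) W) (Nat.add UD d)) fun l =>
            fN (Nat.add s (Nat.mul n (Nat.mul l l))) fun s' =>
              sel (Nat.ble (nat_lit 1152921504606846976) (Nat.mul (nat_lit 4) s')) true
                (sel (Nat.ble LD d) false
                  (fN (Nat.add (Nat.div SU LD) (nat_lit 3)) fun m =>
                    fN (Nat.add (Nat.add (Nat.div (Nat.add W (Nat.mul m d)) (Nat.sub LD d)) (nat_lit 3)) m)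
                      fun g =>
                      sel (Nat.ble (nat_lit 4294967296) g) false
                        (newc Q X y q U V fun u v =>
                          newp Q x1 y1 ny1 x y fun x' y' =>
                            fin Q A C G M u v g m fun A' C' G' M' =>
                              fN (Nat.add d e) fun d' =>
                                fN (Nat.add sh (nat_lit 80)) fun sh' =>
                                  ih (Nat.succ n) x' y' d' A' C' G' M' s' sh')))

/-- the loop -/
noncomputable def loop (Q x1 y1 ny1 e : Nat) (fuel : Nat) : St :=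
  Nat.rec (fun _ _ _ _ _ _ _ _ _ _ => false) (fun _ ih => step Q x1 y1 ny1 e ih) fuel

/-- `x1, y1`: residues of the centre; `e`: radius (in units `1/T`, rounding included) -/
noncomputable def verify (Q R1 x1 y1 e N : Nat) : Bool :=
  fN (Q - y1) fun ny1 => fN (R1 * R1) fun s =>
  loop Q x1 y1 ny1 e N 2 x1 y1 e R1 0 (R1 + 2) (R1 + 1) s 0

/-- one arc: parameter interval `[a, a+w] / 2^24`; `sg = true` for the right half circle -/
noncomputable def arcOK (R1 : Nat) (sg : Bool) (a w n : Nat) : Bool :=
  fN (2 ^ (80 * (n + 1))) fun Q =>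
  fN (2 * a + w) fun c =>
  fN (1125899906842624 + c * c) fun den =>
  fN (1073741824 * (1125899906842624 - c * c) / den) fun tx =>
  fN (1073741824 * (67108864 * c) / den) fun ty =>
  fN ((1073741824 * w * 16777216) / (281474976710656 + a * a) + 6) fun e =>
  fN (bif sg then tx else Q - tx) fun x1 =>
  verify Q R1 x1 ty e n

/-- consecutive arcs starting at `a`; each entry is `256 * w + n` -/
noncomputable def arcs (R1 : Nat) (sg : Bool) (fin : Nat) (l : List Nat) : Nat → Bool :=
  List.rec (fun a => Nat.ble fin a) (fun k _ ih a =>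
    fN (k / 256) fun w => fN (k % 256) fun n => fN (a + w) fun a' =>
    sel (arcOK R1 sg a w n) (sel (Nat.ble a' 16777216) (ih a') false) false) l

end H8.Siegel
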