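import Pool.Agent.H8.Siegel.Step

set_option autoImplicit false
set_option maxRecDepth 20000

namespace H8.Siegel

open Polynomial Finset Complex

/-- the coefficient sequence (scaled by powers of `R`) at `lam` has large area -/
def Good (R : ℝ) (lam : ℂ) : Prop :=
  (∀ n, 1 ≤ n → lam ^ n ≠ 1) → ∀ c : ℕ → ℂ, c 1 = R →
    (∀ n, 1 ≤ n → c (n + 1) * (lam ^ n - 1) = ∑ j ∈ range n, c (j + 1) * c (n - j)) →
    ∃ N, 1 / 4 ≤ ∑ j ∈ range N, (j : ℝ) * ‖c j‖ ^ 2

theorem loop_sound {L x1 y1 e : ℕ} {lam : ℂ} {c : ℕ → ℂ} {X1 Y1 : ℤ}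
    (hlam : ‖lam‖ = 1) (hroot : ∀ n, 1 ≤ n → lam ^ n ≠ 1)
    (hrec : ∀ n, 1 ≤ n → c (n + 1) * (lam ^ n - 1) = ∑ j ∈ range n, c (j + 1) * c (n - j))
    (hx1 : Rep (2 ^ (80 * L)) x1 X1) (hy1 : Rep (2 ^ (80 * L)) y1 Y1) (hy1l : y1 ≤ 2 ^ (80 * L))
    (hcen : ‖((1073741824 : ℝ) : ℂ) * lam - zc X1 Y1‖ ≤ e - 2) (hcn : ‖zc X1 Y1‖ ≤ 1073741824)
    (hL : 2 ≤ L) (fuel k : ℕ) (hk : 1 ≤ k) (hkL : k + fuel ≤ L + 1) (hk2 : k + fuel ≤ 257)
    {x y d A C G M s : ℕ} (hI : Inv L lam c k x y d A C G M s)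
    (h : loop (2 ^ (80 * L)) x1 y1 (2 ^ (80 * L) - y1) e fuel (k + 1) x y d A C G M s
      (80 * (k - 1)) = true) :
    ∃ N, 1 / 4 ≤ ∑ j ∈ range N, (j : ℝ) * ‖c j‖ ^ 2 := by
  induction fuel generalizing k x y d A C G M s with
  | zero => exact absurd h (by simp [loop])
  | succ f ih =>
    have h' : step (2 ^ (80 * L)) x1 y1 (2 ^ (80 * L) - y1) e
      (loop (2 ^ (80 * L)) x1 y1 (2 ^ (80 * L) - y1) e f) (k + 1) x y d A C G M s
      (80 * (k - 1)) = true := h
    rcases step_sound hlam hroot hrec hx1 hy1 hy1l hcen hcn hk (by omega) hL (by omega) hI h' with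
      h1 | ⟨x', y', d', A', C', G', M', s', hI', h2⟩
    · exact ⟨_, h1⟩
    · exact ih (k + 1) (by omega) (by omega) (by omega) hI' h2

theorem verify_sound {L R1 x1 y1 e n : ℕ} {R : ℝ} {lam : ℂ} {X1 Y1 : ℤ}
    (hlam : ‖lam‖ = 1) (hR : (R1 : ℝ) ≤ 1073741824 * R) (hR' : 1073741824 * R ≤ R1 + 1)
    (hR1 : R1 + 2 ≤ 2 ^ 32)
    (hx1 : Rep (2 ^ (80 * L)) x1 X1) (hy1 : Rep (2 ^ (80 * L)) y1 Y1) (hy1l : y1 < 2 ^ (80 * L))
    (hcen : ‖((1073741824 : ℝ) : ℂ) * lam - zc X1 Y1‖ ≤ e - 2) (hcn : ‖zc X1 Y1‖ ≤ 1073741824)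
    (hL : 2 ≤ L) (hn : n ≤ L) (hn2 : n ≤ 256) (h : verify (2 ^ (80 * L)) R1 x1 y1 e n = true) :
    Good R lam := by
  intro hroot c hc1 hrec
  have h2 : loop (2 ^ (80 * L)) x1 y1 (2 ^ (80 * L) - y1) e n (1 + 1) x1 y1 e R1 0 (R1 + 2) (R1 + 1)
      (R1 * R1) (80 * (1 - 1)) = true := by
    unfold verify at h
    rw [fN_eq, fN_eq] at h
    exact h
  refine loop_sound hlam hroot hrec hx1 hy1 hy1l.le hcen hcn hL n 1 le_rfl (by omega) (by omega)
    ?_ h2
  have hR0 : 0 ≤ R := by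
    have : (0 : ℝ) ≤ R1 := Nat.cast_nonneg _
    linarith
  refine ⟨X1, Y1, fun _ => R1, fun _ => 0, fun _ => R1 + 1, fun _ => R1 + 2, hy1l, by positivity,
    hx1, hy1, ?_, ?_, ?_, ?_, ?_, ?_, ?_, ?_⟩
  · rw [pow_one]; linarith
  · linarith
  · simp [pk, Rep.nat]
  · simpa [pk] using Rep.nat (2 ^ (80 * L)) 0
  · simp [pk]
  · simp [pk]
  · intro j h1 h3
    have hj : j = 1 := by omega
    subst hj
    refine ⟨?_, ?_, by positivity, by linarith, ?_⟩
    · have e : ((1073741824 : ℝ) : ℂ) * c 1 - zc (R1 : ℤ) 0 = ((1073741824 * R - R1 : ℝ) : ℂ) := by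
        rw [hc1, zc]; push_cast; ring
      rw [e, Complex.norm_real, Real.norm_eq_abs, abs_of_nonneg (by linarith)]
      push_cast; linarith
    · have e : zc (R1 : ℤ) 0 = ((R1 : ℝ) : ℂ) := by rw [zc]; push_cast; ring
      rw [e, Complex.norm_real, Real.norm_eq_abs, abs_of_nonneg (Nat.cast_nonneg _)]
      push_cast; linarith
    · have : ((R1 + 2 : ℕ) : ℤ) ≤ ((2 ^ 32 : ℕ) : ℤ) := by exact_mod_cast hR1
      simpa using this
  · rw [Finset.sum_range_succ, Finset.sum_range_succ, Finset.sum_range_zero, hc1]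
    have : ‖(R : ℂ)‖ = R := by rw [Complex.norm_real, Real.norm_eq_abs, abs_of_nonneg hR0]
    rw [this]
    push_cast
    have : (R1 : ℝ) * R1 ≤ (1073741824 * R) * (1073741824 * R) :=
      mul_le_mul hR hR (Nat.cast_nonneg _) (by positivity)
    nlinarith

/-- parametrisation of the upper half circle -/
noncomputable def lamP (sg : Bool) (t : ℝ) : ℂ :=
  if sg then (1 + t * I) / (1 - t * I) else -((1 - t * I) / (1 + t * I))

theorem one_add_ne (t : ℝ) : (1 : ℂ) + t * I ≠ 0 := by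
  intro h
  have := congrArg Complex.re h
  simp at this

theorem one_sub_ne (t : ℝ) : (1 : ℂ) - t * I ≠ 0 := by
  intro h
  have := congrArg Complex.re h
  simp at this

theorem norm_one_add (t : ℝ) : ‖(1 : ℂ) + t * I‖ = Real.sqrt (1 + t ^ 2) := by
  rw [Complex.norm_def, Complex.normSq_apply]; simp; ring_nf

theorem norm_one_sub (t : ℝ) : ‖(1 : ℂ) - t * I‖ = Real.sqrt (1 + t ^ 2) := by
  rw [Complex.norm_def, Complex.normSq_apply]; simp; ring_nf

theorem norm_lamP (sg : Bool) (t : ℝ) : ‖lamP sg t‖ = 1 := by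
  have h : Real.sqrt (1 + t ^ 2) ≠ 0 := (Real.sqrt_pos.2 (by positivity)).ne'
  cases sg
  · simp only [lamP, Bool.false_eq_true, if_false, norm_neg, norm_div, norm_one_add, norm_one_sub]
    exact div_self h
  · simp only [lamP, if_true, norm_div, norm_one_add, norm_one_sub]
    exact div_self h

theorem chord (sg : Bool) {a s t : ℝ} (ha : 0 ≤ a) (hs : a ≤ s) (ht : a ≤ t) :
    ‖lamP sg s - lamP sg t‖ ≤ 2 * |s - t| / (1 + a ^ 2) := by
  have key : ‖lamP sg s - lamP sg t‖ = 2 * |s - t| / (Real.sqrt (1 + s ^ 2) * Real.sqrt (1 + t ^ 2)) := by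
    cases sg
    · have e : lamP false s - lamP false t =
          2 * ((s - t : ℝ) : ℂ) * I / ((1 + s * I) * (1 + t * I)) := by
        simp only [lamP, Bool.false_eq_true, if_false]
        have h1 := one_add_ne s
        have h2 := one_add_ne t
        have e1 : (1 : ℂ) - s * I = 2 - (1 + s * I) := by ring
        have e2 : (1 : ℂ) - t * I = 2 - (1 + t * I) := by ring
        have e3 : 2 * ((s - t : ℝ) : ℂ) * I = 2 * ((1 + s * I) - (1 + t * I)) := by
          push_cast; ring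
        rw [e1, e2, e3]
        generalize (1 : ℂ) + s * I = A at *
        generalize (1 : ℂ) + t * I = B at *
        field_simp
        ring
      rw [e, norm_div, norm_mul, norm_mul, norm_mul, norm_one_add, norm_one_add, Complex.norm_real,
        Complex.norm_I]
      simp
    · have e : lamP true s - lamP true t =
          2 * ((s - t : ℝ) : ℂ) * I / ((1 - s * I) * (1 - t * I)) := by
        simp only [lamP, if_true]
        have h1 := one_sub_ne s
        have h2 := one_sub_ne t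
        have e1 : (1 : ℂ) + s * I = 2 - (1 - s * I) := by ring
        have e2 : (1 : ℂ) + t * I = 2 - (1 - t * I) := by ring
        have e3 : 2 * ((s - t : ℝ) : ℂ) * I = 2 * ((1 - t * I) - (1 - s * I)) := by
          push_cast; ring
        rw [e1, e2, e3]
        generalize (1 : ℂ) - s * I = A at *
        generalize (1 : ℂ) - t * I = B at *
        field_simp
        ring
      rw [e, norm_div, norm_mul, norm_mul, norm_mul, norm_one_sub, norm_one_sub, Complex.norm_real,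
        Complex.norm_I]
      simp
  rw [key]
  have h1 : Real.sqrt (1 + a ^ 2) ≤ Real.sqrt (1 + s ^ 2) := Real.sqrt_le_sqrt (by nlinarith)
  have h2 : Real.sqrt (1 + a ^ 2) ≤ Real.sqrt (1 + t ^ 2) := Real.sqrt_le_sqrt (by nlinarith)
  have h3 : (1 + a ^ 2) ≤ Real.sqrt (1 + s ^ 2) * Real.sqrt (1 + t ^ 2) := by
    calc (1 + a ^ 2) = Real.sqrt (1 + a ^ 2) * Real.sqrt (1 + a ^ 2) :=
          (Real.mul_self_sqrt (by positivity)).symm
      _ ≤ _ := mul_le_mul h1 h2 (Real.sqrt_nonneg _) (Real.sqrt_nonneg _)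
  exact div_le_div_of_nonneg_left (by positivity) (by positivity) h3

theorem lamP_eq (sg : Bool) (t : ℝ) : lamP sg t =
    (((if sg then 1 else -1) * ((1 - t ^ 2) / (1 + t ^ 2)) : ℝ) : ℂ) +
      ((2 * t / (1 + t ^ 2) : ℝ) : ℂ) * I := by
  have h : (1 : ℂ) + (t : ℂ) ^ 2 ≠ 0 := by
    have : (0 : ℝ) < 1 + t ^ 2 := by positivity
    exact_mod_cast this.ne'
  cases sg
  · simp only [lamP, Bool.false_eq_true, if_false]
    have h1 := one_add_ne t
    push_cast
    field_simp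
    linear_combination ((t : ℂ) ^ 4 * 0 + (-(2 : ℂ)) * t ^ 2 + 0) * I_sq
  · simp only [lamP, if_true]
    have h1 := one_sub_ne t
    push_cast
    field_simp
    linear_combination ((2 : ℂ)) * t ^ 2 * I_sq

theorem arcOK_eq (R1 : ℕ) (sg : Bool) (a w n : ℕ) : arcOK R1 sg a w n =
    verify (2 ^ (80 * (n + 1))) R1
      (if sg then 1073741824 * (1125899906842624 - (2 * a + w) * (2 * a + w)) /
          (1125899906842624 + (2 * a + w) * (2 * a + w))
        else 2 ^ (80 * (n + 1)) - 1073741824 * (1125899906842624 - (2 * a + w) * (2 * a + w)) /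
          (1125899906842624 + (2 * a + w) * (2 * a + w)))
      (1073741824 * (67108864 * (2 * a + w)) / (1125899906842624 + (2 * a + w) * (2 * a + w)))
      ((1073741824 * w * 16777216) / (281474976710656 + a * a) + 6) n := by
  unfold arcOK
  simp only [fN_eq]
  cases sg <;> rfl

theorem nat_div_floor {p q : ℕ} (hq : 0 < q) :
    ((p / q : ℕ) : ℝ) ≤ (p : ℝ) / q ∧ (p : ℝ) / q ≤ (p / q : ℕ) + 1 := by
  refine ⟨Nat.cast_div_le, ?_⟩
  have hq' : (0 : ℝ) < q := by exact_mod_cast hq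
  rw [div_le_iff₀ hq']
  have := Nat.lt_mul_div_succ p hq
  have h3 : (p : ℝ) < q * (p / q + 1 : ℕ) := by exact_mod_cast this
  rw [Nat.cast_add_one] at h3
  linarith

theorem arcOK_sound {R1 : ℕ} {R : ℝ} (hR : (R1 : ℝ) ≤ 1073741824 * R)
    (hR' : 1073741824 * R ≤ R1 + 1) (hR1 : R1 + 2 ≤ 2 ^ 32) {sg : Bool} {a w n : ℕ}
    (hn1 : 1 ≤ n) (hn : n ≤ 255) (haw : a + w ≤ 16777216) (h : arcOK R1 sg a w n = true)
    {t : ℝ} (ht : (a : ℝ) ≤ t) (ht' : t ≤ a + w) : Good R (lamP sg (t / 16777216)) := by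
  rw [arcOK_eq] at h
  set c : ℕ := 2 * a + w with hc
  set den : ℕ := 1125899906842624 + c * c with hden
  have hden0 : 0 < den := by positivity
  have hcc : c * c ≤ 1125899906842624 := by
    have : c ≤ 33554432 := by omega
    calc c * c ≤ 33554432 * 33554432 := Nat.mul_le_mul this this
      _ = 1125899906842624 := by norm_num
  set tx : ℕ := 1073741824 * (1125899906842624 - c * c) / den with htx
  set ty : ℕ := 1073741824 * (67108864 * c) / den with hty
  set tc : ℝ := (c : ℝ) / 33554432 with htc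
  have hdr : (den : ℝ) = 1125899906842624 + c ^ 2 := by rw [hden]; push_cast; ring
  have hdpos : (0 : ℝ) < 1125899906842624 + (c : ℝ) ^ 2 := by positivity
  -- coordinates of the centre
  have ex : (1 - tc ^ 2) / (1 + tc ^ 2) = (1125899906842624 - (c : ℝ) ^ 2) / (1125899906842624 + c ^ 2) := by
    rw [htc]; field_simp; ring
  have ey : 2 * tc / (1 + tc ^ 2) = 67108864 * c / (1125899906842624 + (c : ℝ) ^ 2) := by
    rw [htc]; field_simp; ring
  obtain ⟨fx1, fx2⟩ := nat_div_floor (p := 1073741824 * (1125899906842624 - c * c)) hden0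
  obtain ⟨fy1, fy2⟩ := nat_div_floor (p := 1073741824 * (67108864 * c)) hden0
  rw [← htx, Nat.cast_mul, Nat.cast_sub hcc, hdr] at fx1 fx2
  rw [← hty, Nat.cast_mul, Nat.cast_mul, hdr] at fy1 fy2
  set ax : ℝ := 1073741824 * ((1 - tc ^ 2) / (1 + tc ^ 2)) with hax
  set ay : ℝ := 1073741824 * (2 * tc / (1 + tc ^ 2)) with hay
  have fx1' : (tx : ℝ) ≤ ax := by
    rw [hax, ex]; refine fx1.trans (le_of_eq ?_); push_cast; ring
  have fx2' : ax ≤ tx + 1 := by
    rw [hax, ex]; refine le_trans (le_of_eq ?_) fx2; push_cast; ring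
  have fy1' : (ty : ℝ) ≤ ay := by
    rw [hay, ey]; refine fy1.trans (le_of_eq ?_); push_cast; ring
  have fy2' : ay ≤ ty + 1 := by
    rw [hay, ey]; refine le_trans (le_of_eq ?_) fy2; push_cast; ring
  have hsq : ax ^ 2 + ay ^ 2 = 1073741824 ^ 2 := by
    rw [hax, hay]; field_simp; ring
  have hX0 : (0 : ℝ) ≤ tx := Nat.cast_nonneg _
  have hY0 : (0 : ℝ) ≤ ty := Nat.cast_nonneg _
  have hsq2 : (tx : ℝ) ^ 2 + (ty : ℝ) ^ 2 ≤ 1073741824 ^ 2 := by
    rw [← hsq]
    exact add_le_add (pow_le_pow_left₀ hX0 fx1' 2) (pow_le_pow_left₀ hY0 fy1' 2)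
  set X1 : ℤ := if sg then (tx : ℤ) else -(tx : ℤ) with hX1
  have hX1r : (X1 : ℝ) ^ 2 = (tx : ℝ) ^ 2 := by cases sg <;> simp [hX1]
  have hcn : ‖zc X1 (ty : ℤ)‖ ≤ 1073741824 := by
    apply le_of_sq_le_sq _ (by norm_num)
    rw [zc, norm_int]
    push_cast
    rw [hX1r]
    exact hsq2
  -- distance to the centre
  have hlc : ((1073741824 : ℝ) : ℂ) * lamP sg tc - zc X1 (ty : ℤ) =
      (((if sg then 1 else -1) * (ax - tx) : ℝ) : ℂ) + ((ay - ty : ℝ) : ℂ) * I := by
    rw [lamP_eq, zc, hax, hay, hX1]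
    cases sg <;> simp <;> ring
  have hcd : ‖((1073741824 : ℝ) : ℂ) * lamP sg tc - zc X1 (ty : ℤ)‖ ≤ 2 := by
    rw [hlc]
    refine (Complex.norm_le_abs_re_add_abs_im _).trans ?_
    have e1 : ((((if sg then 1 else -1) * (ax - tx) : ℝ) : ℂ) + ((ay - ty : ℝ) : ℂ) * I).re =
        (if sg then 1 else -1) * (ax - tx) := by
      rw [add_re, ofReal_re, mul_re, ofReal_re, ofReal_im, I_re, I_im]; ring
    have e2 : ((((if sg then 1 else -1) * (ax - tx) : ℝ) : ℂ) + ((ay - ty : ℝ) : ℂ) * I).im =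
        ay - ty := by
      rw [add_im, ofReal_im, mul_im, ofReal_re, ofReal_im, I_re, I_im]; ring
    rw [e1, e2, abs_mul]
    have h1 : |(if sg then (1 : ℝ) else -1)| = 1 := by cases sg <;> simp
    rw [h1, one_mul, abs_of_nonneg (by linarith), abs_of_nonneg (by linarith)]
    linarith
  have hat : (0 : ℝ) ≤ (a : ℝ) / 16777216 := by positivity
  have h1 : (a : ℝ) / 16777216 ≤ t / 16777216 := by
    exact div_le_div_of_nonneg_right ht (by norm_num)
  have hcr : (c : ℝ) = 2 * a + w := by rw [hc]; push_cast; ring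
  have h2 : (a : ℝ) / 16777216 ≤ tc := by
    rw [htc, hcr]
    have : (0 : ℝ) ≤ w := Nat.cast_nonneg _
    linarith
  have hch := chord sg hat h1 h2
  have hdist : 2 * |t / 16777216 - tc| ≤ (w : ℝ) / 16777216 := by
    rw [htc, hcr]
    have : |t / 16777216 - (2 * a + w) / 33554432| ≤ (w : ℝ) / 33554432 := by
      rw [abs_le]; constructor <;> linarith
    linarith
  obtain ⟨_, fe2⟩ := nat_div_floor (p := 1073741824 * w * 16777216) (q := 281474976710656 + a * a)
    (by positivity)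
  set E : ℕ := (1073741824 * w * 16777216) / (281474976710656 + a * a) with hE
  have hch2 : 1073741824 * ‖lamP sg (t / 16777216) - lamP sg tc‖ ≤ E + 1 := by
    refine le_trans ?_ fe2
    have h3 : ‖lamP sg (t / 16777216) - lamP sg tc‖ ≤ ((w : ℝ) / 16777216) / (1 + (a / 16777216) ^ 2) :=
      hch.trans (div_le_div_of_nonneg_right hdist (by positivity))
    refine (mul_le_mul_of_nonneg_left h3 (by norm_num)).trans (le_of_eq ?_)
    push_cast
    field_simp
    ring
  have hcen : ‖((1073741824 : ℝ) : ℂ) * lamP sg (t / 16777216) - zc X1 (ty : ℤ)‖ ≤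
      ((E + 6 : ℕ) : ℝ) - 2 := by
    have e : ((1073741824 : ℝ) : ℂ) * lamP sg (t / 16777216) - zc X1 (ty : ℤ) =
        ((1073741824 : ℝ) : ℂ) * (lamP sg (t / 16777216) - lamP sg tc) +
        (((1073741824 : ℝ) : ℂ) * lamP sg tc - zc X1 (ty : ℤ)) := by ring
    rw [e]
    refine (norm_add_le _ _).trans ?_
    have e2 : ‖((1073741824 : ℝ) : ℂ) * (lamP sg (t / 16777216) - lamP sg tc)‖ =
        1073741824 * ‖lamP sg (t / 16777216) - lamP sg tc‖ := by
      rw [norm_mul, Complex.norm_real]; norm_num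
    have e3 : ((E + 6 : ℕ) : ℝ) = E + 6 := by push_cast; ring
    rw [e2, e3]
    linarith
  have htyT : ty ≤ 1073741824 := by
    have h5 : (ty : ℝ) ^ 2 ≤ 1073741824 ^ 2 := by nlinarith [sq_nonneg (tx : ℝ)]
    have h6 : (ty : ℝ) ≤ 1073741824 := le_of_sq_le_sq h5 (by norm_num)
    exact_mod_cast h6
  have htxT : tx ≤ 1073741824 := by
    have h5 : (tx : ℝ) ^ 2 ≤ 1073741824 ^ 2 := by nlinarith [sq_nonneg (ty : ℝ)]
    have h6 : (tx : ℝ) ≤ 1073741824 := le_of_sq_le_sq h5 (by norm_num)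
    exact_mod_cast h6
  have hQ : 2 ^ 160 ≤ 2 ^ (80 * (n + 1)) := Nat.pow_le_pow_right (by norm_num) (by omega)
  have hTQ : 1073741824 < 2 ^ (80 * (n + 1)) := lt_of_lt_of_le (by norm_num) hQ
  have hx1 : Rep (2 ^ (80 * (n + 1))) (if sg then tx else 2 ^ (80 * (n + 1)) - tx) X1 := by
    cases sg
    · simp only [hX1, Bool.false_eq_true, if_false]
      exact Rep.neg_nat (by omega)
    · simp only [hX1, if_true]
      exact Rep.nat _ _
  exact verify_sound (norm_lamP sg _) hR hR' hR1 hx1 (Rep.nat _ _) (by omega) hcen hcn (by omega)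
    (by omega) (by omega) h

theorem arcs_sound {R1 : ℕ} {R : ℝ} (hR : (R1 : ℝ) ≤ 1073741824 * R)
    (hR' : 1073741824 * R ≤ R1 + 1) (hR1 : R1 + 2 ≤ 2 ^ 32) {sg : Bool} {fin : ℕ} (l : List ℕ)
    (a : ℕ) (h : arcs R1 sg fin l a = true) {t : ℝ}
    (ht : (a : ℝ) ≤ t) (ht' : t ≤ fin) : Good R (lamP sg (t / 16777216)) ∨ t = a := by
  induction l generalizing a with
  | nil =>
    right
    have h1 : fin ≤ a := (ble_iff _ _).1 h
    have h2 : (fin : ℝ) ≤ a := by exact_mod_cast h1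
    linarith
  | cons k l ih =>
    left
    have e : arcs R1 sg fin (k :: l) a =
        sel (arcOK R1 sg a (k / 256) (k % 256))
          (sel (Nat.ble (a + k / 256) 16777216) (arcs R1 sg fin l (a + k / 256)) false) false := by
      unfold arcs
      simp only [fN_eq]
    rw [e] at h
    have h1 : arcOK R1 sg a (k / 256) (k % 256) = true := by
      by_contra hcon
      rw [Bool.not_eq_true] at hcon
      rw [hcon, sel_false] at h
      exact absurd h (by simp)
    rw [h1, sel_true, sel_ble] at h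
    have h2 : a + k / 256 ≤ 16777216 := by
      by_contra hcon
      rw [if_neg hcon] at h
      exact absurd h (by simp)
    rw [if_pos h2] at h
    have hk : 1 ≤ k % 256 := by
      by_contra hcon
      have h0 : k % 256 = 0 := by omega
      rw [h0, arcOK_eq] at h1
      unfold verify at h1
      rw [fN_eq, fN_eq] at h1
      exact absurd h1 (by simp [loop])
    have hG : ∀ s : ℝ, (a : ℝ) ≤ s → s ≤ ((a + k / 256 : ℕ) : ℝ) → Good R (lamP sg (s / 16777216)) := by
      intro s hs hs'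
      exact arcOK_sound hR hR' hR1 hk (by omega) h2 h1 hs (by push_cast at hs'; exact hs')
    rcases le_or_gt t ((a + k / 256 : ℕ) : ℝ) with h3 | h3
    · exact hG t ht h3
    · rcases ih _ h h3.le with h4 | h4
      · exact h4
      · exact absurd h4 h3.ne'

end H8.Siegel
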