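import Mathlib

set_option autoImplicit false

namespace H8.Siegel

open Complex Metric Filter MeasureTheory Topology

/-- terms of the power series -/
noncomputable def pser (a : ℕ → ℂ) (z : ℂ) : ℂ := ∑' n, a n * z ^ n

section basic
variable {a : ℕ → ℂ} {r : ℝ}

theorem summable_at (hs : Summable fun n => ‖a n‖ * r ^ n) {z : ℂ} (hz : ‖z‖ ≤ r) :
    Summable fun n => ‖a n * z ^ n‖ := by
  refine Summable.of_nonneg_of_le (fun n => norm_nonneg _) (fun n => ?_) hs
  rw [norm_mul, norm_pow]
  gcongr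

theorem pser_diff (hs : Summable fun n => ‖a n‖ * r ^ n) : DifferentiableOn ℂ (pser a) (ball 0 r) := by
  refine differentiableOn_tsum_of_summable_norm hs (fun n => ?_) isOpen_ball (fun n w hw => ?_)
  · exact ((differentiable_id.pow n).const_mul _).differentiableOn
  · rw [norm_mul, norm_pow]
    have : ‖w‖ ≤ r := by simpa using (mem_ball_zero_iff.1 hw).le
    gcongr

theorem pser_deriv (hs : Summable fun n => ‖a n‖ * r ^ n) {z : ℂ} (hz : z ∈ ball (0 : ℂ) r) :
    HasSum (fun n : ℕ => a n * (n * z ^ (n - 1))) (deriv (pser a) z) := by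
  have h := hasSum_deriv_of_summable_norm (F := fun n w => a n * w ^ n) hs
    (fun n => ((differentiable_id.pow n).const_mul _).differentiableOn) isOpen_ball
    (fun n w hw => by
      rw [norm_mul, norm_pow]
      have : ‖w‖ ≤ r := by simpa using (mem_ball_zero_iff.1 hw).le
      gcongr) hz
  convert! h using 2
  rename_i n
  simp

theorem pser_hasDerivAt (hs : Summable fun n => ‖a n‖ * r ^ n) {z : ℂ} (hz : z ∈ ball (0 : ℂ) r) :
    HasDerivAt (pser a) (deriv (pser a) z) z :=
  ((pser_diff hs).differentiableAt (isOpen_ball.mem_nhds hz)).hasDerivAt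

/-- the functional equation from the recursion -/
theorem pser_eq {lam : ℂ} (hl : ‖lam‖ = 1)
    (hrec : ∀ n, lam ^ n * a n = lam * (a n + ∑ p ∈ Finset.HasAntidiagonal.antidiagonal n, a p.1 * a p.2))
    (hs : Summable fun n => ‖a n‖ * r ^ n) {z : ℂ} (hz : ‖z‖ ≤ r) :
    pser a (lam * z) = lam * (pser a z + pser a z ^ 2) := by
  have h1 := summable_at hs hz
  have h3 : HasSum (fun n => ∑ p ∈ Finset.HasAntidiagonal.antidiagonal n, (a p.1 * z ^ p.1) * (a p.2 * z ^ p.2))
      (pser a z * pser a z) := by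
    have h4 := tsum_mul_tsum_eq_tsum_sum_antidiagonal_of_summable_norm h1 h1
    have h5 := summable_norm_sum_mul_antidiagonal_of_summable_norm h1 h1
    unfold pser
    rw [h4]
    exact h5.of_norm.hasSum
  have h6 : HasSum (fun n => a n * z ^ n) (pser a z) := h1.of_norm.hasSum
  have h7 := (h6.add h3).mul_left lam
  have h8 : pser a (lam * z) = ∑' n, lam * (a n * z ^ n + ∑ p ∈ Finset.HasAntidiagonal.antidiagonal n,
      (a p.1 * z ^ p.1) * (a p.2 * z ^ p.2)) := by
    unfold pser
    congr 1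
    ext n
    have : ∑ p ∈ Finset.HasAntidiagonal.antidiagonal n, (a p.1 * z ^ p.1) * (a p.2 * z ^ p.2)
        = (∑ p ∈ Finset.HasAntidiagonal.antidiagonal n, a p.1 * a p.2) * z ^ n := by
      rw [Finset.sum_mul]
      refine Finset.sum_congr rfl fun p hp => ?_
      rw [← Finset.HasAntidiagonal.mem_antidiagonal.1 hp, pow_add]
      ring
    rw [this, mul_pow]
    linear_combination z ^ n * hrec n
  rw [h8, h7.tsum_eq]
  ring

theorem norm_lam_mul {lam : ℂ} (hl : ‖lam‖ = 1) (z : ℂ) : ‖lam * z‖ = ‖z‖ := by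
  rw [norm_mul, hl, one_mul]

theorem norm_pow_mul {lam : ℂ} (hl : ‖lam‖ = 1) (z : ℂ) (n : ℕ) : ‖lam ^ n * z‖ = ‖z‖ := by
  rw [norm_mul, norm_pow, hl, one_pow, one_mul]

/-- injectivity -/
theorem pser_inj {lam : ℂ} (hl : ‖lam‖ = 1) (hroot : ∀ n, 1 ≤ n → lam ^ n ≠ 1) (h1 : a 1 = 1)
    (hrec : ∀ n, lam ^ n * a n = lam * (a n + ∑ p ∈ Finset.HasAntidiagonal.antidiagonal n, a p.1 * a p.2))
    (hs : Summable fun n => ‖a n‖ * r ^ n) {z w : ℂ} (hz : ‖z‖ ≤ r) (hw : ‖w‖ ≤ r)
    (h : pser a z = pser a w) : z = w := by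
  have hk : ∀ k : ℕ, pser a (lam ^ k * z) = pser a (lam ^ k * w) := by
    intro k
    induction k with
    | zero => simpa using h
    | succ k ih =>
      have e : ∀ x : ℂ, lam ^ (k + 1) * x = lam * (lam ^ k * x) := fun x => by ring
      rw [e, e, pser_eq hl hrec hs (by rw [norm_pow_mul hl]; exact hz),
        pser_eq hl hrec hs (by rw [norm_pow_mul hl]; exact hw), ih]
  have hlam : lam ≠ 0 := by
    intro h0
    rw [h0] at hl
    simp at hl
  -- averages
  obtain ⟨D, hD⟩ : ∃ D : ℕ → ℂ, ∀ n, D n = a n * (z ^ n - w ^ n) := ⟨_, fun _ => rfl⟩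
  have hsz := summable_at hs hz
  have hsw := summable_at hs hw
  have hDs : Summable fun n => ‖D n‖ := by
    refine Summable.of_nonneg_of_le (fun n => norm_nonneg _) (fun n => ?_) (hsz.add hsw)
    rw [hD, mul_sub]
    exact norm_sub_le _ _
  have hzero : ∀ k : ℕ, ∑' n, D n * (lam ^ n) ^ k = 0 := by
    intro k
    have e1 : HasSum (fun n => a n * (lam ^ k * z) ^ n) (pser a (lam ^ k * z)) :=
      (summable_at hs (by rw [norm_pow_mul hl]; exact hz)).of_norm.hasSum
    have e2 : HasSum (fun n => a n * (lam ^ k * w) ^ n) (pser a (lam ^ k * w)) :=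
      (summable_at hs (by rw [norm_pow_mul hl]; exact hw)).of_norm.hasSum
    have e3 := e1.sub e2
    rw [hk k, sub_self] at e3
    rw [← e3.tsum_eq]
    congr 1
    ext n
    rw [hD, mul_pow, mul_pow, ← pow_mul, ← pow_mul, mul_comm k n]
    ring
  -- the averaged sums
  set g : ℕ → ℕ → ℂ := fun N n => D n * ((N + 1 : ℂ)⁻¹ * ∑ k ∈ Finset.range (N + 1), (lam ^ n * lam⁻¹) ^ k) with hg
  have hlim : Tendsto (fun N => ∑' n, g N n) atTop (𝓝 (∑' n, if n = 1 then D 1 else 0)) := by
    refine tendsto_tsum_of_dominated_convergence hDs (fun n => ?_) (Eventually.of_forall fun N n => ?_)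
    · by_cases hn : n = 1
      · subst hn
        simp only [hg, if_true, pow_one, mul_inv_cancel₀ hlam, one_pow, Finset.sum_const, Finset.card_range,
          nsmul_eq_mul, mul_one]
        refine tendsto_const_nhds.congr fun N => ?_
        have : ((N + 1 : ℕ) : ℂ) ≠ 0 := Nat.cast_ne_zero.2 (Nat.succ_ne_zero N)
        rw [← Nat.cast_succ, Nat.succ_eq_add_one, inv_mul_cancel₀ this, mul_one]
      · rw [if_neg hn]
        have hne : lam ^ n * lam⁻¹ ≠ 1 := by
          intro hc
          rcases Nat.lt_or_gt_of_ne hn with h2 | h2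
          · have : n = 0 := by omega
            subst this
            rw [pow_zero, one_mul] at hc
            exact hroot 1 le_rfl (by rw [pow_one, ← inv_inv lam, hc, inv_one])
          · refine hroot (n - 1) (by omega) ?_
            have : lam ^ n = lam ^ (n - 1) * lam := by rw [← pow_succ]; congr 1; omega
            rw [this, mul_assoc, mul_inv_cancel₀ hlam, mul_one] at hc
            exact hc
        have hb : ∀ N : ℕ, ‖g N n‖ ≤ ‖D n‖ * (2 / ‖lam ^ n * lam⁻¹ - 1‖) * (1 / ((N : ℝ) + 1)) := by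
          intro N
          simp only [hg]
          rw [geom_sum_eq hne, norm_mul, norm_mul, norm_div, norm_inv]
          have e1 : ‖(N + 1 : ℂ)‖ = (N : ℝ) + 1 := by
            have : ((N : ℂ) + 1) = ((N + 1 : ℕ) : ℂ) := by push_cast; ring
            rw [this, Complex.norm_natCast]; push_cast; ring
          have e2 : ‖(lam ^ n * lam⁻¹) ^ (N + 1) - 1‖ ≤ 2 := by
            refine (norm_sub_le _ _).trans ?_
            rw [norm_pow, norm_mul, norm_pow, norm_inv, hl]
            norm_num
          rw [e1]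
          have e3 : 0 < ‖lam ^ n * lam⁻¹ - 1‖ := norm_pos_iff.2 (sub_ne_zero.2 hne)
          rw [mul_assoc]
          refine mul_le_mul_of_nonneg_left ?_ (norm_nonneg _)
          rw [mul_comm, one_div]
          refine mul_le_mul_of_nonneg_right ?_ (by positivity)
          gcongr
        refine squeeze_zero_norm hb ?_
        have := (tendsto_one_div_add_atTop_nhds_zero_nat (𝕜 := ℝ)).const_mul (‖D n‖ * (2 / ‖lam ^ n * lam⁻¹ - 1‖))
        simpa using this
    · simp only [hg]
      rw [norm_mul]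
      refine mul_le_of_le_one_right (norm_nonneg _) ?_
      rw [norm_mul, norm_inv]
      have e1 : ‖(N + 1 : ℂ)‖ = (N : ℝ) + 1 := by
        have : ((N : ℂ) + 1) = ((N + 1 : ℕ) : ℂ) := by push_cast; ring
        rw [this, Complex.norm_natCast]; push_cast; ring
      have e2 : ‖∑ k ∈ Finset.range (N + 1), (lam ^ n * lam⁻¹) ^ k‖ ≤ (N : ℝ) + 1 := by
        refine (norm_sum_le _ _).trans ?_
        have : ∀ k ∈ Finset.range (N + 1), ‖(lam ^ n * lam⁻¹) ^ k‖ ≤ 1 := by
          intro k _
          rw [norm_pow, norm_mul, norm_pow, norm_inv, hl]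
          simp
        refine (Finset.sum_le_sum this).trans ?_
        simp
      rw [e1, inv_mul_le_iff₀ (by positivity), mul_one]
      exact e2
  have hz0 : ∀ N, ∑' n, g N n = 0 := by
    intro N
    have e1 : ∀ k : ℕ, Summable fun n => D n * (lam ^ n * lam⁻¹) ^ k := by
      intro k
      refine Summable.of_norm_bounded hDs fun n => ?_
      rw [norm_mul, norm_pow, norm_mul, norm_pow, norm_inv, hl]
      simp
    have e2 : ∀ n, g N n = (N + 1 : ℂ)⁻¹ * ∑ k ∈ Finset.range (N + 1), D n * (lam ^ n * lam⁻¹) ^ k := by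
      intro n
      simp only [hg]
      rw [← Finset.mul_sum]
      ring
    simp_rw [e2]
    rw [tsum_mul_left, Summable.tsum_finsetSum (fun k _ => e1 k)]
    rw [Finset.sum_eq_zero, mul_zero]
    intro k _
    have e3 : ∀ n, D n * (lam ^ n * lam⁻¹) ^ k = (D n * (lam ^ n) ^ k) * (lam⁻¹) ^ k := by
      intro n
      rw [mul_pow]
      ring
    simp_rw [e3]
    rw [tsum_mul_right, hzero k, zero_mul]
  simp_rw [hz0] at hlim
  have hfin := tendsto_nhds_unique hlim tendsto_const_nhds
  rw [tsum_ite_eq] at hfin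
  simp only [hD, h1, pow_one, one_mul] at hfin
  exact sub_eq_zero.1 hfin

end basic

end H8.Siegel
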