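import Pool.Agent.H8.Siegel.Area1

set_option autoImplicit false

namespace H8.Siegel

open Complex Metric Filter MeasureTheory Topology

/-- integral of a radial function over a disc -/
theorem integral_ball_radial (f : ℝ → ℝ) {s : ℝ} (hs : 0 ≤ s) :
    ∫ z in ball (0 : ℂ) s, f ‖z‖ = 2 * Real.pi * ∫ y in (0 : ℝ)..s, y * f y := by
  have h1 : ∫ z in ball (0 : ℂ) s, f ‖z‖ = ∫ z : ℂ, (Set.Iio s).indicator f ‖z‖ := by
    rw [← integral_indicator measurableSet_ball]
    congr 1
    ext z
    by_cases h : ‖z‖ < s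
    · rw [Set.indicator_of_mem (by simpa using h), Set.indicator_of_mem (by simpa using h)]
    · rw [Set.indicator_of_notMem (by simpa using h), Set.indicator_of_notMem (by simpa using h)]
  rw [h1, integral_fun_norm_addHaar (volume : Measure ℂ)]
  have h2 : (volume : Measure ℂ).real (ball 0 1) = Real.pi := by
    rw [measureReal_def, Complex.volume_ball]
    simp
  rw [h2, Complex.finrank_real_complex]
  have h3 : ∫ y in Set.Ioi (0 : ℝ), y ^ (2 - 1) • (Set.Iio s).indicator f y = ∫ y in (0 : ℝ)..s, y * f y := by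
    rw [intervalIntegral.integral_of_le hs, integral_Ioc_eq_integral_Ioo, ← integral_indicator measurableSet_Ioi,
      ← integral_indicator measurableSet_Ioo]
    congr 1
    ext y
    by_cases h : 0 < y
    · by_cases h' : y < s
      · simp [Set.indicator, h, h']
      · simp [Set.indicator, h, h']
    · simp [Set.indicator, h]
  rw [h3]
  simp [nsmul_eq_mul]
  ring

theorem integral_ball_norm_pow {s : ℝ} (hs : 0 ≤ s) (k : ℕ) :
    ∫ z in ball (0 : ℂ) s, ‖z‖ ^ (2 * k) = Real.pi * s ^ (2 * k + 2) / (k + 1) := by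
  rw [integral_ball_radial (fun y => y ^ (2 * k)) hs]
  have : ∫ y in (0 : ℝ)..s, y * y ^ (2 * k) = s ^ (2 * k + 2) / (2 * k + 2) := by
    have e : ∀ y : ℝ, y * y ^ (2 * k) = y ^ (2 * k + 1) := fun y => by ring
    simp_rw [e]
    rw [integral_pow]
    push_cast
    simp
    ring
  rw [this]
  have h1 : (2 * (k : ℝ) + 2) ≠ 0 := by positivity
  have h2 : ((k : ℝ) + 1) ≠ 0 := by positivity
  field_simp

theorem integral_min_part :
    ∫ z in ball (0 : ℂ) (Real.sqrt (1 / 2)), (4 * ‖z‖ ^ 2 - 2) = -(Real.pi / 2) := by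
  rw [integral_ball_radial (fun y => 4 * y ^ 2 - 2) (Real.sqrt_nonneg _)]
  have : ∫ y in (0 : ℝ)..Real.sqrt (1 / 2), y * (4 * y ^ 2 - 2) = -(1 / 4) := by
    have e : ∀ y : ℝ, y * (4 * y ^ 2 - 2) = 4 * y ^ 3 - 2 * y ^ 1 := fun y => by ring
    simp_rw [e]
    rw [intervalIntegral.integral_sub (by apply Continuous.intervalIntegrable; fun_prop)
      (by apply Continuous.intervalIntegrable; fun_prop), intervalIntegral.integral_const_mul,
      intervalIntegral.integral_const_mul, integral_pow, integral_pow]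
    have h2 : Real.sqrt (1 / 2) ^ 2 = 1 / 2 := Real.sq_sqrt (by norm_num)
    have h4 : Real.sqrt (1 / 2) ^ 4 = 1 / 4 := by
      rw [show (4 : ℕ) = 2 * 2 by norm_num, pow_mul, h2]; norm_num
    have e2 : (1 : ℕ) + 1 = 2 := rfl
    have e4 : (3 : ℕ) + 1 = 4 := rfl
    rw [e2, e4, h2, h4]
    norm_num
  rw [this]
  ring

/-- rotation invariance -/
theorem integral_ball_rotate {E : Type*} [NormedAddCommGroup E] [NormedSpace ℝ E] {lam : ℂ} (hl : ‖lam‖ = 1)
    (s : ℝ) (F : ℂ → E) : ∫ z in ball (0 : ℂ) s, F (lam * z) = ∫ z in ball (0 : ℂ) s, F z := by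
  have hmem : lam ∈ Submonoid.unitSphere ℂ := by
    simpa [Submonoid.unitSphere] using hl
  let c : Circle := ⟨lam, hmem⟩
  have h1 : MeasurePreserving (rotation c) (volume : Measure ℂ) volume := (rotation c).measurePreserving
  have h2 : MeasurableEmbedding (rotation c) := (rotation c).toHomeomorph.measurableEmbedding
  have h3 := h1.setIntegral_preimage_emb h2 F (ball 0 s)
  have h4 : (rotation c) ⁻¹' ball (0 : ℂ) s = ball 0 s := by
    ext z
    rw [Set.mem_preimage, mem_ball_zero_iff, mem_ball_zero_iff, LinearIsometryEquiv.norm_map]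
  rw [h4] at h3
  exact h3

/-- bathtub inequality: a set which is disjoint from its mirror image (up to a null set) -/
theorem bathtub {A : Set ℂ} (hA : MeasurableSet A) (hb : Bornology.IsBounded A)
    (hdis : ∀ z ∈ A, -z ∈ A → z = 0) :
    -(Real.pi / 4) ≤ ∫ z in A, (4 * ‖z‖ ^ 2 - 2) := by
  set m : ℂ → ℝ := (ball (0 : ℂ) (Real.sqrt (1 / 2))).indicator (fun z => 4 * ‖z‖ ^ 2 - 2) with hm
  have hcont : Continuous fun z : ℂ => 4 * ‖z‖ ^ 2 - 2 := by fun_prop
  have hint : Integrable m := by
    refine IntegrableOn.integrable_indicator ?_ measurableSet_ball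
    exact (hcont.continuousOn.integrableOn_compact (isCompact_closedBall (0 : ℂ) (Real.sqrt (1 / 2)))).mono_set
      ball_subset_closedBall
  have hnorm : ∀ z : ℂ, z ∈ ball (0 : ℂ) (Real.sqrt (1 / 2)) ↔ ‖z‖ ^ 2 < 1 / 2 := by
    intro z
    rw [mem_ball_zero_iff, Real.lt_sqrt (norm_nonneg z)]
  have hmle : ∀ z, m z ≤ 4 * ‖z‖ ^ 2 - 2 := by
    intro z
    by_cases h : z ∈ ball (0 : ℂ) (Real.sqrt (1 / 2))
    · rw [hm, Set.indicator_of_mem h]
    · rw [hm, Set.indicator_of_notMem h]
      rw [hnorm] at h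
      linarith
  have hmneg : ∀ z, m z ≤ 0 := by
    intro z
    by_cases h : z ∈ ball (0 : ℂ) (Real.sqrt (1 / 2))
    · rw [hm, Set.indicator_of_mem h]
      rw [hnorm] at h
      linarith
    · rw [hm, Set.indicator_of_notMem h]
  have hgA : IntegrableOn (fun z : ℂ => 4 * ‖z‖ ^ 2 - 2) A := by
    obtain ⟨R, hR⟩ := hb.subset_closedBall 0
    exact (hcont.continuousOn.integrableOn_compact (isCompact_closedBall (0 : ℂ) R)).mono_set hR
  have h1 : ∫ z in A, m z ≤ ∫ z in A, (4 * ‖z‖ ^ 2 - 2) :=
    setIntegral_mono hint.integrableOn hgA hmle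
  have hAneg : MeasurableSet (-A) := hA.neg
  have h2 : ∫ z in -A, m z = ∫ z in A, m z := by
    have h3 : MeasurePreserving (fun z : ℂ => -z) volume volume := Measure.measurePreserving_neg _
    have h4 : MeasurableEmbedding (fun z : ℂ => -z) := (Homeomorph.neg ℂ).measurableEmbedding
    have h5 := h3.setIntegral_preimage_emb h4 m A
    have h6 : (fun z : ℂ => -z) ⁻¹' A = -A := rfl
    rw [h6] at h5
    rw [← h5]
    congr 1
    ext z
    simp only [hm, Set.indicator, hnorm, norm_neg]
  have h3 : ∫ z in A ∪ -A, m z = (∫ z in A, m z) + ∫ z in -A, m z := by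
    refine setIntegral_union₀ ?_ hAneg.nullMeasurableSet hint.integrableOn hint.integrableOn
    have : A ∩ -A ⊆ {0} := by
      rintro z ⟨hz, hz'⟩
      exact hdis z hz hz'
    exact measure_mono_null this (by simp)
  have h4 : ∫ z, m z ≤ ∫ z in A ∪ -A, m z := by
    have := setIntegral_le_integral (s := A ∪ -A) hint.neg (Eventually.of_forall fun z => by
      simpa using hmneg z)
    simp only [Pi.neg_apply, integral_neg] at this
    linarith
  have h5 : ∫ z, m z = -(Real.pi / 2) := by
    rw [hm, integral_indicator measurableSet_ball, integral_min_part]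
  linarith

end H8.Siegel
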