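import Pool.Agent.H8.Siegel.Area2

set_option autoImplicit false

namespace H8.Siegel

open Complex Metric Filter MeasureTheory Topology ComplexConjugate

theorem int_ball {E : Type*} [NormedAddCommGroup E] {s : ℝ} {F : ℂ → E}
    (h : ContinuousOn F (closedBall 0 s)) : IntegrableOn F (ball 0 s) :=
  (h.integrableOn_compact (isCompact_closedBall (0 : ℂ) s)).mono_set ball_subset_closedBall

theorem orth {lam : ℂ} (hl : ‖lam‖ = 1) (hroot : ∀ n, 1 ≤ n → lam ^ n ≠ 1) (s : ℝ) {j k : ℕ} (h : j ≠ k) :
    ∫ z in ball (0 : ℂ) s, z ^ j * (conj z) ^ k = 0 := by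
  have h1 := integral_ball_rotate hl s (fun z => z ^ j * (conj z) ^ k)
  have h2 : ∀ z : ℂ, (lam * z) ^ j * (conj (lam * z)) ^ k = (lam ^ j * (conj lam) ^ k) * (z ^ j * (conj z) ^ k) := by
    intro z
    rw [map_mul, mul_pow, mul_pow]
    ring
  simp only [h2] at h1
  rw [integral_const_mul] at h1
  have hlc : lam * conj lam = 1 := by
    rw [Complex.mul_conj, Complex.normSq_eq_norm_sq, hl]; simp
  have h3 : lam ^ j * (conj lam) ^ k ≠ 1 := by
    intro hc
    have hlc' : ∀ m : ℕ, lam ^ m * (conj lam) ^ m = 1 := fun m => by rw [← mul_pow, hlc, one_pow]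
    rcases Nat.lt_or_gt_of_ne h with h4 | h4
    · obtain ⟨d, rfl⟩ : ∃ d, k = j + d := ⟨k - j, by omega⟩
      rw [pow_add, ← mul_assoc, hlc', one_mul] at hc
      refine hroot d (by omega) ?_
      have := hlc' d
      rw [hc, mul_one] at this
      exact this
    · obtain ⟨d, rfl⟩ : ∃ d, j = k + d := ⟨j - k, by omega⟩
      refine hroot d (by omega) ?_
      have : lam ^ (k + d) * (conj lam) ^ k = lam ^ d := by
        rw [pow_add]
        linear_combination lam ^ d * hlc' k
      rw [← this, hc]
  have h4 : (lam ^ j * (conj lam) ^ k - 1) * ∫ z in ball (0 : ℂ) s, z ^ j * (conj z) ^ k = 0 := by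
    rw [sub_mul, h1, one_mul, sub_self]
  exact (mul_eq_zero.1 h4).resolve_left (sub_ne_zero.2 h3)

theorem orth_same {s : ℝ} (hs : 0 ≤ s) (k : ℕ) :
    ∫ z in ball (0 : ℂ) s, z ^ k * (conj z) ^ k = ((Real.pi * s ^ (2 * k + 2) / (k + 1) : ℝ) : ℂ) := by
  rw [← integral_ball_norm_pow hs k, ← integral_complex_ofReal]
  congr 1
  ext z
  rw [← mul_pow, Complex.mul_conj, Complex.normSq_eq_norm_sq]
  push_cast
  rw [pow_mul]

theorem bessel {lam : ℂ} (hl : ‖lam‖ = 1) (hroot : ∀ n, 1 ≤ n → lam ^ n ≠ 1) {s : ℝ} (hs : 0 ≤ s)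
    {c : ℕ → ℂ} (hc : Summable fun n => ‖c n‖ * s ^ n) (N : ℕ) :
    Real.pi * ∑ n ∈ Finset.range N, ‖c n‖ ^ 2 * s ^ (2 * n + 2) / (n + 1)
      ≤ ∫ z in ball (0 : ℂ) s, ‖∑' n, c n * z ^ n‖ ^ 2 := by
  set p : ℂ → ℂ := fun z => ∑ n ∈ Finset.range N, c n * z ^ n with hp
  set T : ℂ → ℂ := fun z => ∑' n, c (n + N) * z ^ (n + N) with hT
  have hsm : ∀ z ∈ closedBall (0 : ℂ) s, Summable fun n => ‖c n * z ^ n‖ := fun z hz =>
    summable_at hc (by simpa using hz)
  have hF : ∀ z ∈ closedBall (0 : ℂ) s, ∑' n, c n * z ^ n = p z + T z := by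
    intro z hz
    exact ((hsm z hz).of_norm.sum_add_tsum_nat_add N).symm
  have hpc : Continuous p := by
    simp only [hp]; fun_prop
  have hcN : Summable fun n => ‖c (n + N)‖ * s ^ (n + N) := (summable_nat_add_iff N).2 hc
  have hTc : ContinuousOn T (closedBall 0 s) := by
    refine continuousOn_tsum (u := fun n => ‖c (n + N)‖ * s ^ (n + N)) (fun n => ?_) hcN (fun n z hz => ?_)
    · fun_prop
    · rw [norm_mul, norm_pow]
      have : ‖z‖ ≤ s := by simpa using hz
      gcongr
  -- cross term
  obtain ⟨C, hC⟩ : ∃ C : ℝ, ∀ z ∈ closedBall (0 : ℂ) s, ‖conj (p z)‖ ≤ C := by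
    have hc2 : ContinuousOn (fun z => ‖conj (p z)‖) (closedBall (0 : ℂ) s) := by
      refine Continuous.continuousOn ?_
      exact (Complex.continuous_conj.comp hpc).norm
    obtain ⟨C, hC⟩ := (isCompact_closedBall (0 : ℂ) s).bddAbove_image hc2
    exact ⟨C, fun z hz => hC ⟨z, hz, rfl⟩⟩
  have hcross : ∫ z in ball (0 : ℂ) s, T z * conj (p z) = 0 := by
    have e1 : ∀ n, IntegrableOn (fun z : ℂ => c (n + N) * z ^ (n + N) * conj (p z)) (ball 0 s) := by
      intro n
      refine int_ball (Continuous.continuousOn ?_)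
      have := Complex.continuous_conj.comp hpc
      exact (by fun_prop : Continuous fun z : ℂ => c (n + N) * z ^ (n + N)).mul this
    have e2 : Summable fun n => ∫ z in ball (0 : ℂ) s, ‖c (n + N) * z ^ (n + N) * conj (p z)‖ := by
      refine Summable.of_nonneg_of_le (fun n => integral_nonneg fun z => norm_nonneg _) (fun n => ?_)
        (hcN.mul_right (C * (volume : Measure ℂ).real (ball 0 s)))
      have : ∫ z in ball (0 : ℂ) s, ‖c (n + N) * z ^ (n + N) * conj (p z)‖
          ≤ ∫ z in ball (0 : ℂ) s, (‖c (n + N)‖ * s ^ (n + N)) * C := by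
        refine setIntegral_mono_on (e1 n).norm ?_ measurableSet_ball fun z hz => ?_
        · exact integrableOn_const (measure_ball_lt_top.ne) (by finiteness)
        · have hz' := ball_subset_closedBall hz
          have : ‖z‖ ≤ s := by simpa using hz'
          rw [norm_mul, norm_mul, norm_pow]
          gcongr
          exact hC z hz'
      refine this.trans (le_of_eq ?_)
      rw [setIntegral_const, smul_eq_mul]
      ring
    have e3 := hasSum_integral_of_summable_integral_norm (μ := volume.restrict (ball (0 : ℂ) s)) e1 e2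
    have e4 : ∀ n, ∫ z in ball (0 : ℂ) s, c (n + N) * z ^ (n + N) * conj (p z) = 0 := by
      intro n
      have : ∀ z : ℂ, c (n + N) * z ^ (n + N) * conj (p z)
          = ∑ k ∈ Finset.range N, (c (n + N) * conj (c k)) * (z ^ (n + N) * (conj z) ^ k) := by
        intro z
        simp only [hp, map_sum, map_mul, map_pow]
        rw [Finset.mul_sum]
        exact Finset.sum_congr rfl fun k _ => by ring
      simp_rw [this]
      rw [integral_finsetSum]
      · refine Finset.sum_eq_zero fun k hk => ?_
        rw [integral_const_mul, orth hl hroot s (by have := Finset.mem_range.1 hk; omega), mul_zero]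
      · intro k _
        refine int_ball (Continuous.continuousOn ?_)
        have := Complex.continuous_conj
        fun_prop
    simp_rw [e4] at e3
    have e5 := e3.unique hasSum_zero
    refine Eq.trans ?_ e5
    refine setIntegral_congr_fun measurableSet_ball fun z hz => ?_
    simp only [hT]
    rw [← tsum_mul_right]
  have hpp : ∫ z in ball (0 : ℂ) s, ‖p z‖ ^ 2
      = Real.pi * ∑ n ∈ Finset.range N, ‖c n‖ ^ 2 * s ^ (2 * n + 2) / (n + 1) := by
    have e1 : ((∫ z in ball (0 : ℂ) s, ‖p z‖ ^ 2 : ℝ) : ℂ)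
        = ((Real.pi * ∑ n ∈ Finset.range N, ‖c n‖ ^ 2 * s ^ (2 * n + 2) / (n + 1) : ℝ) : ℂ) := by
      rw [← integral_complex_ofReal]
      have : ∀ z : ℂ, ((‖p z‖ ^ 2 : ℝ) : ℂ)
          = ∑ n ∈ Finset.range N, ∑ k ∈ Finset.range N, (c n * conj (c k)) * (z ^ n * (conj z) ^ k) := by
        intro z
        have : ((‖p z‖ ^ 2 : ℝ) : ℂ) = p z * conj (p z) := by
          rw [Complex.mul_conj, Complex.normSq_eq_norm_sq]
        rw [this]
        simp only [hp, map_sum, map_mul, map_pow]
        rw [Finset.sum_mul_sum]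
        exact Finset.sum_congr rfl fun n _ => Finset.sum_congr rfl fun k _ => by ring
      simp_rw [this]
      rw [integral_finsetSum]
      · push_cast
        rw [Finset.mul_sum]
        refine Finset.sum_congr rfl fun n hn => ?_
        rw [integral_finsetSum]
        · rw [Finset.sum_eq_single n]
          · rw [integral_const_mul, orth_same hs, Complex.mul_conj, Complex.normSq_eq_norm_sq]
            push_cast
            ring
          · intro k _ hk
            rw [integral_const_mul, orth hl hroot s (Ne.symm hk), mul_zero]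
          · intro h; exact absurd hn h
        · intro k _
          refine int_ball (Continuous.continuousOn ?_)
          have := Complex.continuous_conj
          fun_prop
      · intro n _
        refine int_ball (Continuous.continuousOn ?_)
        have := Complex.continuous_conj
        fun_prop
    exact_mod_cast e1
  rw [← hpp]
  have hcI : IntegrableOn (fun z => T z * conj (p z)) (ball 0 s) :=
    int_ball (hTc.mul (Complex.continuous_conj.comp hpc).continuousOn)
  have hre : ∫ z in ball (0 : ℂ) s, (T z * conj (p z)).re = 0 := by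
    have := integral_re (𝕜 := ℂ) hcI
    simp only [RCLike.re_to_complex] at this
    rw [this, hcross]
    simp
  have hpI : IntegrableOn (fun z => ‖p z‖ ^ 2) (ball 0 s) := int_ball (by fun_prop)
  have hreI : IntegrableOn (fun z => (T z * conj (p z)).re) (ball 0 s) := hcI.re
  have hFI : IntegrableOn (fun z => ‖p z + T z‖ ^ 2) (ball 0 s) :=
    int_ball ((hpc.continuousOn.add hTc).norm.pow 2)
  have hle : ∫ z in ball (0 : ℂ) s, (‖p z‖ ^ 2 + 2 * (T z * conj (p z)).re) ≤ ∫ z in ball (0 : ℂ) s, ‖p z + T z‖ ^ 2 := by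
    refine setIntegral_mono (hpI.add (hreI.const_mul 2)) hFI fun z => ?_
    have : ‖p z + T z‖ ^ 2 = ‖p z‖ ^ 2 + ‖T z‖ ^ 2 + 2 * (T z * conj (p z)).re := by
      rw [← Complex.normSq_eq_norm_sq, ← Complex.normSq_eq_norm_sq, ← Complex.normSq_eq_norm_sq, Complex.normSq_add]
      have : (p z * conj (T z)).re = (T z * conj (p z)).re := by
        simp only [Complex.mul_re, Complex.conj_re, Complex.conj_im]
        ring
      rw [this]
    simp only [this]
    nlinarith [sq_nonneg ‖T z‖]
  rw [integral_add hpI (hreI.const_mul 2), integral_const_mul, hre, mul_zero, add_zero] at hle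
  refine hle.trans (le_of_eq ?_)
  refine setIntegral_congr_fun measurableSet_ball fun z hz => ?_
  rw [hF z (ball_subset_closedBall hz)]

end H8.Siegel
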