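import Pool.Agent.H8.Siegel.Area3

set_option autoImplicit false

namespace H8.Siegel

open Complex Metric Filter MeasureTheory Topology ComplexConjugate

theorem det_smul_one (w : ℂ) : (w • (1 : ℂ →L[ℝ] ℂ)).det = ‖w‖ ^ 2 := by
  have h : ((w • (1 : ℂ →L[ℝ] ℂ) : ℂ →L[ℝ] ℂ) : ℂ →ₗ[ℝ] ℂ) = Algebra.lmul ℝ ℂ w := by
    ext <;> simp
  rw [ContinuousLinearMap.det, h, ← Algebra.norm_apply, Algebra.norm_complex_apply, Complex.normSq_eq_norm_sq]

/-- The area inequality: the image of a disc inside the domain of convergence has area at most `π / 4`. -/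
theorem area_le {lam : ℂ} (hl : ‖lam‖ = 1) (hroot : ∀ n, 1 ≤ n → lam ^ n ≠ 1) {a : ℕ → ℂ} (h1 : a 1 = 1)
    (hrec : ∀ n, lam ^ n * a n = lam * (a n + ∑ p ∈ Finset.HasAntidiagonal.antidiagonal n, a p.1 * a p.2))
    {r s : ℝ} (hs : Summable fun n => ‖a n‖ * r ^ n) (hs0 : 0 ≤ s) (hsr : s < r) :
    ∫ z in ball (0 : ℂ) s, ‖deriv (pser a) z‖ ^ 2 ≤ Real.pi / 4 := by
  have hlam : lam ≠ 0 := by
    intro h0
    rw [h0] at hl
    simp at hl
  have hsub : closedBall (0 : ℂ) s ⊆ ball 0 r := closedBall_subset_ball hsr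
  have hsub' : ball (0 : ℂ) s ⊆ ball 0 r := ball_subset_closedBall.trans hsub
  have hle : ∀ z ∈ ball (0 : ℂ) s, ‖z‖ ≤ r := fun z hz => (mem_ball_zero_iff.1 (hsub' hz)).le
  set f : ℂ → ℂ := fun z => pser a z + 1 / 2 with hf
  -- derivative relation
  have hder : ∀ z ∈ ball (0 : ℂ) s, deriv (pser a) (lam * z) = 2 * f z * deriv (pser a) z := by
    intro z hz
    have hz' := hsub' hz
    have hlz : lam * z ∈ ball (0 : ℂ) r := by
      rw [mem_ball_zero_iff, norm_lam_mul hl]; exact mem_ball_zero_iff.1 hz'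
    have e1 : HasDerivAt (fun w => pser a (lam * w)) (deriv (pser a) (lam * z) * lam) z := by
      have e2 : HasDerivAt (fun w : ℂ => lam * w) lam z := by
        simpa using (hasDerivAt_id z).const_mul lam
      exact (pser_hasDerivAt hs hlz).comp z e2
    have e3 : HasDerivAt (fun w => lam * (pser a w + pser a w ^ 2))
        (lam * (deriv (pser a) z + 2 * pser a z * deriv (pser a) z)) z := by
      have e4 := pser_hasDerivAt hs hz'
      have e5 := (e4.add (e4.pow 2)).const_mul lam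
      refine e5.congr_deriv ?_
      push_cast
      ring
    have e6 : (fun w => pser a (lam * w)) =ᶠ[𝓝 z] fun w => lam * (pser a w + pser a w ^ 2) := by
      filter_upwards [isOpen_ball.mem_nhds hz] with w hw
      exact pser_eq hl hrec hs (hle w hw)
    have e7 := e1.unique (e3.congr_of_eventuallyEq e6)
    have e8 : lam * deriv (pser a) (lam * z) = lam * (2 * f z * deriv (pser a) z) := by
      rw [hf]
      linear_combination e7
    exact mul_left_cancel₀ hlam e8
  have hinj : Set.InjOn f (ball 0 s) := by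
    intro z hz w hw h
    refine pser_inj hl hroot h1 hrec hs (hle z hz) (hle w hw) ?_
    simpa [hf] using h
  have hfd : ∀ z ∈ ball (0 : ℂ) s, HasFDerivWithinAt f ((deriv (pser a) z) • (1 : ℂ →L[ℝ] ℂ)) (ball 0 s) z := by
    intro z hz
    have e1 : HasDerivAt f (deriv (pser a) z) z := (pser_hasDerivAt hs (hsub' hz)).add_const _
    exact e1.complexToReal_fderiv.hasFDerivWithinAt
  have hcd : ContinuousOn (deriv (pser a)) (closedBall 0 s) :=
    (((pser_diff hs).deriv isOpen_ball).continuousOn).mono hsub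
  have hcf : ContinuousOn f (closedBall 0 s) :=
    ((pser_diff hs).continuousOn.add continuousOn_const).mono hsub
  set A : Set ℂ := f '' ball 0 s with hA
  have hAm : MeasurableSet A := measurable_image_of_fderivWithin measurableSet_ball hfd hinj
  have hAb : Bornology.IsBounded A :=
    (((isCompact_closedBall (0 : ℂ) s).image_of_continuousOn hcf).isBounded).subset
      (Set.image_mono ball_subset_closedBall)
  have hAd : ∀ z ∈ A, -z ∈ A → z = 0 := by
    rintro z ⟨u, hu, rfl⟩ ⟨v, hv, hv2⟩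
    have e1 : pser a v = -1 - pser a u := by
      simp only [hf] at hv2
      linear_combination hv2
    have hlu : ‖lam * u‖ ≤ r := by rw [norm_lam_mul hl]; exact hle u hu
    have hlv : ‖lam * v‖ ≤ r := by rw [norm_lam_mul hl]; exact hle v hv
    have e2 : pser a (lam * v) = pser a (lam * u) := by
      rw [pser_eq hl hrec hs (hle u hu), pser_eq hl hrec hs (hle v hv), e1]
      ring
    have e3 := pser_inj hl hroot h1 hrec hs hlv hlu e2
    have e4 : v = u := mul_left_cancel₀ hlam e3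
    rw [e4] at e1
    simp only [hf]
    linear_combination e1 / 2
  have hbt := bathtub hAm hAb hAd
  rw [hA, integral_image_eq_integral_abs_det_fderiv_smul volume measurableSet_ball hfd hinj] at hbt
  have hint : ∫ z in ball (0 : ℂ) s, |(deriv (pser a) z • (1 : ℂ →L[ℝ] ℂ)).det| • (4 * ‖f z‖ ^ 2 - 2)
      = - ∫ z in ball (0 : ℂ) s, ‖deriv (pser a) z‖ ^ 2 := by
    have e1 : ∫ z in ball (0 : ℂ) s, |(deriv (pser a) z • (1 : ℂ →L[ℝ] ℂ)).det| • (4 * ‖f z‖ ^ 2 - 2)
        = ∫ z in ball (0 : ℂ) s, (‖deriv (pser a) (lam * z)‖ ^ 2 - 2 * ‖deriv (pser a) z‖ ^ 2) := by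
      refine setIntegral_congr_fun measurableSet_ball fun z hz => ?_
      rw [det_smul_one, abs_of_nonneg (by positivity), hder z hz, smul_eq_mul, norm_mul, norm_mul]
      simp only [Complex.norm_ofNat]
      ring
    have i1 : IntegrableOn (fun z => ‖deriv (pser a) z‖ ^ 2) (ball 0 s) := int_ball (hcd.norm.pow 2)
    have i2 : IntegrableOn (fun z => ‖deriv (pser a) (lam * z)‖ ^ 2) (ball 0 s) := by
      refine int_ball ((ContinuousOn.comp hcd (by fun_prop) ?_).norm.pow 2)
      intro z hz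
      simpa [hl] using hz
    rw [e1, integral_sub i2 (i1.const_mul 2), integral_const_mul,
      integral_ball_rotate hl s (fun z => ‖deriv (pser a) z‖ ^ 2)]
    ring
  rw [hint] at hbt
  linarith

/-- The coefficient form of the area inequality. -/
theorem coeff_le {lam : ℂ} (hl : ‖lam‖ = 1) (hroot : ∀ n, 1 ≤ n → lam ^ n ≠ 1) {a : ℕ → ℂ} (h1 : a 1 = 1)
    (hrec : ∀ n, lam ^ n * a n = lam * (a n + ∑ p ∈ Finset.HasAntidiagonal.antidiagonal n, a p.1 * a p.2))
    {r s : ℝ} (hs : Summable fun n => ‖a n‖ * r ^ n) (hs0 : 0 ≤ s) (hsr : s < r) (N : ℕ) :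
    ∑ n ∈ Finset.range N, (n : ℝ) * ‖a n * s ^ n‖ ^ 2 ≤ 1 / 4 := by
  rcases Nat.eq_zero_or_pos N with hN | hN
  · subst hN
    norm_num
  have hsb : ∀ z ∈ closedBall (0 : ℂ) s, z ∈ ball (0 : ℂ) r := fun z hz => closedBall_subset_ball hsr hz
  have hd : ∀ z ∈ closedBall (0 : ℂ) s, HasSum (fun n : ℕ => ((n : ℂ) + 1) * a (n + 1) * z ^ n) (deriv (pser a) z) := by
    intro z hz
    have e1 := pser_deriv hs (hsb z hz)
    have e2 := (hasSum_nat_add_iff' 1).2 e1
    simp only [Finset.range_one, Finset.sum_singleton, Nat.cast_zero, zero_mul, mul_zero, sub_zero] at e2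
    convert! e2 using 2
    rename_i n
    push_cast
    ring_nf
  have hcs : Summable fun n : ℕ => ‖((n : ℂ) + 1) * a (n + 1)‖ * s ^ n := by
    have e1 := (hd s (by simp [abs_of_nonneg hs0])).summable.norm
    refine e1.congr fun n => ?_
    rw [norm_mul, norm_pow, Complex.norm_real, Real.norm_of_nonneg hs0]
  have e1 := bessel hl hroot hs0 hcs (N - 1)
  have e2 := area_le hl hroot h1 hrec hs hs0 hsr
  have e3 : ∫ z in ball (0 : ℂ) s, ‖∑' n : ℕ, ((n : ℂ) + 1) * a (n + 1) * z ^ n‖ ^ 2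
      = ∫ z in ball (0 : ℂ) s, ‖deriv (pser a) z‖ ^ 2 := by
    refine setIntegral_congr_fun measurableSet_ball fun z hz => ?_
    rw [(hd z (ball_subset_closedBall hz)).tsum_eq]
  rw [e3] at e1
  have e4 := e1.trans e2
  have e5 : ∑ n ∈ Finset.range N, (n : ℝ) * ‖a n * s ^ n‖ ^ 2
      = ∑ n ∈ Finset.range (N - 1), ‖((n : ℂ) + 1) * a (n + 1)‖ ^ 2 * s ^ (2 * n + 2) / (n + 1) := by
    obtain ⟨M, rfl⟩ : ∃ M, N = M + 1 := ⟨N - 1, by omega⟩
    rw [Finset.sum_range_succ', Nat.add_sub_cancel]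
    simp only [Nat.cast_zero, zero_mul, add_zero]
    refine Finset.sum_congr rfl fun n _ => ?_
    have : ‖((n : ℂ) + 1)‖ = (n : ℝ) + 1 := by
      have : ((n : ℂ) + 1) = ((n + 1 : ℕ) : ℂ) := by push_cast; ring
      rw [this, Complex.norm_natCast]; push_cast; ring
    rw [norm_mul, norm_mul, norm_pow, Complex.norm_real, Real.norm_of_nonneg hs0, this]
    have h2 : ((n : ℝ) + 1) ≠ 0 := by positivity
    push_cast
    field_simp
    ring
  rw [e5]
  have hpi := Real.pi_pos
  have : Real.pi * (∑ n ∈ Finset.range (N - 1), ‖((n : ℂ) + 1) * a (n + 1)‖ ^ 2 * s ^ (2 * n + 2) / (n + 1)) ≤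
      Real.pi * (1 / 4) := by linarith
  exact le_of_mul_le_mul_left this hpi

end H8.Siegel
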