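import Pool.Agent.H8.Siegel.Algo

set_option autoImplicit false
set_option maxRecDepth 100000

namespace H8.Siegel

def l0 : List Nat := [520093698, 585105411, 274268166, 81423369, 36894474, 31129098, 36965386, 31189258, 21442317, 18761485, 16415759, 14363663, 13914384, 13914384, 14784015, 16631822, 18710796, 29235465, 32889865, 18500365, 13296656, 9141264, 7998483, 7248404, 6568467, 6362643, 6362643, 6362642, 6760209, 8450064, 12146960, 8350736, 6523922, 5912084, 5172756, 4525844, 4242198, 4108823, 4108823, 4108823, 4108823, 4108822, 4365590, 4911126, 5525012, 6560532, 7790355, 9737747, 12780559, 17573131, 52719368, 17297931, 11892242, 8919058, 6689300, 5434903, 4585240, 4011544, 3634968, 3407128, 3299864, 3299865, 3299864, 3299863, 3505942, 3943957, 4929813, 5853973, 4390165, 3429398, 3214873, 2812696, 2636314, 2471194, 2393371, 2393371, 2393371, 2393370, 2542873, 2860570, 3217944, 3821080]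

theorem c0 : arcs 370440929 true 8722036 l0 0 = true := by decide +kernel

def l1 : List Nat := [4776214, 6268688, 12537358, 9402894, 5582608, 4360983, 3542810, 2877977, 2518043, 2281756, 2138909, 2004765, 1941277, 1879581, 1879583, 1879582, 1879581, 1996830, 1996827, 2246428, 2527006, 2842648, 3375640, 4008468, 6263060, 5088532, 3498005, 2951446, 2489882, 2255900, 2114588, 2048285, 2048287, 2048284, 2048283, 2176282, 2448154, 2754074, 3098138, 2710554, 2540826, 2302234, 2302236, 2230043, 2230043, 2230042, 2369306, 2517274, 2831898, 3362586, 4203033, 5253654, 6895126, 9480466, 13035535, 17923853, 62733319, 18623501, 13385230, 9619987, 7214871, 5185048, 4212506]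

theorem c1 : arcs 370440929 true 10032463 l1 8722036 = true := by decide +kernel

def l2 : List Nat := [3553821, 2887195, 2525980, 2367518, 2293534, 2220830, 2150942, 1948958, 1826590, 1768478, 1712670, 1712670, 1712667, 1926685, 2047002, 2302746, 2590489, 3399704, 4462104, 3346456, 2509850, 2117403, 1852190, 1678111, 1520159, 1424928, 1379618, 1335843, 1293858, 1293859, 1293859, 1293857, 1374499, 1374495, 1546275, 1642783, 1848094, 2079003, 2598683, 3248149, 5278226, 7917330, 3710484, 2782748, 2086941, 1760542, 1540127, 1395745, 1264673, 1185314, 1147684, 1111332]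

theorem c2 : arcs 370440929 true 10480284 l2 10032463 = true := by decide +kernel

def l3 : List Nat := [1076003, 1076003, 1076003, 1076001, 1143073, 1214496, 1290271, 1451553, 1542174, 1734941, 2168605, 2574877, 2011421, 1634077, 1480223, 1340961, 1214754, 1100578, 1031202, 998437, 935715, 935718, 905764, 905765, 905765, 905764, 905763, 962340, 962339, 1022243, 1085987, 1153826, 1225762, 1378850, 1551138, 1744929, 1963038, 2330909, 2913562, 3641881, 4552215, 6258959, 19559180, 6417425, 4411671, 3584281, 2799898, 2361885, 1992478]

theorem c3 : arcs 370440929 true 10904148 l3 10480284 = true := by decide +kernel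

def l4 : List Nat := [1742881, 1525026, 1334050, 1208355, 1132837, 1026340, 961830, 931111, 901415, 901415, 901415, 901415, 901415, 901415, 872999, 845351, 818471, 792103, 792103, 792103, 792100, 841507, 946470, 1005602, 1131298, 1272609, 1431582, 1699870, 2124828, 2921500, 2373660, 1705756, 1491998, 1305379, 1141794, 1034531, 937251, 878116, 850215, 796710, 771622, 771624, 747047]

theorem c4 : arcs 370440929 true 11096162 l4 10904148 = true := by decide +kernel

end H8.Siegel
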