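import Pool.Agent.H8.Siegel.Algo

set_option autoImplicit false
set_option maxRecDepth 100000

namespace H8.Siegel

def l5 : List Nat := [747047, 747047, 747046, 747046, 793639, 793637, 843046, 895526, 951333, 1010724, 1073699, 1207845, 1283106, 1443362, 1623585, 2029342, 2663193, 3661588, 8695825, 4891409, 3209751, 2407195, 1880093, 1586209, 1387810, 1257251, 1099554, 995875, 933414, 903464, 846630, 846632, 819494, 819495, 819494, 819494, 819494, 870694, 870694, 924966, 982566, 982566, 951078, 920870]

theorem c5 : arcs 370440929 true 11349296 l5 11096162 = true := by decide +kernel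

def l6 : List Nat := [891430, 863014, 835366, 835366, 835366, 835366, 887334, 887333, 998181, 1122851, 1263137, 1499680, 1780765, 2225949, 2782233, 4694806, 4400918, 2612759, 2122523, 1856798, 1624351, 1522466, 1426722, 1337121, 1337124, 1294626, 1294626, 1294625, 1375522, 1375520, 1461280, 1643808, 1746460, 1964571, 2578203, 3222555, 2718747, 2208795, 2001436, 1813532, 1699870, 1593632, 1493790, 1493792, 1493792, 1493792, 1586976, 1686048]

theorem c6 : arcs 370440929 true 11669661 l6 11349296 = true := by decide +kernel

def l7 : List Nat := [1686048, 1791264, 1903136, 2021916, 2400797, 2700828, 3375901, 4219675, 5801754, 7976982, 11965460, 17200143, 25800203, 90300678, 25397003, 17459983, 12548885, 8626968, 5930777, 4632859, 3619102, 3053086, 2766366, 2506526, 2427166, 2427166, 2427166, 2578718, 2739742, 2482462, 2094366, 1832223, 1659935, 1607714, 1507104, 1507107, 1507108, 1507106, 1507103, 1601055, 1800991, 2026012, 2532378, 3640089, 4322329, 2566169, 2084894, 1759007, 1538594, 1393957, 1219364, 1104423, 1035047, 969768]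

theorem c7 : arcs 370440929 true 12939548 l7 11669661 = true := by decide +kernel

def l8 : List Nat := [908840, 851496, 824104, 797736, 797737, 772392, 772392, 772392, 772392, 772392, 820520, 820519, 871720, 925992, 983848, 1045287, 1110567, 1249319, 1405476, 1581089, 1976352, 2470429, 3242261, 7700244, 3127573, 2345499, 1759008, 1428771, 1205030, 1053991, 954664, 894760, 838185, 785449, 760363, 736044, 712236, 689196, 689198, 667435]

theorem c8 : arcs 370440929 true 13146155 l8 12939548 = true := by decide +kernel

def l9 : List Nat := [667435, 667435, 667434, 708909, 708905, 753193, 800040, 849959, 902948, 1015587, 1142307, 1356066, 1779746, 1779746, 1390370, 1172515, 1025831, 897063, 812840, 736041, 666409, 624171, 584747, 566061, 530220, 512812, 496173, 496176, 496176, 496176, 496176, 496176, 496176, 496176, 496176, 496176]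

theorem c9 : arcs 370440929 true 13256620 l9 13146155 = true := by decide +kernel

end H8.Siegel
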