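import Pool.Agent.H8.Siegel.Algo

set_option autoImplicit false
set_option maxRecDepth 100000

namespace H8.Siegel

def l10 : List Nat := [496173, 527152, 527148, 559917, 559915, 594731, 631851, 671275, 713003, 802093, 852011, 905255, 1018407, 1145638, 1288740, 1530148, 1816866, 2157342, 2561565, 3521816, 6603023, 9491727, 3707413, 2664477, 2247967, 1896228, 1540131, 1299494, 1136935, 1029929, 932653, 844588, 764971, 716844, 672044, 650799, 609581, 589871, 571439, 553263]

theorem c10 : arcs 370440929 true 13496475 l10 13256620 = true := by decide +kernel

def l11 : List Nat := [535599, 518447, 518447, 518448, 518449, 518447, 518447, 518444, 518443, 550700, 585005, 621357, 660012, 701226, 744999, 837928, 890150, 1056806, 1254950, 1333286, 1124646, 913446, 827688, 749866, 679211, 614955, 576300, 539692, 522287, 505647, 489007, 473135, 473136, 473136, 473136]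

theorem c11 : arcs 370440929 true 13587699 l11 13496475 = true := by decide +kernel

def l12 : List Nat := [473136, 473135, 473135, 502577, 502575, 533808, 533807, 567087, 602412, 640043, 719915, 809769, 910886, 1138470, 1493793, 2053659, 4107288, 3208728, 1804828, 1353505, 1099301, 927271, 811050, 735020, 665390, 602413, 564527, 546096, 511535, 494896, 478768, 463152, 448304, 448305, 433456, 433456]

theorem c12 : arcs 370440929 true 13714902 l12 13587699 = true := by decide +kernel

def l13 : List Nat := [433457, 433457, 433457, 433456, 433456, 433455, 460336, 460335, 489007, 519472, 519467, 584238, 620587, 659242, 741418, 834088, 938276, 1114146, 1392673, 2001953, 1876513, 1407265, 1143076, 964135, 813095, 711466, 666410, 644910, 603947, 603949, 584235, 584235, 584235, 584235, 620588, 620586]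

theorem c13 : arcs 370440929 true 13820165 l13 13714902 = true := by decide +kernel

def l14 : List Nat := [659243, 700202, 743722, 790058, 888618, 943914, 884266, 828458, 802346, 776490, 751658, 751659, 751660, 751660, 751659, 751658, 798508, 798506, 848170, 901162, 957482, 1077034, 1211431, 1438248, 1617957, 1921314, 2401570, 3001886, 3939615, 5170457, 6786067, 8906511, 26719498, 7931923, 6196756, 4647448, 3630621, 2836256, 2304033, 1943845, 1639718, 1383208]

theorem c14 : arcs 370440929 true 14263661 l14 13820165 = true := by decide +kernel

end H8.Siegel
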