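import Pool.Agent.H8.Siegel.Algo

set_option autoImplicit false
set_option maxRecDepth 100000

namespace H8.Siegel

def l15 : List Nat := [1209897, 1133867, 1027114, 962603, 902442, 845610, 818474, 792106, 792107, 792108, 766762, 766762, 766761, 814634, 814633, 865321, 919337, 976681, 1098537, 995113, 901161, 788521, 739113, 692266, 649002, 628011, 607789, 588333, 588334, 588337, 588335, 588333, 588332, 624941, 624938, 703021]

theorem c15 : arcs 370440929 true 14375177 l15 14263661 = true := by decide +kernel

def l16 : List Nat := [746793, 839974, 1049894, 1246497, 1713696, 2463008, 1769760, 1271841, 1033252, 871719, 762410, 666922, 603949, 565553, 512303, 480049, 449585, 421169, 407347, 381234, 368946, 357171, 357174, 345398, 345398, 345398, 345398, 345398, 345398, 345398, 345398, 345398, 345398]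

theorem c16 : arcs 370440929 true 14464211 l16 14375177 = true := by decide +kernel

def l17 : List Nat := [345398, 345398, 345398, 345396, 345394, 366900, 366897, 389682, 389680, 414001, 439857, 467249, 496433, 527409, 560176, 594990, 632110, 671533, 755245, 849450, 1008423, 1260325, 1653793, 2376985, 5645079, 2381082, 1636640, 1227301, 996904, 840747, 735533, 666157, 624174, 584752, 547889]

theorem c17 : arcs 370440929 true 14588558 l17 14464211 = true := by decide +kernel

def l18 : List Nat := [513329, 480817, 465201, 450099, 435253, 407858, 394546, 394549, 381748, 369203, 369205, 357427, 357427, 357428, 357428, 357428, 357427, 357426, 357426, 379701, 379698, 379697, 403249, 428338, 428336, 454958, 483373, 543790, 577579, 649769, 771371]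

theorem c18 : arcs 370440929 true 14640900 l18 14588558 = true := by decide +kernel

def l19 : List Nat := [867623, 1029925, 1287204, 1769764, 1437732, 1123109, 912165, 797736, 697897, 610346, 553005, 501037, 469297, 439601, 439602, 425265, 425266, 425266, 425266, 425265, 425265, 425265, 451633, 451633, 479793, 509745, 509745, 541489, 541489, 524081, 506673, 506673, 490033]

theorem c19 : arcs 370440929 true 14724589 l19 14640900 = true := by decide +kernel

end H8.Siegel
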