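import Pool.Agent.H8.Siegel.D00

set_option autoImplicit false
set_option maxRecDepth 100000

namespace H8.Siegel

def l20 : List Nat := [490033, 490033, 490033, 490033, 490033, 490033, 520497, 520497, 553009, 587569, 624174, 663084, 745773, 838957, 891177, 1002537, 1127720, 1338923, 1506084, 1882403, 2352927, 2793756, 3492123, 5238035, 13749518, 4511251, 3242011, 2735135, 2222114, 1805347, 1522981, 1284392, 1123624, 982825, 889900, 806188, 755246, 707630]

theorem c20 : arcs 370440929 true 14982230 l20 14724589 = true := by decide +kernel

def l21 : List Nat := [663085, 641583, 621104, 601136, 581936, 563503, 563506, 545327, 545327, 545327, 545326, 545325, 545325, 579373, 579372, 615469, 615468, 653868, 694572, 737836, 829996, 829996, 751916, 704556, 638508, 617774, 578605, 560173, 542254, 524846, 508205, 508206, 508208]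

theorem c21 : arcs 370440929 true 15060689 l21 14982230 = true := by decide +kernel

def l22 : List Nat := [508207, 508206, 508205, 539950, 539948, 573484, 645165, 685353, 813608, 1016872, 1207331, 1509152, 2263583, 2546463, 1591327, 1292835, 1090343, 919592, 775721, 678443, 614444, 556845, 521264, 488496, 488499, 472880, 472881, 472882, 472881, 472880, 472880, 472880, 502320, 502320, 533552]

theorem c22 : arcs 370440929 true 15169010 l22 15060689 = true := by decide +kernel

def l23 : List Nat := [533552, 566832, 602160, 583216, 564528, 546096, 528432, 528432, 528432, 528433, 528433, 528432, 528432, 528432, 528432, 561456, 596528, 633648, 673069, 715051, 804395, 904747, 1017643, 1081127, 1216038, 1367844, 1538595, 1923104, 2764315, 3800597, 9501458, 3562774, 2783004, 1999647, 1624355, 1421092, 1242918]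

theorem c23 : arcs 370440929 true 15363870 l23 15169010 = true := by decide +kernel

def l24 : List Nat := [1087015, 1018667, 922665, 864810, 837420, 784427, 759595, 735019, 735023, 711212, 711215, 688427, 688427, 688427, 688427, 731437, 731435, 777004, 777000, 825384, 876840, 931623, 1047847, 1178663, 1325863, 1242407, 1125415, 1019687, 955176, 895016, 866856, 839208, 812328, 812331, 812334, 812331]

theorem c24 : arcs 370440929 true 15486196 l24 15363870 = true := by decide +kernel

end H8.Siegel
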