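import Pool.Agent.H8.Siegel.D01

set_option autoImplicit false
set_option maxRecDepth 100000

namespace H8.Siegel

def l25 : List Nat := [812329, 812328, 863016, 916776, 973863, 1095463, 1232167, 1462819, 1919781, 2399518, 2999323, 5436182, 5265686, 2961690, 2498590, 2108191, 1910052, 1670947, 1565733, 1467686, 1375525, 1375528, 1331750, 1331750, 1331750, 1331748, 1414948, 1503269, 1597220, 1696802, 1908771, 2028063, 2281502, 2566683, 3689242, 4611354, 3602202, 2813723, 2373406, 2224418, 2085152, 2019617, 2019618, 2019618, 2019615]

theorem c25 : arcs 370440929 true 15849180 l25 15486196 = true := by decide +kernel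

def l26 : List Nat := [2145823, 2279710, 2564638, 2885150, 3245598, 3143710, 3143710, 3340062, 3548702, 4213787, 5530394, 7603993, 11880984, 18563858, 30166031, 45249033, 88072453]

theorem c26 : arcs 370440929 true 16777216 l26 15849180 = true := by decide +kernel

def l27 : List Nat := [209715203, 88473607, 42854411, 19418127, 10315794, 7736850, 7011090, 7011090, 7887378, 6408210, 4806166, 4505367, 4223000, 3959064, 3959065, 3959064, 4206360, 4469014, 5027600, 9740304, 4870160, 4261398, 3462167, 2812955, 2197531, 1991453, 1866525, 1807389, 1807389, 1920285, 2040093, 1848605, 1674781, 1517341, 1469215, 1422623, 1422623, 1422623, 1422623, 1511455, 1605917, 1806619, 2145307, 2681627, 3519257, 4398870, 9347342, 5549838, 3814932, 2622489, 2048796, 1856289, 1623843, 1420324, 1242659, 1087010, 984611, 922660, 893478, 865318]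

theorem c27 : arcs 370440929 false 2144030 l27 0 = true := by decide +kernel

def l28 : List Nat := [865318, 837926, 811302, 785702, 760358, 760357, 760356, 807715, 908580, 965154, 1085728, 1221407, 1450271, 1631515, 2447129, 2752793, 1634329, 1430045, 1161759, 979748, 856868, 775972, 726820, 726824, 703270, 703268, 703268, 747044, 793636, 843044, 948260, 1007396, 912164, 826148, 773924, 724773, 701222, 701224, 678694, 678695, 678695, 678694, 720938]

theorem c28 : arcs 370440929 false 2306791 l28 2144030 = true := by decide +kernel

def l29 : List Nat := [720934, 765990, 813862, 864548, 972580, 1093922, 1367330, 1623328, 2029088, 2409243, 3011351, 4140306, 12420876, 4657426, 3056151, 2578458, 2014236, 1573408, 1327396, 1119780, 979493, 856870, 775977, 678441, 635691, 595499, 576299, 557611, 557611, 557611, 557611, 557611, 557611, 557611, 522539, 489515, 473899, 458283, 443179, 443180, 443179, 443179]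

theorem c29 : arcs 370440929 false 2546155 l29 2306791 = true := by decide +kernel

def l30 : List Nat := [470827, 500008, 562471, 632613, 750887, 844579, 1002784, 1378592, 1378592, 947488, 799011, 673828, 589609, 515371, 466477, 422189, 395565, 382768, 358190, 346159, 335151, 323887, 323889, 313391, 313392, 313392, 313391, 313391, 313390, 332848, 332846, 353583, 353581, 375597, 398893, 423725]

theorem c30 : arcs 370440929 false 2619791 l30 2546155 = true := by decide +kernel

end H8.Siegel
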