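import Pool.Agent.H8.Siegel.D02

set_option autoImplicit false
set_option maxRecDepth 100000

namespace H8.Siegel

def l31 : List Nat := [450093, 477995, 507690, 570923, 606505, 682278, 852772, 1065760, 1531675, 3063317, 2775573, 1387801, 1040674, 812837, 660009, 577321, 540461, 489005, 442669, 400941, 375342, 351538, 329010, 318258, 307506, 297522, 297522, 287794, 287794, 287794, 287794, 287794, 305714, 305714, 324658, 324658]

theorem c31 : arcs 370440929 false 2713194 l31 2619791 = true := by decide +kernel

def l32 : List Nat := [314162, 303666, 293938, 284210, 284210, 274738, 274738, 274738, 274738, 274738, 291890, 291887, 328240, 348717, 392237, 441132, 496169, 589095, 699172, 873762, 1255710, 1804830, 1071390, 803361, 652583, 550186, 498221, 451116, 422701, 395821, 383022, 370734, 370735, 370736, 370734]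

theorem c32 : arcs 370440929 false 2781071 l32 2713194 = true := by decide +kernel

def l33 : List Nat := [370732, 393774, 393771, 418347, 444458, 472105, 530987, 597287, 708903, 841767, 709927, 620839, 562217, 509225, 476969, 446505, 432428, 405035, 391724, 378924, 366892, 366894, 354859, 354859, 354859, 354859, 376876, 376875, 400427, 425260, 451628, 479787, 509738, 573229, 608809, 684841]

theorem c33 : arcs 370440929 false 2848044 l33 2781071 = true := by decide +kernel

def l34 : List Nat := [770345, 866599, 1028901, 1285925, 1607202, 2008862, 2636316, 3624729, 4530707, 9627658, 9627658, 4663059, 3642647, 2617628, 2044702, 1596963, 1297189, 1093929, 888616, 777004, 679468, 615212, 557100, 522284, 505646, 489008, 473134, 458030, 458030, 458030, 458028, 458028, 486444, 516652, 548908, 583212, 528172, 461612, 417836, 391726]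

theorem c34 : arcs 370440929 false 3107035 l34 2848044 = true := by decide +kernel

def l35 : List Nat := [366894, 354866, 332335, 321583, 321585, 311343, 311343, 311343, 330803, 330798, 351278, 373038, 419632, 471848, 560165, 700197, 962339, 1142307, 784931, 588581, 495914, 418092, 365614, 331057, 299571, 271155, 253750, 237111, 221751, 207670, 200503, 193336, 186680]

theorem c35 : arcs 370440929 false 3159097 l35 3107035 = true := by decide +kernel

end H8.Siegel
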