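import Pool.Agent.H8.Siegel.D03

set_option autoImplicit false
set_option maxRecDepth 100000

namespace H8.Siegel

def l36 : List Nat := [180280, 174648, 168759, 168761, 168764, 162872, 162873, 162874, 162874, 162873, 162872, 162872, 162871, 162871, 172856, 172855, 183610, 183607, 194872, 194870, 206903, 219704, 219701, 233269, 247605, 262964, 279347, 296755]

theorem c36 : arcs 370440929 false 3180169 l36 3159097 = true := by decide +kernel

def l37 : List Nat := [315187, 354352, 398636, 473130, 591400, 775973, 1114908, 2508314, 1018652, 731685, 548651, 445231, 375089, 315953, 295987, 277301, 259381, 242741, 234808, 219703, 212282, 198455, 191544, 185146, 178746, 172602, 172604, 166970, 161338, 161338, 161340]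

theorem c37 : arcs 370440929 false 3232739 l37 3180169 = true := by decide +kernel

def l38 : List Nat := [161343, 155706, 155706, 155706, 155706, 155706, 165434, 165434, 165431, 175674, 186426, 186421, 197941, 210229, 223283, 251189, 266800, 300078, 356143, 400428, 475178, 623658, 662570, 517418, 420141, 354093, 309295, 270641, 245045, 221494]

theorem c38 : arcs 370440929 false 3265117 l38 3232739 = true := by decide +kernel

def l39 : List Nat := [200502, 181046, 174906, 168762, 162874, 162875, 157242, 157242, 157242, 157242, 157242, 166970, 166970, 166970, 177210, 177210, 188218, 188218, 188218, 188218, 188218, 181306, 181306, 181306, 175418, 175418]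

theorem c39 : arcs 370440929 false 3282800 l39 3265117 = true := by decide +kernel

def l40 : List Nat := [175418, 175418, 175418, 175418, 175418, 175418, 186170, 186170, 197690, 197690, 209976, 223030, 236853, 266295, 282932, 300595, 337971, 380212, 403761, 454189, 538925, 639788, 759590, 901667, 1070625, 1338140, 2090515, 4703505, 1543192, 1157409, 976163, 792869, 668458]

theorem c40 : arcs 370440929 false 3369110 l40 3282800 = true := by decide +kernel

end H8.Siegel
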