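import Pool.Agent.H8.Siegel.D04

set_option autoImplicit false
set_option maxRecDepth 100000

namespace H8.Siegel

def l41 : List Nat := [563499, 492847, 430897, 389939, 340786, 308275, 279092, 261432, 244536, 228664, 220728, 213049, 206394, 199482, 192569, 192570, 186425, 186426, 186426, 186427, 186427, 186426, 186425, 186424, 186424, 186424, 197944, 197944]

theorem c41 : arcs 370440929 false 3396545 l41 3369110 = true := by decide +kernel

def l42 : List Nat := [210232, 223288, 223288, 237112, 221752, 207672, 200504, 193336, 180792, 174904, 174906, 168762, 162873, 162874, 162876, 157242, 157242, 157242, 157241, 157240, 166970, 166968, 177208, 188216, 199732, 224562, 266290]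

theorem c42 : arcs 370440929 false 3416388 l42 3396545 = true := by decide +kernel

def l43 : List Nat := [316211, 375343, 445482, 584488, 839720, 629800, 452136, 381228, 321327, 280626, 245556, 221752, 200762, 181816, 170042, 159291, 148794, 139066, 133692, 129087, 129087, 124735, 124735, 124735, 124735, 124735, 124735, 124735]

theorem c43 : arcs 370440929 false 3445126 l43 3416388 = true := by decide +kernel

def l44 : List Nat := [124735, 132415, 132415, 132415, 132415, 140607, 135743, 135743, 135743, 131135, 131135, 131135, 131135, 131135, 131135, 131135, 131135, 131135, 131135, 139327, 139323, 148027, 157244, 166973, 166968]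

theorem c44 : arcs 370440929 false 3458524 l44 3445126 = true := by decide +kernel

def l45 : List Nat := [177208, 188216, 199734, 224570, 238390, 253236, 268850, 302387, 321073, 361009, 383535, 455215, 568872, 817187, 1174554, 2789400, 1002267, 751396, 563241, 439852, 398127, 360241, 325683, 284977, 257842, 240950, 225334, 211254, 204088, 196921, 190521, 184377]

theorem c45 : arcs 370440929 false 3515395 l45 3458524 = true := by decide +kernel

end H8.Siegel
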