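import Pool.Agent.H8.Siegel.D05

set_option autoImplicit false
set_option maxRecDepth 100000

namespace H8.Siegel

def l46 : List Nat := [178489, 178492, 172345, 172347, 166713, 166713, 166713, 166713, 166712, 166712, 166712, 176953, 176952, 176950, 187960, 187958, 199478, 211766, 224822, 238646, 253494, 269110, 259894, 250934, 235062, 219958, 212278]

theorem c46 : arcs 370440929 false 3536291 l46 3515395 = true := by decide +kernel

def l47 : List Nat := [204854, 198455, 191543, 191544, 185144, 185144, 185144, 185145, 185145, 185144, 185144, 185143, 196664, 196662, 208951, 222007, 235830, 250419, 297266, 352817, 418861, 523565, 621350, 854049, 1601311, 1050399, 656161, 553256, 466475, 422194, 369199]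

theorem c47 : arcs 370440929 false 3582242 l47 3536291 = true := by decide +kernel

def l48 : List Nat := [345906, 323636, 303412, 284212, 274740, 265780, 265782, 265784, 256820, 256820, 256820, 272696, 272692, 272689, 289586, 307506, 326706, 346929, 368431, 391213, 440109, 494888, 587302, 770598, 914982, 743206, 603430, 527656, 461352, 417836, 378669, 366125]

theorem c48 : arcs 370440929 false 3631667 l48 3582242 = true := by decide +kernel

def l49 : List Nat := [354095, 342318, 342319, 342319, 342318, 342317, 363565, 363565, 386093, 434221, 461357, 490029, 520493, 503853, 503853, 503853, 503853, 503853, 535341, 535341, 602157, 639786, 759595, 901674, 1070632, 1338152, 1672483, 2194975, 3017757, 4149272, 5705235, 7844367, 25494024, 7568399, 5439254, 3908632, 2931486, 2106401, 1645604, 1285414]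

theorem c49 : arcs 370440929 false 3979123 l49 3631667 = true := by decide +kernel

def l50 : List Nat := [1044009, 913196, 769834, 696876, 609579, 570926, 516908, 484140, 468526, 438828, 438830, 424748, 424748, 424747, 424747, 451115, 479275, 509227, 540969, 608553, 684585, 770089, 697897, 566825, 477995, 432687, 391728, 366896, 343600, 332082, 321331, 310579, 310583, 300083]

theorem c50 : arcs 370440929 false 4047659 l50 3979123 = true := by decide +kernel

end H8.Siegel
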