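import Pool.Agent.H8.Siegel.D06

set_option autoImplicit false
set_option maxRecDepth 100000

namespace H8.Siegel

def l51 : List Nat := [300084, 300083, 300082, 318773, 318769, 338480, 359472, 404274, 429355, 509483, 604708, 868898, 1411874, 793890, 595241, 483371, 407854, 356659, 300595, 271927, 237622, 215351, 201532, 188476, 182588, 176444, 170556, 170556, 164668, 164668]

theorem c51 : arcs 370440929 false 4092756 l51 4047659 = true := by decide +kernel

def l52 : List Nat := [164668, 164668, 164668, 164668, 174908, 174908, 174908, 185660, 185660, 185660, 179260, 173116, 167484, 161596, 155708, 155708, 150844, 150846, 145468, 145469, 145470, 145470, 145471, 145470, 145470]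

theorem c52 : arcs 370440929 false 4108583 l52 4092756 = true := by decide +kernel

def l53 : List Nat := [145469, 145468, 145468, 154429, 154428, 163900, 163895, 184378, 195896, 207927, 220726, 248120, 263477, 279861, 314677, 353839, 442158, 552489, 724772, 1313051, 1805339, 817698, 587303, 440366, 357682, 301365, 272695, 246838, 231223, 216121]

theorem c53 : arcs 370440929 false 4154089 l53 4108583 = true := by decide +kernel

def l54 : List Nat := [202298, 189242, 182845, 171068, 165184, 154429, 148799, 143681, 134462, 129599, 129604, 124994, 120897, 116801, 112961, 112962, 108865, 108866, 108868, 105025, 105026, 105026, 105027, 105027]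

theorem c54 : arcs 370440929 false 4166550 l54 4154089 = true := by decide +kernel

def l55 : List Nat := [105026, 105025, 105025, 105025, 105025, 111426, 111425, 111424, 118337, 118334, 125503, 133185, 133180, 141372, 150074, 168766, 179258, 190262, 213813, 240435, 285235, 320814, 400942, 525870, 492590, 369454]

theorem c55 : arcs 370440929 false 4186727 l55 4166550 = true := by decide +kernel

end H8.Siegel
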