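import Pool.Agent.H8.Siegel.D07

set_option autoImplicit false
set_option maxRecDepth 100000

namespace H8.Siegel

def l56 : List Nat := [299824, 261939, 228661, 199734, 180794, 158010, 142906, 133437, 124737, 120129, 115777, 111937, 107841, 107841, 107841, 107841, 107841, 107841, 107841, 107841, 107841, 114497, 114497, 114497, 121409]

theorem c56 : arcs 370440929 false 4200445 l56 4186727 = true := by decide +kernel

def l57 : List Nat := [121409, 128833, 128833, 136769, 136769, 131905, 131905, 127297, 122945, 122945, 119105, 119105, 115009, 115009, 115009, 115009, 115010, 115010, 115010, 115010, 115009, 115009, 115009, 115009]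

theorem c57 : arcs 370440929 false 4211798 l57 4200445 = true := by decide +kernel

def l58 : List Nat := [122177, 122177, 129603, 129601, 137537, 137533, 145980, 154940, 174143, 184892, 196410, 208442, 234298, 248887, 279862, 314677, 353843, 397871, 472366, 560682, 665384, 789799, 1085725, 3528468, 1377815, 860960, 699175, 611369, 515628, 434478]

theorem c58 : arcs 370440929 false 4271459 l58 4211798 = true := by decide +kernel

def l59 : List Nat := [379955, 332341, 290614, 262714, 237882, 222780, 201531, 188476, 176701, 165438, 159810, 149825, 140097, 135236, 126786, 121924, 113985, 109634, 109638, 105798, 101702, 101702, 101702, 101702]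

theorem c59 : arcs 370440929 false 4287617 l59 4271459 = true := by decide +kernel

def l60 : List Nat := [97862, 97862, 97862, 97862, 97862, 97862, 97862, 97862, 97862, 97862, 97862, 97862, 94022, 94022, 94022, 90182, 90182, 90182, 87366, 87366, 87366, 87366]

theorem c60 : arcs 370440929 false 4295722 l60 4287617 = true := by decide +kernel

end H8.Siegel
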