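import Pool.Agent.H8.Siegel.D08

set_option autoImplicit false
set_option maxRecDepth 100000

namespace H8.Siegel

def l61 : List Nat := [87366, 87366, 87361, 92740, 92735, 98368, 104512, 110912, 117823, 124991, 132668, 140858, 158267, 167992, 188983, 212533, 238900, 283443, 336435, 399411, 336691, 273203, 229940, 208183, 188220, 164154]

theorem c61 : arcs 370440929 false 4313935 l61 4295722 = true := by decide +kernel

def l62 : List Nat := [153663, 139071, 129599, 121151, 113215, 109121, 105283, 101187, 97347, 93763, 90178, 90182, 90185, 87366, 87367, 84038, 84038, 84038, 84038, 84038, 84038, 84038, 84038]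

theorem c62 : arcs 370440929 false 4322839 l62 4313935 = true := by decide +kernel

def l63 : List Nat := [84036, 84036, 89160, 89158, 89156, 89154, 94534, 94530, 100423, 100418, 100417, 106561, 113220, 113216, 120129, 127556, 127551, 135487, 143935, 152895, 162367, 172345, 193848]

theorem c63 : arcs 370440929 false 4333318 l63 4322839 = true := by decide +kernel

def l64 : List Nat := [229943, 272948, 341038, 468778, 703010, 1493792, 653090, 448556, 336430, 273203, 238648, 208701, 182076, 164415, 153919, 143935, 139073, 129600, 124993, 120899, 113217, 109121, 105282, 101186, 97346, 93762, 93766]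

theorem c64 : arcs 370440929 false 4362768 l64 4333318 = true := by decide +kernel

def l65 : List Nat := [90180, 87364, 84036, 84038, 81221, 81224, 77894, 77895, 75334, 75334, 75337, 72518, 72518, 72519, 72520, 72521, 72521, 72522, 72521, 72520, 72519, 72518]

theorem c65 : arcs 370440929 false 4369354 l65 4362768 = true := by decide +kernel

end H8.Siegel
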