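import Pool.Agent.H8.Siegel.D10

set_option autoImplicit false
set_option maxRecDepth 100000

namespace H8.Siegel

def l71 : List Nat := [172859, 172856, 183610, 183608, 194872, 206904, 219704, 233270, 247606, 262966, 295734, 295734, 267574, 241974, 218934, 197686, 185144, 178749, 167227, 156219, 151100, 145725, 140605, 135741, 135744, 131133, 131135]

theorem c71 : arcs 370440929 false 4595366 l71 4574847 = true := by decide +kernel

def l72 : List Nat := [131136, 131136, 131135, 131133, 131133, 139328, 139325, 148030, 148027, 157243, 166968, 187707, 199222, 236344, 280369, 350255, 459562, 689194, 602922, 414250, 323375, 272180, 229174, 199995, 174651, 158013, 142910]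

theorem c72 : arcs 370440929 false 4620652 l72 4595366 = true := by decide +kernel

def l73 : List Nat := [133442, 120640, 112450, 104770, 100933, 94276, 91207, 88135, 85063, 85063, 85063, 85063, 81991, 81991, 81991, 81991, 81991, 81991, 81991, 81991, 87111, 87111]

theorem c73 : arcs 370440929 false 4628522 l73 4620652 = true := by decide +kernel

def l74 : List Nat := [87111, 87111, 92487, 92487, 92487, 92487, 92487, 89159, 89159, 89159, 85831, 85831, 85831, 82247, 82247, 82247, 82247, 82247, 82247, 82247, 82247, 82247]

theorem c74 : arcs 370440929 false 4635945 l74 4628522 = true := by decide +kernel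

def l75 : List Nat := [82247, 82247, 82247, 82247, 87367, 87367, 87362, 92739, 98372, 98368, 104512, 110912, 117824, 124992, 132672, 140864, 149567, 158782, 168509, 179003, 190011, 213563, 240182, 284979]

theorem c75 : arcs 370440929 false 4648427 l75 4635945 = true := by decide +kernel

end H8.Siegel
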