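import Pool.Agent.H8.Siegel.D11

set_option autoImplicit false
set_option maxRecDepth 100000

namespace H8.Siegel

def l76 : List Nat := [356144, 466986, 671265, 1678110, 812062, 532778, 366125, 297265, 250422, 218939, 197691, 185148, 173117, 162109, 151613, 142141, 137024, 131907, 123200, 119106, 115012, 107586, 104002, 100162, 96322, 96327, 92998]

theorem c76 : arcs 370440929 false 4679224 l76 4648427 = true := by decide +kernel

def l77 : List Nat := [89413, 85828, 85831, 82245, 82247, 79430, 79431, 76358, 76359, 76360, 73543, 73543, 73543, 73544, 73544, 73545, 73545, 73545, 73544, 73543, 73543, 73543]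

theorem c77 : arcs 370440929 false 4685843 l77 4679224 = true := by decide +kernel

def l78 : List Nat := [73541, 73541, 77896, 77894, 77893, 82762, 82757, 82755, 87877, 87874, 93252, 93249, 98882, 105026, 111426, 118338, 125504, 133182, 141371, 159035, 178745, 201014, 238646]

theorem c78 : arcs 370440929 false 4696003 l78 4685843 = true := by decide +kernel

def l79 : List Nat := [268337, 335407, 439855, 522031, 407343, 317745, 267572, 225332, 197174, 178491, 155963, 141116, 127293, 122944, 115264, 111424, 111426, 107328, 107329, 107330, 107330, 107330, 107329, 107329, 107328, 107328]

theorem c79 : arcs 370440929 false 4715570 l79 4696003 = true := by decide +kernel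

def l80 : List Nat := [113986, 113984, 113984, 120896, 120896, 128320, 136256, 136256, 144704, 153664, 153664, 148544, 143680, 138816, 138816, 133696, 133696, 133696, 129088, 129088, 129088, 129088, 129088, 129088]

theorem c80 : arcs 370440929 false 4727994 l80 4715570 = true := by decide +kernel

end H8.Siegel
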