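import Pool.Agent.H8.Siegel.D12

set_option autoImplicit false
set_option maxRecDepth 100000

namespace H8.Siegel

def l81 : List Nat := [129088, 129088, 137025, 137024, 137024, 145472, 145472, 154432, 154432, 163904, 174144, 184892, 196411, 220731, 234297, 263481, 296251, 314677, 353844, 397876, 472370, 560687, 665384, 831528, 935459, 1227550, 3068690, 2780434, 1216028]

theorem c81 : arcs 370440929 false 4789815 l81 4727994 = true := by decide +kernel

def l82 : List Nat := [949795, 800805, 675369, 569389, 480303, 420148, 367412, 321076, 290614, 262713, 237881, 222778, 208443, 201278, 188477, 182592, 170813, 164670, 159038, 153406, 153408, 147774, 147779, 142910, 142912, 137790, 137790]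

theorem c82 : arcs 370440929 false 4821205 l82 4789815 = true := by decide +kernel

def l83 : List Nat := [137790, 137790, 137790, 137790, 137789, 137788, 137787, 146238, 146235, 155198, 155195, 164667, 164665, 174905, 185657, 197177, 209465, 222521, 236345, 236345, 220985, 206393, 193081, 180793, 169273, 163386]

theorem c83 : arcs 370440929 false 4838750 l83 4821205 = true := by decide +kernel

def l84 : List Nat := [157499, 151867, 146747, 141371, 141374, 136764, 136766, 136766, 136766, 136766, 136766, 136764, 136763, 145214, 145210, 154171, 163643, 173625, 184377, 207415, 246068, 292144, 365104, 433450, 622632, 856104, 588584]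

theorem c84 : arcs 370440929 false 4863786 l84 4838750 = true := by decide +kernel

def l85 : List Nat := [422442, 356142, 299825, 261940, 228665, 199737, 180793, 163642, 147514, 142910, 137790, 132926, 128062, 128062, 128063, 128064, 128064, 128063, 128062, 128062, 128062, 128062, 135998, 135998, 144446, 144446]

theorem c85 : arcs 370440929 false 4881420 l85 4863786 = true := by decide +kernel

end H8.Siegel
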