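import Pool.Agent.H8.Siegel.D13

set_option autoImplicit false
set_option maxRecDepth 100000

namespace H8.Siegel

def l86 : List Nat := [153406, 153406, 162878, 162878, 162878, 162878, 157246, 157246, 151870, 151870, 146750, 146750, 146750, 146750, 146750, 146750, 146750, 146750, 146750, 155710, 155710, 165439, 165438, 175678, 186430]

theorem c86 : arcs 370440929 false 4896655 l86 4881420 = true := by decide +kernel

def l87 : List Nat := [197947, 210233, 236347, 250935, 282169, 299572, 336948, 357938, 402480, 452655, 509229, 668200, 960291, 1440279, 2880535, 1080092, 843302, 605480, 510253, 462127, 404015, 353330, 320050, 299830, 280631, 262967, 254266, 238135, 230456, 223033, 215353, 215356]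

theorem c87 : arcs 370440929 false 4960260 l87 4896655 = true := by decide +kernel

def l88 : List Nat := [208186, 201016, 201017, 201017, 201017, 201017, 201017, 201015, 201015, 213563, 213559, 213558, 226871, 240951, 240947, 255794, 271666, 288562, 324402, 364850, 387634, 375090, 351282, 318002, 297778, 287795, 269618, 260403, 251699]

theorem c88 : arcs 370440929 false 4989435 l88 4960260 = true := by decide +kernel

def l89 : List Nat := [251701, 242996, 242996, 242997, 242996, 242996, 242995, 258100, 258098, 274226, 291122, 327474, 347698, 412466, 489517, 611882, 764710, 955683, 1672220, 1881116, 999200, 811300, 709672, 620843, 562221, 509229, 476974, 461361, 446516, 432434, 418353, 418354, 418353]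

theorem c89 : arcs 370440929 false 5057940 l89 4989435 = true := by decide +kernel

def l90 : List Nat := [418352, 444468, 444463, 472112, 501551, 532781, 566059, 636717, 676392, 760870, 855841, 1229601, 1536801, 1152289, 935970, 789539, 715302, 670247, 648744, 628008, 628009, 628008, 628006, 667174, 708646, 752934, 846886, 952614, 1012006, 1012006, 1012006, 1075238, 1142310, 1284902, 1525539, 2001955, 2627361, 3776285, 5664282]

theorem c90 : arcs 370440929 false 5224193 l90 5057940 = true := by decide +kernel

end H8.Siegel
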