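import Pool.Agent.H8.Siegel.D14

set_option autoImplicit false
set_option maxRecDepth 100000

namespace H8.Siegel

def l91 : List Nat := [8496405, 12744464, 17523211, 48188678, 15058699, 10822930, 7102232, 4660251, 3203615, 2302498, 1798691, 1404962, 1185316, 1073703, 1006375, 1006375, 911399, 825895, 773927, 724775, 701223, 701224, 701224, 701223, 744999, 791333, 890148, 1001250, 1251362, 1564194, 1123618, 842530, 762919, 691240, 647724, 607020, 568621, 550191, 532529, 515889, 498735, 498735, 498735]

theorem c91 : arcs 370440929 false 5842160 l91 5224193 = true := by decide +kernel

def l92 : List Nat := [498733, 529710, 562735, 597804, 634922, 714280, 803365, 953890, 1609245, 1910557, 1014817, 824357, 695338, 564780, 475951, 401202, 350516, 328244, 307508, 288052, 278580, 278581, 269876, 269877, 269877, 269876, 269876, 269876, 286516, 304180, 304180, 323124, 343092]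

theorem c92 : arcs 370440929 false 5911699 l92 5842160 = true := by decide +kernel

def l93 : List Nat := [343092, 331828, 311092, 281140, 271924, 254516, 246325, 238390, 230455, 223030, 223033, 215351, 215353, 215353, 215353, 215353, 215353, 215352, 215350, 228665, 228662, 242745, 242741, 257845, 273716, 290612, 308528, 346927]

theorem c93 : arcs 370440929 false 5939420 l93 5911699 = true := by decide +kernel

def l94 : List Nat := [390191, 438831, 493615, 617002, 809512, 1062179, 2124312, 2124312, 1028385, 738856, 530730, 447279, 404785, 366387, 342837, 310069, 290103, 271419, 245817, 230458, 215868, 201788, 188988, 176956, 170813, 159548, 153661, 148543, 148545, 143681]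

theorem c94 : arcs 370440929 false 5997912 l94 5939420 = true := by decide +kernel

def l95 : List Nat := [143681, 143681, 143681, 138817, 138817, 138817, 138817, 138817, 138817, 138817, 138817, 138817, 133697, 133697, 129089, 129089, 129089, 129089, 124737, 124737, 124737, 124732, 132414, 132412]

theorem c95 : arcs 370440929 false 6010515 l95 5997912 = true := by decide +kernel

end H8.Siegel
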