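import Pool.Agent.H8.Siegel.D15

set_option autoImplicit false
set_option maxRecDepth 100000

namespace H8.Siegel

def l96 : List Nat := [140604, 149308, 158524, 168252, 178745, 201020, 213559, 240182, 270132, 303666, 360498, 428079, 561706, 772138, 603178, 452397, 367151, 309297, 270647, 228151, 199225, 180284, 169020, 158268, 152893, 147517, 142909, 142910]

theorem c96 : arcs 370440929 false 6040471 l96 6010515 = true := by decide +kernel

def l97 : List Nat := [137788, 137789, 137789, 137789, 137788, 137788, 146238, 146236, 146236, 155196, 155196, 164668, 174908, 185660, 185660, 197180, 197180, 197180, 184636, 178492, 172348, 166716, 160828, 155452, 149564]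

theorem c97 : arcs 370440929 false 6056271 l97 6040471 = true := by decide +kernel

def l98 : List Nat := [149565, 144701, 144702, 144704, 139582, 139582, 139582, 139582, 139582, 139582, 139582, 139581, 148289, 148286, 148285, 157503, 157501, 167231, 167228, 177468, 188476, 200252, 212540, 225592, 253752]

theorem c98 : arcs 370440929 false 6072096 l98 6056271 = true := by decide +kernel

def l99 : List Nat := [285241, 302903, 340532, 383026, 454706, 511534, 607020, 720680, 855333, 1015328, 1522968, 4187923, 1308443, 939813, 792359, 667946, 563245, 474930, 399922, 349750, 316471, 286521, 267836, 242236, 226878, 205116, 192061, 179519, 167743, 156479, 151106]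

theorem c99 : arcs 370440929 false 6146604 l99 6072096 = true := by decide +kernel

def l100 : List Nat := [141121, 136004, 131140, 131140, 127044, 127044, 122948, 122948, 119108, 119108, 119108, 119108, 119108, 119108, 119108, 119108, 119108, 119108, 126532, 126532, 121924, 117572, 113220]

theorem c100 : arcs 370440929 false 6157677 l100 6146604 = true := by decide +kernel

end H8.Siegel
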