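import Pool.Agent.H8.Siegel.D16

set_option autoImplicit false
set_option maxRecDepth 100000

namespace H8.Siegel

def l101 : List Nat := [113220, 109124, 105284, 105284, 105284, 101188, 101188, 101188, 101188, 101188, 101188, 101188, 101188, 101184, 107328, 113983, 120895, 128318, 136252, 153149, 162618, 182842, 205626, 231225]

theorem c101 : arcs 370440929 false 6169355 l101 6157677 = true := by decide +kernel

def l102 : List Nat := [259893, 292146, 365106, 456242, 398898, 311346, 262708, 229687, 207931, 181818, 164412, 148798, 139071, 129601, 121154, 113217, 109124, 105285, 101188, 97348, 93764, 93767, 90181, 90183, 87366]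

theorem c102 : arcs 370440929 false 6187514 l102 6169355 = true := by decide +kernel

def l103 : List Nat := [87367, 87369, 84038, 84039, 84039, 84039, 84039, 84039, 84039, 84038, 84038, 84037, 84036, 89160, 89158, 89156, 94538, 94534, 94532, 100424, 100420, 100419]

theorem c103 : arcs 370440929 false 6195131 l103 6187514 = true := by decide +kernel

def l104 : List Nat := [106564, 106561, 113218, 120132, 120128, 127552, 135489, 143937, 143935, 152895, 162367, 182591, 193848, 229944, 272951, 323890, 445229, 611877, 1376544, 946208, 532262, 381741, 309812, 260922, 219450, 191803, 173375]

theorem c104 : arcs 370440929 false 6226708 l104 6195131 = true := by decide +kernel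

def l105 : List Nat := [162111, 151615, 142143, 137025, 131908, 123202, 119107, 115012, 107587, 104004, 100164, 96324, 92996, 89412, 89416, 85831, 82246, 82249, 79431, 76359, 76361, 73543]

theorem c105 : arcs 370440929 false 6235757 l105 6226708 = true := by decide +kernel

end H8.Siegel
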