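import Pool.Agent.H8.Siegel.D17

set_option autoImplicit false
set_option maxRecDepth 100000

namespace H8.Siegel

def l106 : List Nat := [73545, 73548, 70216, 70218, 70220, 70220, 70220, 70220, 70220, 70220, 70220, 70220, 70220, 70220, 70220, 70220, 70220, 70220, 70220, 70220]

theorem c106 : arcs 370440929 false 6241263 l106 6235757 = true := by decide +kernel

def l107 : List Nat := [70220, 70217, 70215, 70215, 74569, 74567, 74566, 79175, 79173, 84039, 84036, 89157, 94535, 94531, 100419, 106563, 113219, 120130, 127552, 135487, 152383, 161850]

theorem c107 : arcs 370440929 false 6249565 l107 6241263 = true := by decide +kernel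

def l108 : List Nat := [182074, 215867, 242740, 288050, 359983, 494637, 649005, 465965, 349487, 283698, 239157, 201530, 182075, 164411, 153916, 148545, 139071, 133695, 133700, 129089, 124735, 124736, 124737, 124737, 124737, 124735, 124735]

theorem c108 : arcs 370440929 false 6273113 l108 6249565 = true := by decide +kernel

def l109 : List Nat := [124733, 132415, 132413, 140607, 140604, 149308, 158524, 168251, 178746, 189754, 201530, 226618, 240698, 240698, 232762, 217658, 203834, 196924, 184378, 178491, 172347, 166716, 166719, 160829, 155452, 155453]

theorem c109 : arcs 370440929 false 6291140 l109 6273113 = true := by decide +kernel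

def l110 : List Nat := [155455, 155455, 155455, 155455, 155455, 155454, 155453, 155452, 164927, 164925, 175167, 175164, 185917, 197439, 197435, 209723, 222778, 236602, 251194, 282426, 299832, 337206, 379189, 450101, 506162, 600880]

theorem c110 : arcs 370440929 false 6315668 l110 6291140 = true := by decide +kernel

end H8.Siegel
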