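import Pool.Agent.H8.Siegel.D18

set_option autoImplicit false
set_option maxRecDepth 100000

namespace H8.Siegel

def l111 : List Nat := [713261, 846888, 1058600, 1323041, 1736477, 2061595, 7730702, 2294550, 1863963, 1455904, 1136936, 923433, 749867, 632368, 533297, 466229, 407605, 369210, 322873, 292157, 264253, 247614, 231487, 216894, 202557, 195390, 188478, 182590, 176446, 170558, 170559, 164670]

theorem c111 : arcs 370440929 false 6430234 l111 6315668 = true := by decide +kernel

def l112 : List Nat := [164670, 164671, 164671, 164671, 164670, 164670, 164669, 164669, 174909, 174909, 185661, 185661, 197181, 197181, 209469, 202557, 182845, 176701, 165437, 154685, 149310, 143935, 139072, 133696, 129087]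

theorem c112 : arcs 370440929 false 6446711 l112 6430234 = true := by decide +kernel

def l113 : List Nat := [124735, 124736, 124738, 120128, 120128, 120128, 120127, 120127, 120126, 127552, 127550, 135486, 143935, 152894, 162365, 182584, 205365, 243765, 289331, 343344, 450352, 506416, 395312, 308786, 260149, 219191]

theorem c113 : arcs 370440929 false 6467601 l113 6446711 = true := by decide +kernel

def l114 : List Nat := [191801, 173373, 156734, 141886, 132672, 123969, 116034, 111944, 104517, 100934, 97352, 93768, 90183, 87367, 84038, 84042, 81224, 81226, 77896, 77898, 77898, 75336]

theorem c114 : arcs 370440929 false 6476822 l114 6467601 = true := by decide +kernel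

def l115 : List Nat := [75338, 75338, 75338, 75338, 75338, 75338, 75338, 75338, 75337, 75336, 75335, 75335, 79946, 79944, 79943, 79942, 84809, 84807, 84805, 89927, 89925]

theorem c115 : arcs 370440929 false 6483293 l115 6476822 = true := by decide +kernel

end H8.Siegel
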