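import Pool.Agent.H8.Siegel.D19

set_option autoImplicit false
set_option maxRecDepth 100000

namespace H8.Siegel

def l116 : List Nat := [95303, 95301, 101191, 101189, 107333, 107333, 113989, 120901, 128325, 136256, 144701, 162621, 182845, 205626, 244025, 289587, 379696, 521766, 1043491, 912931, 484904, 348208, 271924, 220728, 192827, 174400]

theorem c116 : arcs 370440929 false 6510191 l116 6483293 = true := by decide +kernel

def l117 : List Nat := [152381, 142401, 128832, 123973, 116037, 111941, 107845, 104005, 100165, 96325, 96327, 92998, 89414, 89416, 85830, 85832, 85835, 82247, 82248, 82250, 79431, 79432]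

theorem c117 : arcs 370440929 false 6518838 l117 6510191 = true := by decide +kernel

def l118 : List Nat := [79432, 79432, 79432, 79432, 79431, 79431, 79430, 79429, 84296, 84294, 84293, 89415, 89413, 94790, 94789, 100677, 106821, 113475, 120385, 127808, 135741, 152640]

theorem c118 : arcs 370440929 false 6527091 l118 6518838 = true := by decide +kernel

def l119 : List Nat := [162107, 182331, 193592, 229688, 258360, 306744, 287032, 250936, 211512, 191289, 172859, 161598, 145725, 136256, 127553, 119362, 111682, 104514, 100933, 97349, 93766, 90182, 87367, 84038, 81221]

theorem c119 : arcs 370440929 false 6542663 l119 6527091 = true := by decide +kernel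

def l120 : List Nat := [81225, 77894, 77897, 75335, 75336, 72518, 72520, 72520, 72520, 72521, 72521, 72521, 72521, 72520, 72520, 72520, 72519, 72518, 76874, 76872, 76871]

theorem c120 : arcs 370440929 false 6548755 l120 6542663 = true := by decide +kernel

end H8.Siegel
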