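import Pool.Agent.H8.Siegel.D20

set_option autoImplicit false
set_option maxRecDepth 100000

namespace H8.Siegel

def l121 : List Nat := [76870, 81480, 81478, 86345, 86343, 86341, 91718, 91717, 97350, 103240, 103237, 109637, 109635, 116291, 123461, 131141, 139335, 139328, 148032, 157248, 166976, 177214]

theorem c121 : arcs 370440929 false 6558532 l121 6548755 = true := by decide +kernel

def l122 : List Nat := [199232, 211515, 237884, 267580, 300857, 338228, 401459, 451630, 536109, 602923, 828711, 1346326, 2860822, 938270, 644907, 563755, 493101, 415791, 363827, 318006, 287802, 251705, 227387, 213056, 193088, 180800, 169280, 158273, 148033, 138562]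

theorem c122 : arcs 370440929 false 6614342 l122 6558532 = true := by decide +kernel

def l123 : List Nat := [133445, 124739, 116291, 112197, 108104, 104264, 100168, 96328, 96328, 96329, 93000, 93000, 93001, 89416, 89416, 89416, 89416, 89416, 89416, 89416, 89416, 89416]

theorem c123 : arcs 370440929 false 6622820 l123 6614342 = true := by decide +kernel

def l124 : List Nat := [89416, 94792, 94792, 94792, 94792, 94792, 100680, 97096, 97096, 93256, 93256, 89928, 89928, 89928, 86088, 86088, 86088, 86088, 86089, 83272, 83272]

theorem c124 : arcs 370440929 false 6630281 l124 6622820 = true := by decide +kernel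

def l125 : List Nat := [83272, 83272, 83272, 88392, 88392, 88387, 93763, 99394, 105537, 111936, 125763, 133439, 141627, 159291, 179003, 201274, 226358, 254515, 302131, 377651, 424755, 344627, 290613, 244533, 213558]

theorem c125 : arcs 370440929 false 6648028 l125 6630281 = true := by decide +kernel

end H8.Siegel
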