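import Pool.Agent.H8.Siegel.D21

set_option autoImplicit false
set_option maxRecDepth 100000

namespace H8.Siegel

def l126 : List Nat := [193339, 174652, 158012, 147775, 138304, 129344, 124740, 116290, 112195, 108099, 104259, 100163, 100166, 96324, 96328, 92997, 92998, 93000, 93000, 93000, 93000, 93000, 93000]

theorem c126 : arcs 370440929 false 6658350 l126 6648028 = true := by decide +kernel

def l127 : List Nat := [93000, 93000, 92998, 92997, 92996, 98632, 98629, 98627, 104776, 104772, 104771, 111171, 111171, 118083, 125253, 125249, 132931, 141123, 141118, 149822, 159038, 168766, 179261]

theorem c127 : arcs 370440929 false 6669040 l127 6658350 = true := by decide +kernel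

def l128 : List Nat := [190268, 202043, 214587, 241206, 286003, 357427, 469035, 644902, 1289758, 1370142, 685091, 513835, 400942, 337717, 284472, 248379, 224827, 210235, 196668, 184381, 172861, 161597, 150845, 145471, 136254, 127550, 123200, 119107]

theorem c128 : arcs 370440929 false 6706881 l128 6669040 = true := by decide +kernel

def l129 : List Nat := [119108, 115011, 115012, 111171, 111171, 111171, 111171, 111171, 111171, 111171, 111171, 111171, 111171, 111171, 118083, 118083, 118083, 125251, 125251, 125251, 132931, 132931, 132931]

theorem c129 : arcs 370440929 false 6717425 l129 6706881 = true := by decide +kernel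

def l130 : List Nat := [132931, 128067, 128067, 128067, 128067, 123715, 123715, 123715, 123715, 123715, 123715, 123715, 131395, 131395, 139587, 139582, 148285, 166720, 176956, 198974, 211258, 237624, 267318, 317238]

theorem c130 : arcs 370440929 false 6732175 l130 6717425 = true := by decide +kernel

end H8.Siegel
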