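import Pool.Agent.H8.Siegel.D22

set_option autoImplicit false
set_option maxRecDepth 100000

namespace H8.Siegel

def l131 : List Nat := [356656, 423470, 529193, 793638, 1041446, 683302, 490537, 413488, 361267, 315699, 295734, 276790, 267579, 250423, 242231, 242234, 234296, 234297, 234296, 234295, 234294, 248889, 248886, 264247, 264246, 280627, 298033, 335155, 355886, 422190]

theorem c131 : arcs 370440929 false 6774643 l131 6732175 = true := by decide +kernel

def l132 : List Nat := [501294, 594990, 576046, 503854, 456494, 427311, 400176, 374576, 362033, 350257, 338993, 338995, 327985, 327985, 327985, 348467, 348465, 370226, 393267, 417843, 443953, 471600, 530481, 596785, 671279, 754990, 896302, 1063977, 1329959, 1745190, 2290465, 3005980, 4132889]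

theorem c132 : arcs 370440929 false 6876282 l132 6774643 = true := by decide +kernel

def l133 : List Nat := [5682705, 7103244, 16869897, 6062097, 4546581, 3409946, 2557473, 1917988, 1438502, 1168425, 949292, 800557, 674861, 611377, 534833, 467759, 438068, 409908, 396852, 383796, 370996, 370996, 370996, 358964, 347188, 325172, 314420, 304180, 294452, 284468, 274740, 274740, 274740, 274740, 274738]

theorem c133 : arcs 370440929 false 7115103 l133 6876282 = true := by decide +kernel

def l134 : List Nat := [291889, 310064, 329263, 370225, 393262, 442413, 497708, 590892, 701484, 591660, 480300, 405037, 366640, 332084, 311092, 290870, 272694, 263737, 246839, 238903, 238908, 230970, 230972, 223289, 223289, 223289, 223288, 223287, 237113, 237111]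

theorem c134 : arcs 370440929 false 7154232 l134 7115103 = true := by decide +kernel

def l135 : List Nat := [251703, 267319, 283957, 301620, 339252, 381488, 429100, 536359, 770340, 1299748, 771364, 554025, 450094, 379188, 319542, 269623, 235576, 213308, 186426, 174655, 163391, 157503, 151871, 146751, 141375, 141375, 141376, 136767, 136767]

theorem c135 : arcs 370440929 false 7192241 l135 7154232 = true := by decide +kernel

end H8.Siegel
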