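import Pool.Agent.H8.Siegel.D23

set_option autoImplicit false
set_option maxRecDepth 100000

namespace H8.Siegel

def l136 : List Nat := [136767, 136767, 136767, 136767, 145216, 145215, 145215, 145215, 154175, 154175, 163647, 163647, 173631, 173631, 167743, 161599, 155711, 150847, 145471, 140607, 135743, 135744, 131135, 131137]

theorem c136 : arcs 370440929 false 7206167 l136 7192241 = true := by decide +kernel

def l137 : List Nat := [127039, 127040, 127041, 127042, 127042, 127042, 127042, 127041, 127040, 127039, 127039, 134978, 134975, 134975, 143167, 143167, 151871, 161341, 171323, 181818, 193080, 217146, 230712, 245047, 275511]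

theorem c137 : arcs 370440929 false 7221460 l137 7206167 = true := by decide +kernel

def l138 : List Nat := [292661, 347185, 433967, 569132, 746532, 1586204, 1586204, 767781, 527400, 411952, 321585, 291383, 263735, 246843, 223545, 209210, 202303, 189247, 176959, 165438, 159807, 149823, 144704, 139586, 130624, 125762, 121154, 116802]

theorem c138 : arcs 370440929 false 7263046 l138 7221460 = true := by decide +kernel

def l139 : List Nat := [116805, 112965, 108868, 105027, 105030, 101188, 101191, 97348, 97349, 93764, 93765, 93765, 93766, 93767, 90179, 90180, 90179, 90179, 90179, 90178, 95815, 95813]

theorem c139 : arcs 370440929 false 7271428 l139 7263046 = true := by decide +kernel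

def l140 : List Nat := [95812, 95810, 101703, 101699, 101698, 107843, 107842, 114498, 121414, 121407, 128831, 136767, 145213, 154171, 173374, 184122, 206905, 232759, 261683, 310322, 368175, 482863, 572975, 447279, 348975, 304947]

theorem c140 : arcs 370440929 false 7293020 l140 7271428 = true := by decide +kernel

end H8.Siegel
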