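import Pool.Agent.H8.Siegel.D25

set_option autoImplicit false
set_option maxRecDepth 100000

namespace H8.Siegel

def l146 : List Nat := [103489, 109893, 109887, 116544, 123713, 123709, 131389, 139581, 148282, 166717, 176954, 198972, 211254, 237621, 267317, 300594, 356658, 445746, 445746, 375602, 304690, 275765, 240949, 217910, 203834, 184378, 172862]

theorem c146 : arcs 370440929 false 7436125 l146 7413123 = true := by decide +kernel

def l147 : List Nat := [161598, 150845, 145472, 140610, 135746, 131138, 127042, 122944, 122947, 119105, 119106, 119108, 119109, 119109, 119109, 119107, 119106, 119105, 119104, 119104, 126530, 126528, 134213]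

theorem c147 : arcs 370440929 false 7447587 l147 7436125 = true := by decide +kernel

def l148 : List Nat := [134208, 134206, 142400, 151107, 151102, 160319, 160317, 170301, 180797, 192061, 203834, 229177, 257591, 289588, 343602, 429357, 590122, 848159, 1908255, 804384, 577834, 451120, 366386, 308533, 269622, 243769, 220731, 206397]

theorem c148 : arcs 370440929 false 7487133 l148 7447587 = true := by decide +kernel

def l149 : List Nat := [193085, 186686, 174653, 168766, 162879, 157248, 151872, 146752, 141376, 136768, 136770, 131904, 131907, 127296, 127298, 122944, 122945, 122946, 122947, 122947, 122947, 122947, 122946, 122945]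

theorem c149 : arcs 370440929 false 7500337 l149 7487133 = true := by decide +kernel

def l150 : List Nat := [122944, 122944, 122944, 130625, 130624, 138563, 138560, 147010, 147005, 155966, 165696, 165692, 186175, 197693, 209976, 223030, 250678, 281909, 316978, 376111, 446252, 585258, 840746, 683050, 512298, 431917, 363823]

theorem c150 : arcs 370440929 false 7529997 l150 7500337 = true := by decide +kernel

end H8.Siegel
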