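import Pool.Agent.H8.Siegel.D26

set_option autoImplicit false
set_option maxRecDepth 100000

namespace H8.Siegel

def l151 : List Nat := [306481, 277304, 250678, 242236, 226872, 219192, 212024, 212024, 212026, 212025, 212024, 212024, 212022, 225080, 225077, 238902, 253750, 269365, 286005, 303669, 341557, 362805, 351029, 339253, 327989, 317493, 307253, 307254]

theorem c151 : arcs 370440929 false 7559145 l151 7529997 = true := by decide +kernel

def l152 : List Nat := [297525, 297525, 297525, 297525, 297525, 315958, 315957, 335669, 356406, 378678, 402229, 427317, 480565, 510512, 606001, 681518, 809005, 960555, 1140519, 1425444, 1781794, 2338588, 3068952, 3836176, 11028748, 3446295, 2799898, 2099741, 1705763, 1332262, 1082408, 913197, 769837, 648750, 567345, 496432]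

theorem c152 : arcs 370440929 false 7748788 l152 7559145 = true := by decide +kernel

def l153 : List Nat := [464947, 421171, 394292, 369461, 345909, 323635, 313397, 303416, 284212, 274740, 274742, 265781, 265781, 265782, 265782, 265781, 265780, 265779, 265779, 282163, 282163, 299571, 318259, 318256, 337968, 358960, 403760, 428848, 482352, 482352]

theorem c153 : arcs 370440929 false 7787418 l153 7748788 = true := by decide +kernel

def l154 : List Nat := [421936, 382256, 345905, 323636, 303412, 284211, 274742, 265782, 256822, 248118, 248120, 248122, 248123, 248120, 248118, 248117, 263478, 263475, 279859, 297266, 334387, 376112, 446256, 557613, 696872, 1045285, 1045285, 718373, 560937, 472622, 398384]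

theorem c154 : arcs 370440929 false 7835661 l154 7787418 = true := by decide +kernel

def l155 : List Nat := [348470, 304692, 275766, 258107, 233784, 218937, 204601, 191033, 184635, 172859, 166971, 166974, 166974, 166974, 166974, 166974, 166974, 166974, 166974, 166974, 177214, 177214, 177214, 171326, 171326, 171326]

theorem c155 : arcs 370440929 false 7855609 l155 7835661 = true := by decide +kernel

end H8.Siegel
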