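import Pool.Agent.H8.Siegel.D27

set_option autoImplicit false
set_option maxRecDepth 100000

namespace H8.Siegel

def l156 : List Nat := [171326, 171326, 171326, 171326, 171326, 171326, 171326, 171323, 181819, 181816, 193081, 205113, 217913, 231482, 245819, 261179, 277305, 294455, 312630, 332083, 352819, 396848, 470830, 588335, 735273, 1010976, 1958170, 2202906, 1101344]

theorem c156 : arcs 370440929 false 7906864 l156 7855609 = true := by decide +kernel

def l157 : List Nat := [756773, 614701, 499246, 420655, 393780, 356659, 334132, 312886, 292918, 274486, 265784, 256825, 248122, 239931, 231995, 224314, 216889, 209209, 209210, 209212, 202297, 202297, 202298, 202298, 202297, 202297, 202296, 214843]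

theorem c157 : arcs 370440929 false 7938884 l157 7906864 = true := by decide +kernel

def l158 : List Nat := [214841, 214839, 228153, 228150, 242230, 257334, 273204, 290099, 326195, 366897, 412718, 464171, 550955, 654120, 899112, 899112, 702248, 570153, 498475, 451118, 408626, 357424, 334899, 303155, 284211, 266036, 266038, 256822, 256822, 256822, 256822]

theorem c158 : arcs 370440929 false 7985721 l158 7938884 = true := by decide +kernel

def l159 : List Nat := [272694, 272694, 289590, 289590, 307510, 307510, 307510, 307510, 307510, 307510, 307510, 307510, 326710, 326710, 326710, 346934, 368438, 391219, 415537, 467250, 496431, 558383, 628016, 706351, 794413, 893480, 1116712, 1395748, 1657120, 1967645, 2828053]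

theorem c159 : arcs 370440929 false 8062264 l159 7985721 = true := by decide +kernel

def l160 : List Nat := [9190927, 2727957, 2045981, 1662238, 1401891, 1182758, 997672, 872747, 736043, 643627, 562987, 527151, 493617, 462641, 447282, 432692, 418611, 405041, 391729, 391729, 391729, 391729, 391728, 391727, 416049, 416046, 441903, 441902, 469294, 498478, 560686, 560686, 525102, 491822, 460846]

theorem c160 : arcs 370440929 false 8190559 l160 8062264 = true := by decide +kernel

end H8.Siegel
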