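import Pool.Agent.H8.Siegel.D28

set_option autoImplicit false
set_option maxRecDepth 100000

namespace H8.Siegel

def l161 : List Nat := [446254, 431406, 417326, 417330, 403502, 403502, 403502, 428590, 455215, 483630, 513835, 609834, 723752, 859174, 1019939, 1466144, 1832480, 1259552, 983845, 860456, 752681, 658473, 596523, 558894, 505901, 489774, 458798, 444462, 430382, 416558, 416559, 416561, 442417, 442417, 442417]

theorem c161 : arcs 370440929 false 8276069 l161 8190559 = true := by decide +kernel

def l162 : List Nat := [442415, 470065, 470062, 499246, 530222, 563246, 598316, 635691, 715051, 759593, 854313, 961065, 1081129, 1216038, 1443616, 2074653, 2722839, 7487762, 2807829, 2368795, 1850400, 1503267, 1268259, 1069603, 969000, 877863, 822568, 796201, 770857, 770857, 770859, 770857, 770857, 770854, 818982, 869926, 924198, 1039654, 1104422, 1104422]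

theorem c162 : arcs 370440929 false 8464914 l162 8276069 = true := by decide +kernel

def l163 : List Nat := [1035046, 1002022, 970278, 970278, 970278, 1030694, 1094950, 1231651, 1539363, 1827616, 2284318, 2712347, 4407317, 4958229, 2788888, 2527005, 2289438, 2145567, 2077729, 2012448, 2012448, 2138145, 2138142, 2271773, 2413595, 2715160, 3733016, 4432664, 3878168, 3393048, 3286553, 3286552, 3491864, 4146457, 5183000, 7126296, 11579925, 20988434, 36729612, 59685383, 193977348, 54555911, 35801869, 19019536, 11292436, 7057431, 5072407, 4279578, 4011546, 3634970, 3180058, 2782234, 2694941, 2609693, 2609693, 2609692, 2772765]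

theorem c163 : arcs 370440929 false 10740173 l163 8464914 = true := by decide +kernel

def l164 : List Nat := [2945816, 3682071, 5062423, 4270615, 2935834, 2660381, 2410783, 2184480, 1979168, 1855010, 1738529, 1683490, 1683491, 1683491, 1683489, 1788705, 2012195, 2137886, 2404892, 2855708, 3569428, 7138836, 3122710, 2732061, 2049054, 1600801, 1300260, 1137188, 1030181, 965671, 904999, 905002, 875815, 875815, 875815, 875813, 930341, 988453, 1050148, 1181220, 1328676, 1411620, 1234980, 1080612, 945189, 885799]

theorem c164 : arcs 370440929 false 11094288 l164 10740173 = true := by decide +kernel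

def l165 : List Nat := [830247, 803625, 778026, 752683, 728618, 705066, 705066, 705066, 705066, 705066, 749099, 749097, 795690, 845354, 898090, 954152, 1013543, 1140006, 1282338, 1522721, 1903393, 2497818, 3278102, 9014545, 3239189, 2327578, 1672737, 1463332, 1280294, 1120039, 979496, 856874, 749355, 678446, 635694, 595502, 557870, 539950, 522286]

theorem c165 : arcs 370440929 false 11294599 l165 11094288 = true := by decide +kernel

end H8.Siegel
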