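import Pool.Agent.H8.Siegel.D29

set_option autoImplicit false
set_option maxRecDepth 100000

namespace H8.Siegel

def l166 : List Nat := [522287, 505646, 505646, 505646, 505646, 505646, 537134, 537134, 570670, 606254, 606254, 587310, 550190, 515374, 482606, 466734, 451119, 436783, 436785, 422704, 422705, 422704, 422703, 422702, 449073, 449070, 476974, 536366, 603179, 716072, 849957, 1062437, 1261345, 2049310]

theorem c166 : arcs 370440929 false 11374289 l166 11294599 = true := by decide +kernel

def l167 : List Nat := [2177310, 1292318, 1049890, 852775, 692523, 583979, 528942, 495663, 464687, 449328, 434480, 434482, 420657, 420657, 420657, 420656, 420654, 446769, 446766, 474670, 504110, 535598, 568875, 639787, 719659, 809515, 758571, 663339, 600363, 543787, 526382, 493358, 461870, 447023]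

theorem c167 : arcs 370440929 false 11457096 l167 11374289 = true := by decide +kernel

def l168 : List Nat := [432688, 418609, 405041, 391728, 391729, 391731, 378929, 378929, 378928, 378928, 402482, 402481, 402479, 427569, 454194, 454191, 482351, 512303, 544302, 578094, 650289, 690734, 777006, 874027, 983080, 1167398, 1459237, 1732641, 2165792, 2707227, 3722007, 12096270, 3590676, 2580507, 2177310, 1768739]

theorem c168 : arcs 370440929 false 11643616 l168 11457096 = true := by decide +kernel

def l169 : List Nat := [1381413, 1165354, 983082, 860203, 779567, 681775, 596015, 558643, 505906, 474162, 458803, 430130, 416563, 402739, 389682, 389683, 389687, 377138, 377138, 377138, 377138, 377138, 400690, 400690, 425522, 451890, 451890, 480050, 464434, 434994, 407346]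

theorem c169 : arcs 370440929 false 11708714 l169 11643616 = true := by decide +kernel

def l170 : List Nat := [368434, 355890, 344116, 333365, 322357, 311605, 311606, 301621, 301621, 301621, 301621, 301620, 320312, 320308, 340277, 361524, 384050, 431917, 512556, 608554, 722472, 902949, 1297445, 1216037, 835621, 678952, 572459, 482607, 421941, 369203, 334389, 302645]

theorem c170 : arcs 370440929 false 11768363 l170 11708714 = true := by decide +kernel

end H8.Siegel
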