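import Pool.Agent.H8.Siegel.D30

set_option autoImplicit false
set_option maxRecDepth 100000

namespace H8.Siegel

def l171 : List Nat := [283190, 265271, 248376, 232504, 224828, 217148, 210236, 210236, 203068, 203068, 203068, 203068, 203068, 203068, 203068, 215612, 215612, 215612, 215612, 215612, 215612, 215612, 215612, 208444, 208444, 208444]

theorem c171 : arcs 370440929 false 11790480 l171 11768363 = true := by decide +kernel

def l172 : List Nat := [201276, 201276, 201276, 201276, 201276, 201276, 201276, 213820, 213820, 213816, 227129, 241209, 256057, 271929, 288824, 306742, 325685, 345909, 367411, 390194, 438836, 466224, 495151, 556847, 626218, 821546, 1078051, 1549339, 4066840]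

theorem c172 : arcs 370440929 false 11849734 l172 11790480 = true := by decide +kernel

def l173 : List Nat := [1715227, 1125410, 844070, 659241, 576303, 521777, 472370, 427570, 400437, 362548, 328499, 307510, 288057, 269625, 260409, 251705, 243001, 234809, 234812, 226874, 226875, 219193, 219194, 219194, 219194, 219193, 219193, 219193, 219193]

theorem c173 : arcs 370440929 false 11895551 l173 11849734 = true := by decide +kernel

def l174 : List Nat := [232761, 232761, 232761, 247097, 247097, 262457, 262457, 278841, 278841, 278841, 269881, 260665, 251961, 243769, 235833, 235833, 227897, 227898, 220217, 220218, 220218, 220218, 220218, 220218, 220217, 220217, 220217]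

theorem c174 : arcs 370440929 false 11920895 l174 11895551 = true := by decide +kernel

def l175 : List Nat := [233785, 233785, 248377, 263737, 280116, 314931, 354098, 420148, 472623, 560940, 700969, 876069, 1368610, 1625122, 1015586, 761381, 594474, 519984, 454448, 411186, 372274, 348467, 337206, 315702, 305462, 295478, 295479, 286006, 286006, 286006, 286006]

theorem c175 : arcs 370440929 false 11979969 l175 11920895 = true := by decide +kernel

end H8.Siegel
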