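import Pool.Agent.H8.Siegel.D31

set_option autoImplicit false
set_option maxRecDepth 100000

namespace H8.Siegel

def l176 : List Nat := [286006, 286006, 303670, 303669, 322614, 322610, 342577, 363824, 409141, 434479, 461613, 519212, 616236, 731436, 777004, 703532, 593196, 537132, 503343, 455727, 427055, 400176, 374577, 350512, 338995, 317489, 307250, 307254, 297526, 297526, 297526]

theorem c176 : arcs 370440929 false 12030701 l176 11979969 = true := by decide +kernel

def l177 : List Nat := [297526, 315958, 315958, 315958, 335670, 335670, 356406, 356406, 356406, 356406, 356404, 378678, 378673, 402224, 452403, 480562, 510512, 574258, 610095, 686127, 771887, 868141, 976426, 1159209, 1449001, 1811240, 2263845, 2829599, 3713560, 4873749, 6701069, 15077387, 5182741, 4210713, 3026460]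

theorem c177 : arcs 370440929 false 12277130 l177 12030701 = true := by decide +kernel

def l178 : List Nat := [2458658, 1920806, 1500198, 1265705, 1067819, 900397, 787504, 713520, 646193, 585265, 548147, 513331, 480819, 465204, 435763, 421683, 407603, 407603, 394547, 394547, 394547, 394547, 394545, 394545, 419121, 419120, 445232, 472880, 502320, 533552, 566832, 637488]

theorem c178 : arcs 370440929 false 12362632 l178 12277130 = true := by decide +kernel

def l179 : List Nat := [557616, 505136, 441648, 413489, 386867, 362035, 338995, 327988, 317494, 307255, 297526, 287797, 287798, 287799, 287799, 287797, 287796, 305719, 305715, 324659, 344883, 366386, 411955, 463410, 550189, 653097, 856870, 1231398, 1192486, 782374, 611113]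

theorem c179 : arcs 370440929 false 12418810 l179 12362632 = true := by decide +kernel

def l180 : List Nat := [515120, 434224, 379953, 344117, 311864, 282426, 255288, 238906, 223546, 209210, 202301, 189244, 182846, 176705, 170817, 170817, 164673, 164673, 164673, 164673, 164673, 164673, 164673, 164673, 164673]

theorem c180 : arcs 370440929 false 12441341 l180 12418810 = true := by decide +kernel

end H8.Siegel
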