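import Pool.Agent.H8.Siegel.D32

set_option autoImplicit false
set_option maxRecDepth 100000

namespace H8.Siegel

def l181 : List Nat := [164673, 174913, 174913, 168769, 168769, 162881, 162881, 162881, 162881, 157249, 157249, 157249, 157249, 157249, 157249, 157249, 157249, 157246, 166977, 166974, 166971, 177212, 188222, 188218]

theorem c181 : arcs 370440929 false 12456856 l181 12441341 = true := by decide +kernel

def l182 : List Nat := [199739, 212027, 225084, 238909, 238904, 253752, 269367, 286007, 303671, 322615, 362807, 408117, 459056, 573745, 717098, 941091, 1587740, 2679068, 1171999, 842279, 604973, 509746, 413745, 362036, 338999, 317497, 297530, 278586, 261178, 252476]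

theorem c182 : arcs 370440929 false 12519076 l182 12456856 = true := by decide +kernel

def l183 : List Nat := [236346, 228157, 213307, 206397, 199486, 192574, 186430, 180286, 174654, 168766, 168769, 162879, 162881, 157248, 157249, 151871, 151873, 151873, 151873, 151874, 151874, 151874, 151873, 151873]

theorem c183 : arcs 370440929 false 12535329 l183 12519076 = true := by decide +kernel

def l184 : List Nat := [151872, 151871, 151870, 161347, 161343, 161342, 171328, 171326, 181822, 181819, 193083, 205115, 217914, 231481, 245815, 276537, 293684, 330290, 371504, 440880, 523311, 654125, 817453, 689197, 538413, 470576, 396592, 346674]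

theorem c184 : arcs 370440929 false 12570044 l184 12535329 = true := by decide +kernel

def l185 : List Nat := [313911, 274487, 248631, 232507, 210490, 196926, 190526, 184382, 178494, 172350, 172350, 172350, 172350, 172350, 172350, 172350, 172350, 172350, 183102, 183102, 194366, 194366, 194366, 206398, 219198]

theorem c185 : arcs 370440929 false 12589399 l185 12570044 = true := by decide +kernel

end H8.Siegel
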