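import Pool.Agent.H8.Siegel.D33

set_option autoImplicit false
set_option maxRecDepth 100000

namespace H8.Siegel

def l186 : List Nat := [219198, 219198, 219198, 212030, 212030, 204862, 204862, 198462, 198462, 198462, 198462, 198462, 198462, 198462, 198462, 198462, 198462, 210750, 210750, 210750, 223806, 223806, 237630, 252475, 268090]

theorem c186 : arcs 370440929 false 12610151 l186 12589399 = true := by decide +kernel

def l187 : List Nat := [284728, 302391, 340026, 361271, 383797, 431669, 458548, 515635, 579888, 688432, 774443, 967978, 1149222, 1364515, 1620253, 2632725, 6252562, 2051356, 1473827, 1242916, 1048105, 851242, 744494, 627759, 568629, 497204, 450100, 407349, 368437, 344633, 312120, 292155, 282429]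

theorem c187 : arcs 370440929 false 12729953 l187 12610151 = true := by decide +kernel

def l188 : List Nat := [263995, 255035, 246844, 238908, 230972, 223291, 223292, 216124, 216124, 216125, 216126, 208956, 208956, 208955, 208955, 208955, 208955, 222012, 222011, 222011, 235835, 235835, 250427, 250427, 266043, 266043]

theorem c188 : arcs 370440929 false 12753272 l188 12729953 = true := by decide +kernel

def l189 : List Nat := [282427, 263995, 255035, 246843, 231227, 223291, 216123, 216125, 208956, 202300, 202302, 195388, 195388, 195390, 195390, 195390, 195389, 195388, 195387, 195387, 207419, 220221, 220219, 233784, 262966, 295732]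

theorem c189 : arcs 370440929 false 12775717 l189 12753272 = true := by decide +kernel

def l190 : List Nat := [351031, 394801, 468526, 556076, 729642, 1003050, 908586, 652330, 529964, 446767, 390706, 341556, 309046, 279352, 252728, 236347, 220987, 206395, 199485, 186428, 180285, 174655, 163388, 157501, 157504, 157506, 151874, 151874]

theorem c190 : arcs 370440929 false 12814611 l190 12775717 = true := by decide +kernel

end H8.Siegel
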