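import Pool.Agent.H8.Siegel.D34

set_option autoImplicit false
set_option maxRecDepth 100000

namespace H8.Siegel

def l191 : List Nat := [151874, 151874, 151874, 151874, 151874, 161346, 161346, 161346, 161346, 161346, 161346, 161346, 161346, 161346, 161346, 161346, 161346, 161346, 161346, 161346, 171330, 171330, 171325]

theorem c191 : arcs 370440929 false 12829033 l191 12814611 = true := by decide +kernel

def l192 : List Nat := [181823, 181820, 193085, 205119, 205115, 217915, 231483, 245819, 261179, 277307, 294457, 312632, 332087, 352821, 374836, 421684, 447794, 503602, 566321, 672298, 924202, 1270560, 2699801, 2699801, 1307168, 980263, 735018, 596781, 540209, 489010, 442674]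

theorem c192 : arcs 370440929 false 12903889 l192 12829033 = true := by decide +kernel

def l193 : List Nat := [400947, 362803, 339766, 307253, 297529, 278584, 269882, 260667, 251962, 243770, 243773, 235835, 235836, 227898, 227898, 227899, 227898, 227898, 227897, 227897, 227896, 241978, 241977, 241976, 257080, 257080, 272952]

theorem c193 : arcs 370440929 false 12931480 l193 12903889 = true := by decide +kernel

def l194 : List Nat := [289848, 289848, 307768, 326968, 347192, 335928, 325432, 314424, 304184, 294456, 284472, 274744, 274745, 265784, 265785, 265785, 265785, 265785, 265785, 265784, 265784, 282169, 282168, 299576, 318264, 337976, 380216]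

theorem c194 : arcs 370440929 false 12962711 l194 12931480 = true := by decide +kernel

def l195 : List Nat := [427571, 480817, 570670, 677419, 846634, 1058083, 1785120, 2008096, 1192225, 893991, 754218, 659758, 597553, 540977, 506930, 474930, 459060, 444469, 430388, 430390, 416564, 416564, 416562, 416562, 442421, 442417, 470066, 470063, 499247, 530222, 596273, 633389, 712490]

theorem c195 : arcs 370440929 false 13047479 l195 12962711 = true := by decide +kernel

end H8.Siegel
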