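import Pool.Agent.H8.Siegel.D35

set_option autoImplicit false
set_option maxRecDepth 100000

namespace H8.Siegel

def l196 : List Nat := [801319, 1001511, 1314343, 1190695, 1004071, 878376, 768040, 719916, 652075, 590378, 571694, 553262, 553262, 553262, 553262, 553262, 587822, 624430, 624430, 663342, 704558, 748590, 748590, 748590, 795182, 844846, 897578, 1009706, 1135912, 1348648, 1601319, 1901094, 2495013, 3274531, 4297501, 5908761]

theorem c196 : arcs 370440929 false 13216298 l196 13047479 = true := by decide +kernel

def l197 : List Nat := [8124438, 11171087, 36305928, 12479755, 10529296, 7567638, 5438748, 3908381, 2930977, 2289444, 1859624, 1510952, 1321769, 1156139, 1011499, 916011, 829739, 751659, 704555, 682542, 660783, 639535, 619311, 599342, 599343, 599343, 599340, 599339, 636716, 636713, 676393, 718633, 808234, 858664, 965928, 1146664, 1218088, 1027368, 866344, 730665]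

theorem c197 : arcs 370440929 false 13711202 l197 13216298 = true := by decide +kernel

def l198 : List Nat := [661803, 620079, 580911, 544047, 526385, 509747, 493107, 477234, 477235, 477237, 477236, 477235, 477232, 506931, 506927, 538415, 571951, 643375, 723757, 814120, 1017637, 1462305, 2284833, 1356065, 974373, 821545, 692781, 584239, 511025, 447027, 404789, 366391, 331319]

theorem c198 : arcs 370440929 false 13798537 l198 13711202 = true := by decide +kernel

def l199 : List Nat := [310074, 290106, 280378, 280378, 270906, 270906, 270907, 262202, 262202, 262202, 262202, 278586, 278586, 278586, 278586, 295994, 295994, 295994, 295994, 286522, 276538, 267578, 258618, 258618, 250170, 250170]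

theorem c199 : arcs 370440929 false 13826535 l199 13798537 = true := by decide +kernel

def l200 : List Nat := [241978, 241978, 241979, 241979, 241979, 241979, 241979, 241978, 241978, 241978, 257082, 257082, 272954, 272950, 289845, 307764, 346167, 367669, 390452, 414771, 466484, 495411, 557103, 661548, 826921, 1084967, 1423646, 3381018, 2112794, 1253922]

theorem c200 : arcs 370440929 false 13896296 l200 13826535 = true := by decide +kernel

end H8.Siegel
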