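import Pool.Agent.H8.Siegel.D36

set_option autoImplicit false
set_option maxRecDepth 100000

namespace H8.Siegel

def l201 : List Nat := [901160, 704045, 571698, 500019, 452915, 424246, 397369, 359989, 347961, 325432, 314428, 294458, 284476, 266042, 256826, 248123, 239932, 231996, 224316, 216892, 216894, 209214, 209215, 202302, 202302, 202304, 195390]

theorem c201 : arcs 370440929 false 13931446 l201 13896296 = true := by decide +kernel

def l202 : List Nat := [195390, 195390, 195390, 195390, 195389, 195387, 207423, 207422, 207419, 220222, 220218, 233788, 233785, 248378, 263737, 280120, 297527, 315956, 355381, 377395, 424496, 503856, 566828, 708396, 929324, 870700, 679980, 552493]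

theorem c202 : arcs 370440929 false 13970804 l202 13931446 = true := by decide +kernel

def l203 : List Nat := [483120, 422195, 369203, 334388, 302645, 283194, 256312, 239930, 224573, 209982, 203070, 203070, 196158, 196158, 196158, 196158, 196158, 196158, 196158, 196158, 208190, 208190, 208190, 220990, 220990, 234558]

theorem c203 : arcs 370440929 false 13995806 l203 13970804 = true := by decide +kernel

def l204 : List Nat := [234558, 234558, 226878, 226878, 226878, 219198, 219198, 219198, 219198, 219198, 219198, 219198, 219198, 219198, 219198, 219198, 219198, 232766, 232766, 247102, 247098, 262458, 278841, 296248, 314679]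

theorem c204 : arcs 370440929 false 14018816 l204 13995806 = true := by decide +kernel

def l205 : List Nat := [334135, 375865, 399159, 423989, 476981, 536373, 603188, 678449, 763181, 906028, 1075753, 1277223, 1516325, 2274331, 7107091, 2109464, 1450273, 1268773, 1070119, 936236, 789551, 665904, 582449, 527412, 477751, 432695, 405303, 379193, 355130, 332346, 311354, 291898]

theorem c205 : arcs 370440929 false 14140427 l205 14018816 = true := by decide +kernel

end H8.Siegel
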