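import Pool.Agent.H8.Siegel.D37

set_option autoImplicit false
set_option maxRecDepth 100000

namespace H8.Siegel

def l206 : List Nat := [282428, 263995, 255035, 246845, 238910, 230974, 223295, 216127, 208958, 202302, 195389, 195391, 188478, 188479, 182590, 182590, 182591, 182591, 182592, 182592, 182591, 182590, 182590, 182588, 182587]

theorem c206 : arcs 370440929 false 14160519 l206 14140427 = true := by decide +kernel

def l207 : List Nat := [193855, 193852, 193851, 205884, 205883, 218683, 232254, 232248, 246584, 261943, 278071, 295220, 332087, 352819, 396851, 446260, 501810, 564528, 670000, 670000, 586032, 494128, 447537, 405300, 366645, 332085, 311095, 290874]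

theorem c207 : arcs 370440929 false 14199288 l207 14160519 = true := by decide +kernel

def l208 : List Nat := [272699, 255291, 246844, 238910, 230974, 223293, 216124, 216126, 208956, 208957, 208958, 208958, 208958, 208958, 208957, 208956, 208955, 222015, 222012, 222011, 235837, 235835, 250428, 250427, 266043]

theorem c208 : arcs 370440929 false 14221491 l208 14199288 = true := by decide +kernel

def l209 : List Nat := [282428, 282423, 299831, 337207, 358196, 402739, 452913, 537648, 672044, 881958, 1267488, 2851614, 1514782, 993573, 745003, 604976, 509745, 445492, 403510, 365623, 331063, 309818, 299579, 280635, 271675, 262715, 254268, 246076, 238140, 230459]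

theorem c209 : arcs 370440929 false 14287632 l209 14221491 = true := by decide +kernel

def l210 : List Nat := [230461, 223036, 223038, 215356, 215357, 215359, 208188, 208188, 208188, 208188, 208188, 208188, 208187, 220991, 220988, 220987, 234558, 234555, 249149, 249147, 264507, 280891, 298299, 316728, 336438, 357428]

theorem c210 : arcs 370440929 false 14312097 l210 14287632 = true := by decide +kernel

end H8.Siegel
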