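import Pool.Agent.H8.Siegel.D38

set_option autoImplicit false
set_option maxRecDepth 100000

namespace H8.Siegel

def l211 : List Nat := [401972, 452148, 508464, 603694, 716586, 940073, 1292585, 1009449, 756777, 662061, 558125, 488240, 426804, 386356, 361780, 350005, 338230, 327221, 327223, 327225, 327224, 327223, 327221, 327220, 347445, 347444, 368948, 391988, 416308, 442164, 469556]

theorem c211 : arcs 370440929 false 14371965 l211 14312097 = true := by decide +kernel

def l212 : List Nat := [498740, 498740, 498740, 482612, 466740, 451124, 451124, 451125, 451126, 451125, 451125, 451124, 451124, 479284, 479284, 509236, 540980, 574772, 610612, 686900, 729647, 866353, 974638, 1096235, 1301545, 1545255, 1931557, 2414370, 3017758, 3960600, 4950551, 19183116, 4795668, 4195865]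

theorem c212 : arcs 370440929 false 14609845 l212 14371965 = true := by decide +kernel

def l213 : List Nat := [3146781, 2458402, 1997093, 1622313, 1317929, 1153069, 972589, 850478, 743983, 673841, 631602, 591667, 554035, 519218, 502580, 470578, 455218, 455221, 440628, 426290, 426291, 426291, 426290, 426290, 426290, 426289, 452914, 452913, 481073, 481073, 511025, 542769]

theorem c213 : arcs 370440929 false 14709304 l213 14609845 = true := by decide +kernel

def l214 : List Nat := [576561, 648497, 587313, 550193, 498225, 466737, 436785, 422707, 395826, 383027, 370739, 370742, 358965, 358965, 358965, 358965, 358964, 358962, 381236, 381234, 405041, 430129, 483889, 544302, 645931, 766761, 958246, 1317158, 1481766, 1064486, 831276, 674858]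

theorem c214 : arcs 370440929 false 14780499 l214 14709304 = true := by decide +kernel

def l215 : List Nat := [590382, 516401, 467762, 423476, 383285, 358966, 336182, 325436, 304440, 294458, 284475, 274747, 265786, 256826, 256828, 248122, 248124, 239930, 239931, 239932, 239932, 239931, 239930, 239930, 239929, 239929, 254780]

theorem c215 : arcs 370440929 false 14812719 l215 14780499 = true := by decide +kernel

end H8.Siegel
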