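import Pool.Agent.H8.Siegel.D40

set_option autoImplicit false
set_option maxRecDepth 100000

namespace H8.Siegel

def l221 : List Nat := [469042, 469042, 469042, 498226, 529202, 562221, 667439, 750635, 844328, 1002536, 1190182, 1561891, 2147363, 1610531, 1207587, 1056296, 923945, 836908, 758061, 710448, 643118, 622897, 583727, 565297, 547633, 547634, 529714, 529714, 529714, 529714, 529714, 529712, 562738, 562736]

theorem c221 : arcs 370440929 false 15356858 l221 15254993 = true := by decide +kernel

def l222 : List Nat := [597810, 597807, 634927, 674607, 716590, 761134, 808492, 858923, 966188, 1026346, 1154602, 1298727, 1623334, 2130464, 2929180, 5858324, 5675028, 3014686, 2355232, 1839907, 1551911, 1357607, 1229608, 1075495, 974376, 912939, 855339, 801323, 801325, 775723, 775724, 775724, 775723, 775723, 824107, 824107, 875563, 930091]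

theorem c222 : arcs 370440929 false 15561597 l222 15356858 = true := by decide +kernel

def l223 : List Nat := [988203, 1049899, 1016619, 984363, 953131, 953131, 953131, 953131, 1012523, 1012523, 1138987, 1281320, 1441318, 1711140, 2031649, 2412575, 2864923, 5013272, 4855576, 3034393, 2559776, 2239264, 2098723, 1967139, 1905444, 1905445, 1905445, 1905444, 2024485, 2024481, 2150944, 2419744, 2722076, 3572508, 4242204, 3711516, 3363356, 3152925, 3053853, 3053853, 3244573, 3650077, 4106268, 4876060]

theorem c223 : arcs 370440929 false 15965956 l223 15561597 = true := by decide +kernel

def l224 : List Nat := [6399516, 9198874, 13798166, 22421780, 35033869, 52550665, 68279813]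

theorem c224 : arcs 370440929 false 16777216 l224 15965956 = true := by decide +kernel

end H8.Siegel
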