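import Pool.Agent.H8.Siegel.Arcs
import Pool.Agent.H8.Siegel.D00
import Pool.Agent.H8.Siegel.D01
import Pool.Agent.H8.Siegel.D02
import Pool.Agent.H8.Siegel.D03
import Pool.Agent.H8.Siegel.D04
import Pool.Agent.H8.Siegel.D05
import Pool.Agent.H8.Siegel.D06
import Pool.Agent.H8.Siegel.D07
import Pool.Agent.H8.Siegel.D08
import Pool.Agent.H8.Siegel.D09
import Pool.Agent.H8.Siegel.D10
import Pool.Agent.H8.Siegel.D11
import Pool.Agent.H8.Siegel.D12
import Pool.Agent.H8.Siegel.D13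
import Pool.Agent.H8.Siegel.D14
import Pool.Agent.H8.Siegel.D15
import Pool.Agent.H8.Siegel.D16
import Pool.Agent.H8.Siegel.D17
import Pool.Agent.H8.Siegel.D18
import Pool.Agent.H8.Siegel.D19
import Pool.Agent.H8.Siegel.D20
import Pool.Agent.H8.Siegel.D21
import Pool.Agent.H8.Siegel.D22
import Pool.Agent.H8.Siegel.D23
import Pool.Agent.H8.Siegel.D24
import Pool.Agent.H8.Siegel.D25
import Pool.Agent.H8.Siegel.D26
import Pool.Agent.H8.Siegel.D27
import Pool.Agent.H8.Siegel.D28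
import Pool.Agent.H8.Siegel.D29
import Pool.Agent.H8.Siegel.D30
import Pool.Agent.H8.Siegel.D31
import Pool.Agent.H8.Siegel.D32
import Pool.Agent.H8.Siegel.D33
import Pool.Agent.H8.Siegel.D34
import Pool.Agent.H8.Siegel.D35
import Pool.Agent.H8.Siegel.D36
import Pool.Agent.H8.Siegel.D37
import Pool.Agent.H8.Siegel.D38
import Pool.Agent.H8.Siegel.D39
import Pool.Agent.H8.Siegel.D40
import Pool.Agent.H8.Siegel.D41
import Pool.Agent.H8.Siegel.D42
import Pool.Agent.H8.Siegel.D43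
import Pool.Agent.H8.Siegel.D44

set_option autoImplicit false

namespace H8.Siegel

/-- positive interval statement -/
def Cov (sg : Bool) (a b : ℕ) : Prop :=
  ∀ t : ℝ, (a : ℝ) < t → t ≤ b → Good (69 / 200) (lamP sg (t / 16777216))

theorem cov_of_arcs {sg : Bool} {a b : ℕ} {l : List ℕ} (h : arcs 370440929 sg b l a = true) : Cov sg a b := by
  intro t h1 h2
  rcases arcs_sound (R1 := 370440929) (R := 69 / 200) (by norm_num) (by norm_num) (by norm_num) l a h h1.le h2 with h3 | h3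
  · exact h3
  · exact absurd h3 h1.ne'

theorem Cov.trans {sg : Bool} {a b c : ℕ} (h : Cov sg a b) (h' : Cov sg b c) : Cov sg a c := by
  intro t h1 h2
  rcases le_or_gt t b with h3 | h3
  · exact h t h1 h3
  · exact h' t h3 h2

theorem covT : Cov true 0 16777216 :=
  (Cov.trans (Cov.trans (Cov.trans (Cov.trans (cov_of_arcs c0) (Cov.trans (cov_of_arcs c1)
  (cov_of_arcs c2))) (Cov.trans (cov_of_arcs c3) (Cov.trans (cov_of_arcs c4) (cov_of_arcs c5))))
  (Cov.trans (Cov.trans (cov_of_arcs c6) (Cov.trans (cov_of_arcs c7) (cov_of_arcs c8))) (Cov.trans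
  (Cov.trans (cov_of_arcs c9) (cov_of_arcs c10)) (Cov.trans (cov_of_arcs c11) (cov_of_arcs
  c12))))) (Cov.trans (Cov.trans (Cov.trans (cov_of_arcs c13) (Cov.trans (cov_of_arcs c14)
  (cov_of_arcs c15))) (Cov.trans (Cov.trans (cov_of_arcs c16) (cov_of_arcs c17)) (Cov.trans
  (cov_of_arcs c18) (cov_of_arcs c19)))) (Cov.trans (Cov.trans (cov_of_arcs c20) (Cov.trans
  (cov_of_arcs c21) (cov_of_arcs c22))) (Cov.trans (Cov.trans (cov_of_arcs c23) (cov_of_arcs c24))
  (Cov.trans (cov_of_arcs c25) (cov_of_arcs c26))))))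

theorem covF : Cov false 0 16777216 :=
  (Cov.trans (Cov.trans (Cov.trans (Cov.trans (Cov.trans (Cov.trans (Cov.trans (cov_of_arcs c27)
  (Cov.trans (cov_of_arcs c28) (cov_of_arcs c29))) (Cov.trans (cov_of_arcs c30) (Cov.trans
  (cov_of_arcs c31) (cov_of_arcs c32)))) (Cov.trans (Cov.trans (cov_of_arcs c33) (Cov.trans
  (cov_of_arcs c34) (cov_of_arcs c35))) (Cov.trans (cov_of_arcs c36) (Cov.trans (cov_of_arcs c37)
  (cov_of_arcs c38))))) (Cov.trans (Cov.trans (Cov.trans (cov_of_arcs c39) (Cov.trans (cov_of_arcs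
  c40) (cov_of_arcs c41))) (Cov.trans (cov_of_arcs c42) (Cov.trans (cov_of_arcs c43) (cov_of_arcs
  c44)))) (Cov.trans (Cov.trans (cov_of_arcs c45) (Cov.trans (cov_of_arcs c46) (cov_of_arcs c47)))
  (Cov.trans (cov_of_arcs c48) (Cov.trans (cov_of_arcs c49) (cov_of_arcs c50)))))) (Cov.trans
  (Cov.trans (Cov.trans (Cov.trans (cov_of_arcs c51) (Cov.trans (cov_of_arcs c52) (cov_of_arcs
  c53))) (Cov.trans (cov_of_arcs c54) (Cov.trans (cov_of_arcs c55) (cov_of_arcs c56)))) (Cov.trans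
  (Cov.trans (cov_of_arcs c57) (Cov.trans (cov_of_arcs c58) (cov_of_arcs c59))) (Cov.trans
  (cov_of_arcs c60) (Cov.trans (cov_of_arcs c61) (cov_of_arcs c62))))) (Cov.trans (Cov.trans
  (Cov.trans (cov_of_arcs c63) (Cov.trans (cov_of_arcs c64) (cov_of_arcs c65))) (Cov.trans
  (cov_of_arcs c66) (Cov.trans (cov_of_arcs c67) (cov_of_arcs c68)))) (Cov.trans (Cov.trans
  (cov_of_arcs c69) (Cov.trans (cov_of_arcs c70) (cov_of_arcs c71))) (Cov.trans (Cov.trans
  (cov_of_arcs c72) (cov_of_arcs c73)) (Cov.trans (cov_of_arcs c74) (cov_of_arcs c75)))))))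
  (Cov.trans (Cov.trans (Cov.trans (Cov.trans (Cov.trans (cov_of_arcs c76) (Cov.trans (cov_of_arcs
  c77) (cov_of_arcs c78))) (Cov.trans (cov_of_arcs c79) (Cov.trans (cov_of_arcs c80) (cov_of_arcs
  c81)))) (Cov.trans (Cov.trans (cov_of_arcs c82) (Cov.trans (cov_of_arcs c83) (cov_of_arcs c84)))
  (Cov.trans (cov_of_arcs c85) (Cov.trans (cov_of_arcs c86) (cov_of_arcs c87))))) (Cov.trans
  (Cov.trans (Cov.trans (cov_of_arcs c88) (Cov.trans (cov_of_arcs c89) (cov_of_arcs c90)))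
  (Cov.trans (cov_of_arcs c91) (Cov.trans (cov_of_arcs c92) (cov_of_arcs c93)))) (Cov.trans
  (Cov.trans (cov_of_arcs c94) (Cov.trans (cov_of_arcs c95) (cov_of_arcs c96))) (Cov.trans
  (Cov.trans (cov_of_arcs c97) (cov_of_arcs c98)) (Cov.trans (cov_of_arcs c99) (cov_of_arcs
  c100)))))) (Cov.trans (Cov.trans (Cov.trans (Cov.trans (cov_of_arcs c101) (Cov.trans
  (cov_of_arcs c102) (cov_of_arcs c103))) (Cov.trans (cov_of_arcs c104) (Cov.trans (cov_of_arcs
  c105) (cov_of_arcs c106)))) (Cov.trans (Cov.trans (cov_of_arcs c107) (Cov.trans (cov_of_arcs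
  c108) (cov_of_arcs c109))) (Cov.trans (cov_of_arcs c110) (Cov.trans (cov_of_arcs c111)
  (cov_of_arcs c112))))) (Cov.trans (Cov.trans (Cov.trans (cov_of_arcs c113) (Cov.trans
  (cov_of_arcs c114) (cov_of_arcs c115))) (Cov.trans (cov_of_arcs c116) (Cov.trans (cov_of_arcs
  c117) (cov_of_arcs c118)))) (Cov.trans (Cov.trans (cov_of_arcs c119) (Cov.trans (cov_of_arcs
  c120) (cov_of_arcs c121))) (Cov.trans (Cov.trans (cov_of_arcs c122) (cov_of_arcs c123))
  (Cov.trans (cov_of_arcs c124) (cov_of_arcs c125)))))))) (Cov.trans (Cov.trans (Cov.trans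
  (Cov.trans (Cov.trans (Cov.trans (cov_of_arcs c126) (Cov.trans (cov_of_arcs c127) (cov_of_arcs
  c128))) (Cov.trans (cov_of_arcs c129) (Cov.trans (cov_of_arcs c130) (cov_of_arcs c131))))
  (Cov.trans (Cov.trans (cov_of_arcs c132) (Cov.trans (cov_of_arcs c133) (cov_of_arcs c134)))
  (Cov.trans (cov_of_arcs c135) (Cov.trans (cov_of_arcs c136) (cov_of_arcs c137))))) (Cov.trans
  (Cov.trans (Cov.trans (cov_of_arcs c138) (Cov.trans (cov_of_arcs c139) (cov_of_arcs c140)))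
  (Cov.trans (cov_of_arcs c141) (Cov.trans (cov_of_arcs c142) (cov_of_arcs c143)))) (Cov.trans
  (Cov.trans (cov_of_arcs c144) (Cov.trans (cov_of_arcs c145) (cov_of_arcs c146))) (Cov.trans
  (cov_of_arcs c147) (Cov.trans (cov_of_arcs c148) (cov_of_arcs c149)))))) (Cov.trans (Cov.trans
  (Cov.trans (Cov.trans (cov_of_arcs c150) (Cov.trans (cov_of_arcs c151) (cov_of_arcs c152)))
  (Cov.trans (cov_of_arcs c153) (Cov.trans (cov_of_arcs c154) (cov_of_arcs c155)))) (Cov.trans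
  (Cov.trans (cov_of_arcs c156) (Cov.trans (cov_of_arcs c157) (cov_of_arcs c158))) (Cov.trans
  (cov_of_arcs c159) (Cov.trans (cov_of_arcs c160) (cov_of_arcs c161))))) (Cov.trans (Cov.trans
  (Cov.trans (cov_of_arcs c162) (Cov.trans (cov_of_arcs c163) (cov_of_arcs c164))) (Cov.trans
  (cov_of_arcs c165) (Cov.trans (cov_of_arcs c166) (cov_of_arcs c167)))) (Cov.trans (Cov.trans
  (cov_of_arcs c168) (Cov.trans (cov_of_arcs c169) (cov_of_arcs c170))) (Cov.trans (Cov.trans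
  (cov_of_arcs c171) (cov_of_arcs c172)) (Cov.trans (cov_of_arcs c173) (cov_of_arcs c174)))))))
  (Cov.trans (Cov.trans (Cov.trans (Cov.trans (Cov.trans (cov_of_arcs c175) (Cov.trans
  (cov_of_arcs c176) (cov_of_arcs c177))) (Cov.trans (cov_of_arcs c178) (Cov.trans (cov_of_arcs
  c179) (cov_of_arcs c180)))) (Cov.trans (Cov.trans (cov_of_arcs c181) (Cov.trans (cov_of_arcs
  c182) (cov_of_arcs c183))) (Cov.trans (cov_of_arcs c184) (Cov.trans (cov_of_arcs c185)
  (cov_of_arcs c186))))) (Cov.trans (Cov.trans (Cov.trans (cov_of_arcs c187) (Cov.trans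
  (cov_of_arcs c188) (cov_of_arcs c189))) (Cov.trans (cov_of_arcs c190) (Cov.trans (cov_of_arcs
  c191) (cov_of_arcs c192)))) (Cov.trans (Cov.trans (cov_of_arcs c193) (Cov.trans (cov_of_arcs
  c194) (cov_of_arcs c195))) (Cov.trans (Cov.trans (cov_of_arcs c196) (cov_of_arcs c197))
  (Cov.trans (cov_of_arcs c198) (cov_of_arcs c199)))))) (Cov.trans (Cov.trans (Cov.trans
  (Cov.trans (cov_of_arcs c200) (Cov.trans (cov_of_arcs c201) (cov_of_arcs c202))) (Cov.trans
  (cov_of_arcs c203) (Cov.trans (cov_of_arcs c204) (cov_of_arcs c205)))) (Cov.trans (Cov.trans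
  (cov_of_arcs c206) (Cov.trans (cov_of_arcs c207) (cov_of_arcs c208))) (Cov.trans (cov_of_arcs
  c209) (Cov.trans (cov_of_arcs c210) (cov_of_arcs c211))))) (Cov.trans (Cov.trans (Cov.trans
  (cov_of_arcs c212) (Cov.trans (cov_of_arcs c213) (cov_of_arcs c214))) (Cov.trans (cov_of_arcs
  c215) (Cov.trans (cov_of_arcs c216) (cov_of_arcs c217)))) (Cov.trans (Cov.trans (cov_of_arcs
  c218) (Cov.trans (cov_of_arcs c219) (cov_of_arcs c220))) (Cov.trans (Cov.trans (cov_of_arcs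
  c221) (cov_of_arcs c222)) (Cov.trans (cov_of_arcs c223) (cov_of_arcs c224)))))))))

end H8.Siegel
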