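import Pool.Agent.H8.Siegel.D09

set_option autoImplicit false
set_option maxRecDepth 100000

namespace H8.Siegel

def l66 : List Nat := [72518, 72518, 72517, 76873, 76870, 76869, 76868, 81478, 81476, 86342, 86340, 91717, 91714, 97348, 103236, 103232, 109631, 116287, 123455, 131133, 147519, 156730, 176185]

theorem c66 : arcs 370440929 false 4378367 l66 4369354 = true := by decide +kernel

def l67 : List Nat := [198200, 222773, 264243, 313647, 391980, 562988, 562988, 421932, 342833, 278065, 234040, 197176, 184635, 166970, 161341, 150844, 145469, 140605, 135740, 135741, 135743, 135744, 135744, 135743, 135741, 135739, 135738]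

theorem c67 : arcs 370440929 false 4402433 l67 4378367 = true := by decide +kernel

def l68 : List Nat := [144187, 144186, 153146, 162618, 172602, 183354, 194616, 206648, 219448, 246840, 262200, 254008, 238136, 223032, 215354, 201528, 194616, 188217, 188218, 181306, 181307, 175418, 175418, 175418, 175418, 175418, 175418]

theorem c68 : arcs 370440929 false 4422771 l68 4402433 = true := by decide +kernel

def l69 : List Nat := [175417, 186171, 186170, 197692, 197689, 209978, 223035, 236860, 251451, 267066, 283704, 301368, 339000, 381236, 428850, 508978, 572462, 679468, 849196, 1061416, 1326629, 1740832, 2176025, 2855954, 7496717, 2342681, 1975835, 1481759, 1203749, 940071, 792877, 643885, 562993]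

theorem c69 : arcs 370440929 false 4551973 l69 4422771 = true := by decide +kernel

def l70 : List Nat := [474418, 414774, 362806, 328502, 307513, 278328, 260153, 243770, 228410, 213818, 206651, 193082, 186683, 180283, 174651, 168763, 168764, 162875, 162875, 162877, 162878, 162878, 162876, 162875, 162874, 162872]

theorem c70 : arcs 370440929 false 4574847 l70 4551973 = true := by decide +kernel

end H8.Siegel
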