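import Pool.Agent.H8.Siegel.D24

set_option autoImplicit false
set_option maxRecDepth 100000

namespace H8.Siegel

def l141 : List Nat := [256820, 224311, 203066, 183615, 160314, 150079, 135743, 127042, 122946, 119106, 115010, 115011, 111170, 111170, 111170, 111170, 111170, 111170, 111170, 111170, 118082, 118082, 118082, 125250]

theorem c141 : arcs 370440929 false 7305834 l141 7293020 = true := by decide +kernel

def l142 : List Nat := [125250, 132930, 132930, 141122, 141122, 141122, 141122, 136002, 136002, 136002, 131138, 131138, 127042, 127042, 127042, 127042, 127042, 127043, 127042, 127042, 127042, 127042, 127042]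

theorem c142 : arcs 370440929 false 7317638 l142 7305834 = true := by decide +kernel

def l143 : List Nat := [134980, 134978, 134978, 143170, 143170, 151874, 151870, 161341, 171324, 181819, 204349, 216891, 230202, 258875, 275000, 309303, 347957, 391219, 440111, 522287, 620075, 736041, 827943, 1189920, 3420948, 1924116, 1082143, 845095, 712744, 623661]

theorem c143 : arcs 370440929 false 7382821 l143 7317638 = true := by decide +kernel

def l144 : List Nat := [526128, 443443, 387894, 338999, 307002, 277562, 251194, 235067, 219965, 205630, 192318, 179518, 173122, 162112, 151615, 146753, 141379, 132417, 127810, 123202, 123205, 119109, 119109, 115013, 115013]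

theorem c144 : arcs 370440929 false 7403575 l144 7382821 = true := by decide +kernel

def l145 : List Nat := [115013, 115013, 115013, 115013, 115013, 115013, 115013, 115013, 115013, 115013, 115013, 115013, 111173, 111173, 107333, 107333, 107333, 107333, 103493, 103493, 103493, 103493]

theorem c145 : arcs 370440929 false 7413123 l145 7403575 = true := by decide +kernel

end H8.Siegel
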