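import Pool.Agent.H8.Siegel.D39

set_option autoImplicit false
set_option maxRecDepth 100000

namespace H8.Siegel

def l216 : List Nat := [254777, 254777, 270650, 270648, 287546, 287544, 305465, 305462, 324406, 344632, 366137, 366133, 388917, 412981, 464437, 493361, 585522, 658477, 781610, 976934, 1343266, 2350363, 3378203, 1583135, 1137702, 853290, 719664, 606511, 530481, 480562, 450101]

theorem c216 : arcs 370440929 false 14898001 l216 14812719 = true := by decide +kernel

def l217 : List Nat := [421429, 407606, 382005, 369718, 357943, 346169, 335161, 323897, 313400, 313403, 303417, 303418, 293688, 293689, 293689, 293688, 293687, 293686, 293685, 311863, 311861, 331318, 331317, 351797, 373557, 396851, 421425, 473905]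

theorem c217 : arcs 370440929 false 14935250 l217 14898001 = true := by decide +kernel

def l218 : List Nat := [533042, 566317, 636971, 756266, 945194, 1181482, 1033258, 839466, 733995, 641837, 581166, 526127, 492593, 461621, 432181, 405045, 379188, 366901, 354869, 343349, 331829, 331831, 321333, 321334, 321335, 321335, 341305, 341305, 341305, 341305]

theorem c218 : arcs 370440929 false 14995889 l218 14935250 = true := by decide +kernel

def l219 : List Nat := [341302, 362553, 362550, 362549, 385077, 409142, 409139, 434483, 461619, 490290, 520754, 553265, 622388, 661041, 702255, 789807, 888367, 999211, 1186091, 1408297, 1671972, 1985313, 2357279, 3388441, 10165264, 4288017, 2947609, 2302495, 1942561, 1638952, 1382696, 1166120, 1056302, 923950, 808238]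

theorem c219 : arcs 370440929 false 15192662 l219 14995889 = true := by decide +kernel

def l220 : List Nat := [731950, 662830, 620849, 562224, 544308, 509746, 493106, 477234, 477235, 462130, 462131, 462131, 462131, 462130, 462130, 462130, 490802, 490802, 521266, 521266, 553778, 588338, 551218, 533554, 516658, 500274, 484402, 484403, 469042, 469042, 469042]

theorem c220 : arcs 370440929 false 15254993 l220 15192662 = true := by decide +kernel

end H8.Siegel
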