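import Pool.Agent.H8.Siegel.Elim

set_option autoImplicit false

namespace H8.Siegel

open Polynomial Finset

/-- residues -/
def Rep (Q n : ℕ) (z : ℤ) : Prop := (Q : ℤ) ∣ ((n : ℤ) - z)

theorem Rep.mod {Q n : ℕ} {z : ℤ} (h : Rep Q n z) : Rep Q (n % Q) z := by
  unfold Rep at *
  have : ((n % Q : ℕ) : ℤ) - z = ((n : ℤ) - z) - Q * (n / Q : ℕ) := by
    have := Nat.mod_add_div n Q
    have h2 : (n : ℤ) = (n % Q : ℕ) + Q * (n / Q : ℕ) := by exact_mod_cast this.symm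
    linarith
  rw [this]
  exact dvd_sub h (dvd_mul_right _ _)

theorem Rep.mul {Q a b : ℕ} {z w : ℤ} (h : Rep Q a z) (h' : Rep Q b w) :
    Rep Q (a * b) (z * w) := by
  unfold Rep at *
  have : ((a * b : ℕ) : ℤ) - z * w = ((a : ℤ) - z) * b + z * ((b : ℤ) - w) := by
    push_cast; ring
  rw [this]
  exact dvd_add (Dvd.dvd.mul_right h _) (Dvd.dvd.mul_left h' _)

theorem Rep.add {Q a b : ℕ} {z w : ℤ} (h : Rep Q a z) (h' : Rep Q b w) :
    Rep Q (a + b) (z + w) := by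
  unfold Rep at *
  have : ((a + b : ℕ) : ℤ) - (z + w) = ((a : ℤ) - z) + ((b : ℤ) - w) := by
    push_cast; ring
  rw [this]
  exact dvd_add h h'

theorem Rep.nat (Q a : ℕ) : Rep Q a a := by unfold Rep; simp

theorem Rep.neg_nat {Q t : ℕ} (h : t ≤ Q) : Rep Q (Q - t) (-t) := by
  unfold Rep
  rw [Nat.cast_sub h]
  exact ⟨1, by ring⟩

theorem Rep.neg {Q n : ℕ} {z : ℤ} (h : Rep Q n z) (hn : n ≤ Q) : Rep Q (Q - n) (-z) := by
  unfold Rep at *
  rw [Nat.cast_sub hn]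
  have : (Q : ℤ) - n - -z = Q * 1 - (n - z) := by ring
  rw [this]
  exact dvd_sub (dvd_mul_right _ _) h

/-- a small residue is exact -/
theorem Rep.eq_of_nonneg {Q n : ℕ} {z : ℤ} (h : Rep Q n z) (hn : n < Q) (h0 : 0 ≤ z)
    (h1 : z < Q) : (n : ℤ) = z := by
  obtain ⟨t, ht⟩ := h
  have hn' : (n : ℤ) < Q := by exact_mod_cast hn
  have hn0 : (0 : ℤ) ≤ n := Int.natCast_nonneg n
  have : t = 0 := by
    by_contra hne
    rcases lt_or_gt_of_ne hne with h2 | h2
    · have : (Q : ℤ) * t ≤ Q * (-1) := mul_le_mul_of_nonneg_left (by omega) (by linarith)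
      linarith
    · have : (Q : ℤ) * 1 ≤ Q * t := mul_le_mul_of_nonneg_left (by omega) (by linarith)
      linarith
  rw [this] at ht; linarith

theorem Rep.rabs {Q n : ℕ} {z : ℤ} (h : Rep Q n z) (hn : n < Q) (hz : 2 * |z| < Q) :
    ((rabs Q n : ℕ) : ℤ) = |z| := by
  rw [rabs_eq]
  rcases le_or_gt 0 z with h0 | h0
  · have e := h.eq_of_nonneg hn h0 (by rw [abs_of_nonneg h0] at hz; linarith)
    rw [abs_of_nonneg h0] at hz ⊢
    have : n + n ≤ Q := by
      have : (n : ℤ) + n ≤ Q := by rw [e]; linarith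
      exact_mod_cast this
    rw [if_pos this, e]
  · have h2 : Rep Q n (z + Q) := by
      unfold Rep at *
      have : (n : ℤ) - (z + Q) = (n - z) - Q * 1 := by ring
      rw [this]; exact dvd_sub h (dvd_mul_right _ _)
    rw [abs_of_neg h0] at hz ⊢
    have e := h2.eq_of_nonneg hn (by linarith) (by linarith)
    have : ¬ (n + n ≤ Q) := by
      intro hh
      have : (n : ℤ) + n ≤ Q := by exact_mod_cast hh
      rw [e] at this; linarith
    rw [if_neg this, Nat.cast_sub hn.le, e]; ring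

theorem eval_low (P : ℤ[X]) (b : ℤ) (k : ℕ) :
    ∃ r : ℤ, P.eval b = ∑ i ∈ range k, P.coeff i * b ^ i + b ^ k * (P.coeff k + b * r) := by
  induction k generalizing P with
  | zero =>
    refine ⟨(divX P).eval b, ?_⟩
    conv_lhs => rw [← divX_mul_X_add P]
    simp; ring
  | succ k ih =>
    obtain ⟨r, hr⟩ := ih (divX P)
    refine ⟨r, ?_⟩
    conv_lhs => rw [← divX_mul_X_add P]
    rw [eval_add, eval_mul, eval_X, eval_C, hr, Finset.sum_range_succ']
    simp only [coeff_divX]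
    rw [add_mul, Finset.sum_mul, pow_zero, mul_one]
    have : ∀ i ∈ range k, P.coeff (i + 1) * b ^ i * b = P.coeff (i + 1) * b ^ (i + 1) := by
      intro i _; ring
    rw [Finset.sum_congr rfl this]
    ring

theorem low_bound (f : ℕ → ℤ) (k : ℕ) (h : ∀ i < k, |f i| < 2 ^ 78) :
    2 * |∑ i ∈ range k, f i * (2 ^ 80) ^ i| < (2 ^ 80) ^ k := by
  induction k with
  | zero => simp
  | succ k ih =>
    rw [Finset.sum_range_succ]
    have h1 := ih fun i hi => h i (by omega)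
    have h2 := h k (by omega)
    have h3 : |f k * (2 ^ 80) ^ k| ≤ 2 ^ 78 * (2 ^ 80) ^ k := by
      rw [abs_mul, abs_of_nonneg (by positivity : (0 : ℤ) ≤ (2 ^ 80) ^ k)]
      exact mul_le_mul_of_nonneg_right h2.le (by positivity)
    have h4 := abs_add_le (∑ i ∈ range k, f i * (2 ^ 80) ^ i) (f k * (2 ^ 80) ^ k)
    have h5 : (0 : ℤ) < (2 ^ 80) ^ k := by positivity
    have h6 : (2 ^ 80 : ℤ) ^ (k + 1) = (2 ^ 80) ^ k * 2 ^ 80 := pow_succ _ _
    rw [h6]
    clear h6 ih h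
    generalize |∑ i ∈ range k, f i * (2 ^ 80) ^ i + f k * (2 ^ 80) ^ k| = q2 at *
    generalize |f k * (2 ^ 80) ^ k| = q at *
    generalize |∑ i ∈ range k, f i * (2 ^ 80) ^ i| = q1 at *
    generalize (2 ^ 80 : ℤ) ^ k = p at *
    norm_num at *
    linarith

theorem low_nonneg (f : ℕ → ℤ) (k : ℕ) (h : ∀ i < k, 0 ≤ f i) :
    0 ≤ ∑ i ∈ range k, f i * (2 ^ 80) ^ i :=
  Finset.sum_nonneg fun i hi => mul_nonneg (h i (by simpa using hi)) (by positivity)

theorem dig {P : ℤ[X]} {Z L k : ℕ} (hZ : Rep (2 ^ (80 * L)) Z (P.eval (2 ^ 80))) (hk : k < L)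
    (hP : ∀ i ≤ k, |P.coeff i| < 2 ^ 78) :
    ((((Z + 2 ^ (80 * k) / 2) / 2 ^ (80 * k) + 604462909807314587353088)
      % 1208925819614629174706176 : ℕ) : ℤ) = P.coeff k + 604462909807314587353088 := by
  obtain ⟨r, hr⟩ := eval_low P (2 ^ 80) k
  obtain ⟨t, ht⟩ := hZ
  have hb := low_bound (fun i => P.coeff i) k fun i hi => hP i hi.le
  set low := ∑ i ∈ range k, P.coeff i * (2 ^ 80 : ℤ) ^ i with hlow
  obtain ⟨l', rfl⟩ : ∃ l', L = k + 1 + l' := ⟨L - (k + 1), by omega⟩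
  have hpw : ((2 ^ (80 * (k + 1 + l')) : ℕ) : ℤ) = (2 ^ 80) ^ k * (2 ^ 80 * (2 ^ 80) ^ l') := by
    rw [Nat.cast_pow, Nat.cast_ofNat, ← pow_mul, ← pow_mul, ← pow_add, ← pow_add]; congr 1; ring
  have hpk : ((2 ^ (80 * k) : ℕ) : ℤ) = (2 ^ 80) ^ k := by
    rw [Nat.cast_pow, Nat.cast_ofNat, ← pow_mul]
  have hZ2 : (Z : ℤ) = low + (2 ^ 80) ^ k * (P.coeff k + 2 ^ 80 * (r + (2 ^ 80) ^ l' * t)) := by
    have : (Z : ℤ) = P.eval (2 ^ 80) + ((2 ^ (80 * (k + 1 + l')) : ℕ) : ℤ) * t := by linarith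
    rw [this, hr, hpw]; ring
  set c := P.coeff k with hc
  have hc2 := abs_lt.1 (hP k le_rfl)
  set r' := r + (2 ^ 80) ^ l' * t with hr'
  push_cast
  rw [show ((2 : ℤ) ^ (80 * k)) = (2 ^ 80) ^ k by rw [← pow_mul]]
  have hpos : (0 : ℤ) < (2 ^ 80) ^ k := by positivity
  have hdiv : ((Z : ℤ) + (2 ^ 80) ^ k / 2) / (2 ^ 80) ^ k = c + 2 ^ 80 * r' := by
    have : (Z : ℤ) + (2 ^ 80) ^ k / 2 = (low + (2 ^ 80) ^ k / 2) + (2 ^ 80) ^ k * (c + 2 ^ 80 * r') := by
      rw [hZ2]; ring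
    rw [this, Int.add_mul_ediv_left _ _ hpos.ne']
    have h0 : (low + (2 ^ 80) ^ k / 2) / (2 ^ 80) ^ k = 0 := by
      apply Int.ediv_eq_zero_of_lt
      · rcases Nat.eq_zero_or_pos k with h0 | h0
        · subst h0; simp [hlow]
        · have h2 : 2 * ((2 ^ 80 : ℤ) ^ k / 2) = (2 ^ 80) ^ k := by
            obtain ⟨k', rfl⟩ : ∃ k', k = k' + 1 := ⟨k - 1, by omega⟩
            have : (2 ^ 80 : ℤ) ^ (k' + 1) = 2 * (2 ^ 79 * (2 ^ 80) ^ k') := by rw [pow_succ]; ring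
            rw [this]; simp
          have := abs_lt.1 (show |low| < (2 ^ 80) ^ k / 2 by linarith)
          linarith
      · have h2 : 2 * ((2 ^ 80 : ℤ) ^ k / 2) ≤ (2 ^ 80) ^ k := by omega
        have h3 : 2 * low < (2 ^ 80) ^ k := lt_of_le_of_lt (by linarith [le_abs_self low]) hb
        have : 2 * (low + (2 ^ 80) ^ k / 2) < 2 * (2 ^ 80) ^ k := by linarith
        linarith
    rw [h0, zero_add]
  rw [hdiv]
  have : c + 2 ^ 80 * r' + 604462909807314587353088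
      = (c + 604462909807314587353088) + 1208925819614629174706176 * r' := by ring
  rw [this, Int.add_mul_emod_self_left]
  apply Int.emod_eq_of_lt
  · have : (2 : ℤ) ^ 78 = 302231454903657293676544 := by norm_num
    rw [this] at hc2; linarith
  · have : (2 : ℤ) ^ 78 = 302231454903657293676544 := by norm_num
    rw [this] at hc2; linarith

theorem digN {P : ℤ[X]} {Z k : ℕ} (hZ : (Z : ℤ) = P.eval (2 ^ 80))
    (hP : ∀ i ≤ k, 0 ≤ P.coeff i ∧ P.coeff i < 2 ^ 78) :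
    (((Z / 2 ^ (80 * k)) % 1208925819614629174706176 : ℕ) : ℤ) = P.coeff k := by
  obtain ⟨r, hr⟩ := eval_low P (2 ^ 80) k
  have hb := low_bound (fun i => P.coeff i) k fun i hi => by
    rw [abs_of_nonneg (hP i hi.le).1]; exact (hP i hi.le).2
  have hn := low_nonneg (fun i => P.coeff i) k fun i hi => (hP i hi.le).1
  set low := ∑ i ∈ range k, P.coeff i * (2 ^ 80 : ℤ) ^ i with hlow
  push_cast
  rw [show ((2 : ℤ) ^ (80 * k)) = (2 ^ 80) ^ k by rw [← pow_mul]]
  have hpos : (0 : ℤ) < (2 ^ 80) ^ k := by positivity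
  rw [hZ, hr, Int.add_mul_ediv_left _ _ hpos.ne']
  have h0 : low / (2 ^ 80) ^ k = 0 := by
    apply Int.ediv_eq_zero_of_lt hn
    rw [abs_of_nonneg hn] at hb; linarith
  rw [h0, zero_add]
  rw [show (2 ^ 80 : ℤ) = 1208925819614629174706176 by norm_num, Int.add_mul_emod_self_left]
  apply Int.emod_eq_of_lt (hP k le_rfl).1
  have : (2 : ℤ) ^ 78 = 302231454903657293676544 := by norm_num
  have h2 := (hP k le_rfl).2
  rw [this] at h2; linarith

/-- packed sequence, newest term first -/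
noncomputable def pk (f : ℕ → ℤ) : ℕ → ℤ[X]
  | 0 => 0
  | n + 1 => pk f n * X + C (f (n + 1))

theorem pk_coeff (f : ℕ → ℤ) (n j : ℕ) :
    (pk f n).coeff j = if j < n then f (n - j) else 0 := by
  induction n generalizing j with
  | zero => simp [pk]
  | succ n ih =>
    cases j with
    | zero => simp [pk]
    | succ j =>
      simp only [pk, coeff_add, coeff_mul_X, ih, coeff_C_succ, add_zero]
      by_cases h : j < n
      · rw [if_pos h, if_pos (by omega)]; congr 1; omega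
      · rw [if_neg h, if_neg (by omega)]

theorem pk_eval_succ (f : ℕ → ℤ) (n : ℕ) :
    (pk f (n + 1)).eval (2 ^ 80) = (pk f n).eval (2 ^ 80) * 2 ^ 80 + f (n + 1) := by
  simp [pk]

theorem pk_congr {f g : ℕ → ℤ} {n : ℕ} (h : ∀ j, 1 ≤ j → j ≤ n → f j = g j) : pk f n = pk g n := by
  induction n with
  | zero => rfl
  | succ n ih =>
    simp only [pk]
    rw [ih fun j h1 h2 => h j h1 (by omega), h (n + 1) (by omega) le_rfl]

/-- top convolution digit -/
theorem pk_mul_coeff (f g : ℕ → ℤ) (n : ℕ) :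
    (pk f (n + 1) * pk g (n + 1)).coeff n = ∑ j ∈ range (n + 1), f (j + 1) * g (n + 1 - j) := by
  rw [coeff_mul, Finset.Nat.sum_antidiagonal_eq_sum_range_succ_mk, ← Finset.sum_range_reflect]
  apply Finset.sum_congr rfl
  intro j hj
  rw [Finset.mem_range] at hj
  simp only [pk_coeff]
  rw [if_pos (by omega), if_pos (by omega)]
  congr 2 <;> omega

theorem pk_mul_coeff_le (f g : ℕ → ℤ) (n i : ℕ) (H : ℤ) (hi : i ≤ n) (hH : 0 ≤ H)
    (hf : ∀ j, 1 ≤ j → j ≤ n + 1 → |f j| ≤ H) (hg : ∀ j, 1 ≤ j → j ≤ n + 1 → |g j| ≤ H) :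
    |(pk f (n + 1) * pk g (n + 1)).coeff i| ≤ (n + 1) * H ^ 2 := by
  rw [coeff_mul, Finset.Nat.sum_antidiagonal_eq_sum_range_succ_mk]
  refine (Finset.abs_sum_le_sum_abs _ _).trans ?_
  refine (Finset.sum_le_card_nsmul _ _ (H ^ 2) ?_).trans ?_
  · intro j hj
    rw [Finset.mem_range] at hj
    simp only [pk_coeff]
    rw [if_pos (by omega), if_pos (by omega), abs_mul, sq]
    exact mul_le_mul (hf _ (by omega) (by omega)) (hg _ (by omega) (by omega)) (abs_nonneg _) hH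
  · rw [Finset.card_range, nsmul_eq_mul]
    apply mul_le_mul_of_nonneg_right _ (by positivity)
    push_cast
    have : (i : ℤ) ≤ n := by exact_mod_cast hi
    linarith

end H8.Siegel
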