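import Mathlib
import Pool.Agent.H8.Siegel.Algo

set_option autoImplicit false

namespace H8.Siegel

theorem fN_eq {α : Type} (n : Nat) (f : Nat → α) : fN n f = f n := by
  cases n <;> rfl

theorem sel_true {α : Type} (x y : α) : sel true x y = x := rfl
theorem sel_false {α : Type} (x y : α) : sel false x y = y := rfl

theorem ble_iff (a b : Nat) : Nat.ble a b = true ↔ a ≤ b := Iff.of_eq Nat.ble_eq

theorem sqrtUp_eq (a b s : Nat) : sqrtUp a b s =
    ((if a ≤ b then b + 3 * a / 8 else a + 3 * b / 8) +
      s / (if a ≤ b then b + 3 * a / 8 else a + 3 * b / 8)) / 2 + 1 := by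
  unfold sqrtUp
  rw [fN_eq]
  by_cases h : a ≤ b
  · have : Nat.ble a b = true := (ble_iff _ _).2 h
    rw [this, sel_true, if_pos h]; rfl
  · have : Nat.ble a b = false := by
      rw [← Bool.not_eq_true, ble_iff]; exact h
    rw [this, sel_false, if_neg h]; rfl

theorem sqrtUp_le {a b s : Nat} (hs : s = a * a + b * b) :
    s ≤ sqrtUp a b s * sqrtUp a b s := by
  rw [sqrtUp_eq]
  set u := (if a ≤ b then b + 3 * a / 8 else a + 3 * b / 8) with hu
  by_cases h0 : u = 0
  · have : s = 0 := by
      rw [hs]
      split_ifs at hu with h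
      · have : b = 0 := by omega
        have : a = 0 := by omega
        subst_vars; simp
      · have : a = 0 := by omega
        have : b = 0 := by omega
        subst_vars; simp
    rw [this]; exact Nat.zero_le _
  · have hpos : 0 < u := Nat.pos_of_ne_zero h0
    have h1 : s < u * (s / u + 1) := by
      have := Nat.lt_mul_div_succ s hpos
      exact this
    set q := s / u with hq
    -- ((u+q)/2+1)^2 ≥ u(q+1) > s
    have h2 : u + q + 1 ≤ 2 * ((u + q) / 2 + 1) := by omega
    have h3 : 4 * (u * (q + 1)) ≤ (u + q + 1) * (u + q + 1) := by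
      have : (4 * (u * (q + 1)) : ℤ) ≤ (u + q + 1) * (u + q + 1) := by
        nlinarith [sq_nonneg ((u : ℤ) - (q + 1))]
      exact_mod_cast this
    have h4 : (u + q + 1) * (u + q + 1) ≤ (2 * ((u + q) / 2 + 1)) * (2 * ((u + q) / 2 + 1)) :=
      Nat.mul_le_mul h2 h2
    nlinarith

theorem sqrtUp_pos (a b s : Nat) : 0 < sqrtUp a b s := by
  rw [sqrtUp_eq]; exact Nat.succ_pos _

theorem rabs_eq (Q z : Nat) : rabs Q z = if z + z ≤ Q then z else Q - z := by
  unfold rabs
  by_cases h : z + z ≤ Q
  · have : Nat.ble (Nat.add z z) Q = true := (ble_iff _ _).2 h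
    rw [this, sel_true, if_pos h]
  · have : Nat.ble (Nat.add z z) Q = false := by
      rw [← Bool.not_eq_true, ble_iff]; exact h
    rw [this, sel_false, if_neg h]; rfl

theorem dinfo_eq (Q x y : Nat) (k : Nat → Nat → Nat → Nat → Bool) :
    dinfo Q x y k =
      (let X := (x + (Q - 1073741824)) % Q
       let q := rabs Q X * rabs Q X + rabs Q y * rabs Q y
       let UD := sqrtUp (rabs Q X) (rabs Q y) q
       k X q UD (q / UD)) := by
  simp only [dinfo, fN_eq]; rfl

theorem conv_eq (Q A C sh h : Nat) (k : Nat → Nat → Bool) :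
    conv Q A C sh h k =
      k (((A * A + C * (Q - C) + h) / 2 ^ sh + 604462909807314587353088) % 1208925819614629174706176)
        (((2 * (A * C) + h) / 2 ^ sh + 604462909807314587353088) % 1208925819614629174706176) := by
  simp only [conv, fN_eq]
  rw [← Nat.shiftRight_eq_div_pow, ← Nat.shiftRight_eq_div_pow]; rfl

theorem modU_eq (U V : Nat) (k : Nat → Nat → Bool) :
    modU U V k =
      (let s2 := adist U * adist U + adist V * adist V
       k s2 (sqrtUp (adist U) (adist V) s2)) := by
  simp only [modU, fN_eq]; rfl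

theorem adist_eq (U : Nat) :
    adist U = (U - 604462909807314587353088) + (604462909807314587353088 - U) := rfl

theorem newc_eq (Q X y q U V : Nat) (k : Nat → Nat → Bool) :
    newc Q X y q U V k =
      k ((((U + (Q - 604462909807314587353088)) * X + (V + (Q - 604462909807314587353088)) * y
            + 18446744073709551616 * q) % Q) / q + (Q - 18446744073709551616))
        ((((V + (Q - 604462909807314587353088)) * X + (U + (Q - 604462909807314587353088)) * (Q - y)
            + 18446744073709551616 * q) % Q) / q + (Q - 18446744073709551616)) := by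
  simp only [newc, fN_eq]; rfl

theorem newp_eq (Q x1 y1 ny1 x y : Nat) (k : Nat → Nat → Bool) :
    newp Q x1 y1 ny1 x y k =
      k ((((x * x1 + y * ny1 + 4611686018427387904) % Q) / 1073741824 + (Q - 4294967296)) % Q)
        ((((x * y1 + y * x1 + 4611686018427387904) % Q) / 1073741824 + (Q - 4294967296)) % Q) := by
  simp only [newp, fN_eq]; rfl

theorem fin_eq (Q A C G M u v g m : Nat) (k : Nat → Nat → Nat → Nat → Bool) :
    fin Q A C G M u v g m k =
      k ((A * 1208925819614629174706176 + u) % Q) ((C * 1208925819614629174706176 + v) % Q)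
        (G * 1208925819614629174706176 + g) (M * 1208925819614629174706176 + m) := by
  simp only [fin, fN_eq]; rfl

theorem sel_ble {α : Type} (a b : Nat) (x y : α) :
    sel (Nat.ble a b) x y = if a ≤ b then x else y := by
  by_cases h : a ≤ b
  · rw [(ble_iff _ _).2 h, sel_true, if_pos h]
  · have : Nat.ble a b = false := by
      rw [← Bool.not_eq_true, ble_iff]; exact h
    rw [this, sel_false, if_neg h]

theorem step_elim {Q x1 y1 ny1 e : Nat} {ih : St} {n x y d A C G M s sh : Nat}
    (h : step Q x1 y1 ny1 e ih n x y d A C G M s sh = true) :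
    ∃ X q UD LD U V W s2 SU l s' : Nat,
      X = (x + (Q - 1073741824)) % Q ∧
      q = rabs Q X * rabs Q X + rabs Q y * rabs Q y ∧
      UD = sqrtUp (rabs Q X) (rabs Q y) q ∧ LD = q / UD ∧
      U = ((A * A + C * (Q - C) + 2 ^ sh / 2) / 2 ^ sh + 604462909807314587353088)
        % 1208925819614629174706176 ∧
      V = ((2 * (A * C) + 2 ^ sh / 2) / 2 ^ sh + 604462909807314587353088)
        % 1208925819614629174706176 ∧
      W = ((G * G - M * M) / 2 ^ sh) % 1208925819614629174706176 ∧
      s2 = adist U * adist U + adist V * adist V ∧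
      SU = sqrtUp (adist U) (adist V) s2 ∧
      l = (s2 / SU - W) / (UD + d) ∧ s' = s + n * (l * l) ∧
      (1152921504606846976 ≤ 4 * s' ∨
        (d < LD ∧ ∃ m g u v x' y' : Nat, m = SU / LD + 3 ∧
          g = (W + m * d) / (LD - d) + 3 + m ∧ g < 4294967296 ∧
          u = (((U + (Q - 604462909807314587353088)) * X + (V + (Q - 604462909807314587353088)) * y
            + 18446744073709551616 * q) % Q) / q + (Q - 18446744073709551616) ∧
          v = (((V + (Q - 604462909807314587353088)) * X
            + (U + (Q - 604462909807314587353088)) * (Q - y)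
            + 18446744073709551616 * q) % Q) / q + (Q - 18446744073709551616) ∧
          x' = (((x * x1 + y * ny1 + 4611686018427387904) % Q) / 1073741824 + (Q - 4294967296)) % Q ∧
          y' = (((x * y1 + y * x1 + 4611686018427387904) % Q) / 1073741824 + (Q - 4294967296)) % Q ∧
          ih (n + 1) x' y' (d + e) ((A * 1208925819614629174706176 + u) % Q)
            ((C * 1208925819614629174706176 + v) % Q)
            (G * 1208925819614629174706176 + g) (M * 1208925819614629174706176 + m)
            s' (sh + 80) = true)) := by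
  have hh : Nat.shiftRight (Nat.shiftLeft 1 sh) 1 = 2 ^ sh / 2 := by
    have : Nat.shiftRight (Nat.shiftLeft 1 sh) 1 = (1 <<< sh) >>> 1 := rfl
    rw [this, Nat.shiftRight_eq_div_pow, Nat.shiftLeft_eq]; simp
  unfold step at h
  rw [dinfo_eq] at h
  simp only at h
  rw [conv_eq] at h
  simp only [fN_eq] at h
  rw [modU_eq] at h
  simp only [sel_ble, newc_eq, newp_eq, fin_eq] at h
  refine ⟨_, _, _, _, _, _, _, _, _, _, _, rfl, rfl, rfl, rfl, rfl, rfl, rfl, rfl, rfl, rfl, rfl,
    ?_⟩
  have hW : ∀ z : Nat, (Nat.shiftRight z sh) = z / 2 ^ sh := fun z => by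
    rw [← Nat.shiftRight_eq_div_pow]; rfl
  have e1 : Nat.shiftRight (Nat.shiftLeft (nat_lit 1) sh) (nat_lit 1) = 2 ^ sh / 2 := hh
  rw [e1] at h
  simp only [hW] at h
  split_ifs at h with c1 c2 c3
  · left; exact c1
  · right
    refine ⟨not_le.1 c2, _, _, _, _, _, _, rfl, rfl, not_le.1 c3, rfl, rfl, rfl, rfl, ?_⟩
    exact h

end H8.Siegel
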