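import Pool.Agent.H8.Siegel.Area1

set_option autoImplicit false

namespace H8.Siegel

open Complex Metric Filter Topology

/-- the recursion of the coefficients -/
def Rec (lam : ℂ) (a : ℕ → ℂ) : Prop :=
  ∀ n, lam ^ n * a n = lam * (a n + ∑ p ∈ Finset.HasAntidiagonal.antidiagonal n, a p.1 * a p.2)

/-- the coefficients of the linearisation -/
noncomputable def coef (lam : ℂ) : ℕ → ℂ
  | 0 => 0
  | 1 => 1
  | (n + 2) => (∑ j : Fin (n + 1), coef lam (j + 1) * coef lam (n + 1 - j)) / (lam ^ (n + 1) - 1)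
termination_by n => n
decreasing_by
  all_goals
    have := j.2
    omega

theorem coef_zero (lam : ℂ) : coef lam 0 = 0 := by rw [coef]
theorem coef_one (lam : ℂ) : coef lam 1 = 1 := by rw [coef]
theorem coef_add_two (lam : ℂ) (n : ℕ) : coef lam (n + 2) =
    (∑ j ∈ Finset.range (n + 1), coef lam (j + 1) * coef lam (n + 1 - j)) / (lam ^ (n + 1) - 1) := by
  rw [coef, Finset.sum_range]

theorem coef_rec {lam : ℂ} (hroot : ∀ n, 1 ≤ n → lam ^ n ≠ 1) : Rec lam (coef lam) := by
  intro n
  match n with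
  | 0 => simp [coef_zero]
  | 1 =>
    rw [Finset.Nat.sum_antidiagonal_eq_sum_range_succ (fun i j => coef lam i * coef lam j)]
    simp [Finset.sum_range_succ, coef_zero, coef_one]
  | (n + 2) =>
    rw [Finset.Nat.sum_antidiagonal_eq_sum_range_succ (fun i j => coef lam i * coef lam j),
      Finset.sum_range_succ, Finset.sum_range_succ']
    simp only [Nat.sub_self, coef_zero, mul_zero, zero_mul, add_zero]
    have h1 : ∀ j ∈ Finset.range (n + 1), coef lam (j + 1) * coef lam (n + 2 - (j + 1))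
        = coef lam (j + 1) * coef lam (n + 1 - j) := by
      intro j hj
      have := Finset.mem_range.1 hj
      congr 2
      omega
    rw [Finset.sum_congr rfl h1]
    have h2 : lam ^ (n + 1) - 1 ≠ 0 := sub_ne_zero.2 (hroot (n + 1) (by omega))
    have h3 := coef_add_two lam n
    rw [eq_div_iff h2] at h3
    linear_combination lam * h3

theorem catalan_le (n : ℕ) : catalan n ≤ 4 ^ n := by
  rw [catalan_eq_centralBinom_div]
  refine (Nat.div_le_self _ _).trans ?_
  rw [Nat.centralBinom_eq_two_mul_choose]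
  refine (Nat.choose_le_two_pow _ _).trans ?_
  rw [pow_mul]
  norm_num

theorem coef_le {lam : ℂ} {δ : ℝ} (hδ : 0 < δ) (h : ∀ n, 1 ≤ n → δ ≤ ‖lam ^ n - 1‖) (n : ℕ) :
    ‖coef lam (n + 1)‖ ≤ catalan n / δ ^ n := by
  induction n using Nat.strong_induction_on with
  | _ n ih =>
    match n with
    | 0 => simp [coef_one]
    | (n + 1) =>
      rw [coef_add_two, norm_div, catalan_succ]
      have h1 : ‖∑ j ∈ Finset.range (n + 1), coef lam (j + 1) * coef lam (n + 1 - j)‖
          ≤ (∑ j ∈ Finset.range (n + 1), (catalan j : ℝ) * catalan (n - j)) / δ ^ n := by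
        refine (norm_sum_le _ _).trans ?_
        rw [Finset.sum_div]
        refine Finset.sum_le_sum fun j hj => ?_
        have hj' := Finset.mem_range.1 hj
        have e1 := ih j (by omega)
        have e2 := ih (n - j) (by omega)
        have e3 : n + 1 - j = n - j + 1 := by omega
        rw [norm_mul, e3]
        have e4 : (catalan j : ℝ) * catalan (n - j) / δ ^ n = (catalan j / δ ^ j) * (catalan (n - j) / δ ^ (n - j)) := by
          rw [div_mul_div_comm, ← pow_add]
          congr 2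
          omega
        rw [e4]
        exact mul_le_mul e1 e2 (norm_nonneg _) (by positivity)
      have h2 := h (n + 1) (by omega)
      have h3 : (∑ i : Fin n.succ, catalan i * catalan (n - i) : ℕ) = ∑ j ∈ Finset.range (n + 1), catalan j * catalan (n - j) := by
        rw [Finset.sum_range]
      rw [h3]
      push_cast
      rw [pow_succ δ, ← div_div]
      exact div_le_div₀ (by positivity) h1 hδ h2

theorem coef_bound {lam : ℂ} {δ : ℝ} (hδ : 0 < δ) (h : ∀ n, 1 ≤ n → δ ≤ ‖lam ^ n - 1‖) {s : ℝ} (hs : 0 ≤ s)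
    (hs4 : 4 * s < δ) : Summable fun n => ‖coef lam n‖ * s ^ n := by
  refine (summable_nat_add_iff 1).1 ?_
  have hq : 4 * s / δ < 1 := (div_lt_one hδ).2 hs4
  refine Summable.of_nonneg_of_le (fun n => by positivity) (fun n => ?_)
    ((summable_geometric_of_lt_one (by positivity) hq).mul_left s)
  have h1 := coef_le hδ h n
  have h2 : (catalan n : ℝ) ≤ 4 ^ n := by exact_mod_cast catalan_le n
  calc ‖coef lam (n + 1)‖ * s ^ (n + 1) ≤ (4 ^ n / δ ^ n) * s ^ (n + 1) := by
        gcongr
        exact h1.trans (by gcongr)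
    _ = s * (4 * s / δ) ^ n := by
        rw [div_pow, mul_pow, pow_succ]
        ring

/-- functional equation for any multiplier -/
theorem pser_eq' {lam : ℂ} {a : ℕ → ℂ} {r : ℝ} (hrec : Rec lam a)
    (hs : Summable fun n => ‖a n‖ * r ^ n) {z : ℂ} (hz : ‖z‖ ≤ r) :
    pser a (lam * z) = lam * (pser a z + pser a z ^ 2) := by
  have h1 := summable_at hs hz
  have h3 : HasSum (fun n => ∑ p ∈ Finset.HasAntidiagonal.antidiagonal n, (a p.1 * z ^ p.1) * (a p.2 * z ^ p.2))
      (pser a z * pser a z) := by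
    have h4 := tsum_mul_tsum_eq_tsum_sum_antidiagonal_of_summable_norm h1 h1
    have h5 := summable_norm_sum_mul_antidiagonal_of_summable_norm h1 h1
    unfold pser
    rw [h4]
    exact h5.of_norm.hasSum
  have h6 : HasSum (fun n => a n * z ^ n) (pser a z) := h1.of_norm.hasSum
  have h7 := (h6.add h3).mul_left lam
  have h8 : pser a (lam * z) = ∑' n, lam * (a n * z ^ n + ∑ p ∈ Finset.HasAntidiagonal.antidiagonal n,
      (a p.1 * z ^ p.1) * (a p.2 * z ^ p.2)) := by
    unfold pser
    congr 1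
    ext n
    have : ∑ p ∈ Finset.HasAntidiagonal.antidiagonal n, (a p.1 * z ^ p.1) * (a p.2 * z ^ p.2)
        = (∑ p ∈ Finset.HasAntidiagonal.antidiagonal n, a p.1 * a p.2) * z ^ n := by
      rw [Finset.sum_mul]
      refine Finset.sum_congr rfl fun p hp => ?_
      rw [← Finset.HasAntidiagonal.mem_antidiagonal.1 hp, pow_add]
      ring
    rw [this, mul_pow]
    linear_combination z ^ n * hrec n
  rw [h8, h7.tsum_eq]
  ring

/-- square roots of zero free functions on a disc -/
theorem exists_sqrt {ρ : ℝ} (hρ : 0 < ρ) {G : ℂ → ℂ} (hG : DifferentiableOn ℂ G (ball 0 ρ))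
    (hne : ∀ z ∈ ball (0 : ℂ) ρ, G z ≠ 0) (h0 : G 0 = 1) :
    ∃ g : ℂ → ℂ, DifferentiableOn ℂ g (ball 0 ρ) ∧ g 0 = 1 ∧ ∀ z ∈ ball (0 : ℂ) ρ, g z ^ 2 = G z := by
  have h0m : (0 : ℂ) ∈ ball (0 : ℂ) ρ := by simpa using hρ
  have hq : DifferentiableOn ℂ (fun z => deriv G z / (2 * G z)) (ball 0 ρ) :=
    (hG.deriv isOpen_ball).div (hG.const_mul 2) (fun z hz => mul_ne_zero two_ne_zero (hne z hz))
  obtain ⟨F, hF⟩ := hq.isExactOn_ball
  have hFd : DifferentiableOn ℂ F (ball 0 ρ) := fun z hz => (hF z hz).differentiableAt.differentiableWithinAt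
  set F0 : ℂ → ℂ := fun z => F z - F 0 with hF0
  have hF0' : ∀ z ∈ ball (0 : ℂ) ρ, HasDerivAt F0 (deriv G z / (2 * G z)) z := fun z hz => by
    simpa [hF0] using (hF z hz).sub_const (F 0)
  have hGd : ∀ z ∈ ball (0 : ℂ) ρ, HasDerivAt G (deriv G z) z := fun z hz =>
    (hG.differentiableAt (isOpen_ball.mem_nhds hz)).hasDerivAt
  set K : ℂ → ℂ := fun z => G z * Complex.exp (-2 * F0 z) with hK
  have hK' : ∀ z ∈ ball (0 : ℂ) ρ, HasDerivAt K 0 z := by
    intro z hz
    have e1 := (hGd z hz).mul (((hF0' z hz).const_mul (-2)).cexp)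
    refine e1.congr_deriv ?_
    have := hne z hz
    field_simp
    ring
  have hKc : ∀ z ∈ ball (0 : ℂ) ρ, K z = 1 := by
    intro z hz
    have e1 : K z = K 0 := by
      refine isOpen_ball.is_const_of_deriv_eq_zero (convex_ball (0 : ℂ) ρ).isPreconnected
        (fun w hw => (hK' w hw).differentiableAt.differentiableWithinAt) (fun w hw => (hK' w hw).deriv) hz h0m
    rw [e1, hK]
    simp [hF0, h0]
  refine ⟨fun z => Complex.exp (F0 z), (hFd.sub_const _).cexp, by simp [hF0], fun z hz => ?_⟩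
  have e1 := hKc z hz
  simp only [hK] at e1
  have e2 : Complex.exp (-2 * F0 z) * Complex.exp (F0 z) ^ 2 = 1 := by
    rw [sq, ← Complex.exp_add, ← Complex.exp_add]
    ring_nf
    simp
  calc Complex.exp (F0 z) ^ 2 = (G z * Complex.exp (-2 * F0 z)) * Complex.exp (F0 z) ^ 2 := by rw [e1, one_mul]
    _ = G z * (Complex.exp (-2 * F0 z) * Complex.exp (F0 z) ^ 2) := by ring
    _ = G z := by rw [e2, mul_one]

end H8.Siegel
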