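import Pool.Agent.H8.Siegel.Low1

set_option autoImplicit false

namespace H8.Siegel

open Complex Metric Filter Topology
open scoped ENNReal NNReal

/-- radius of convergence -/
noncomputable def rad (a : ℕ → ℂ) : ℝ≥0∞ := (FormalMultilinearSeries.ofScalars ℂ a).radius

theorem summable_of_lt_rad {a : ℕ → ℂ} {s : ℝ} (hs : 0 ≤ s) (h : ENNReal.ofReal s < rad a) :
    Summable fun n => ‖a n‖ * s ^ n := by
  lift s to ℝ≥0 using hs
  rw [ENNReal.ofReal_coe_nnreal] at h
  have := (FormalMultilinearSeries.ofScalars ℂ a).summable_norm_mul_pow h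
  simpa only [FormalMultilinearSeries.ofScalars_norm] using this

theorem le_rad_of_summable {a : ℕ → ℂ} {s : ℝ} (hs : 0 ≤ s) (h : Summable fun n => ‖a n‖ * s ^ n) :
    ENNReal.ofReal s ≤ rad a := by
  lift s to ℝ≥0 using hs
  rw [ENNReal.ofReal_coe_nnreal]
  refine FormalMultilinearSeries.le_radius_of_summable _ ?_
  simpa only [FormalMultilinearSeries.ofScalars_norm] using h

theorem sum_eq_pser (a : ℕ → ℂ) : (FormalMultilinearSeries.ofScalars ℂ a).sum = pser a := by
  ext z
  rw [pser, FormalMultilinearSeries.sum]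
  congr 1
  ext n
  rw [FormalMultilinearSeries.ofScalars_apply_eq, smul_eq_mul]

theorem hasFPS {a : ℕ → ℂ} (h : 0 < rad a) :
    HasFPowerSeriesOnBall (pser a) (FormalMultilinearSeries.ofScalars ℂ a) 0 (rad a) := by
  have := (FormalMultilinearSeries.ofScalars ℂ a).hasFPowerSeriesOnBall h
  rwa [sum_eq_pser] at this

section
variable {a : ℕ → ℂ} {R : ℝ}

theorem exists_s (hR : ENNReal.ofReal R ≤ rad a) {z : ℂ} (hz : z ∈ ball (0 : ℂ) R) :
    ∃ s, ‖z‖ < s ∧ Summable fun n => ‖a n‖ * s ^ n := by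
  have hz' := mem_ball_zero_iff.1 hz
  obtain ⟨s, h1, h2⟩ := exists_between hz'
  have hs : 0 ≤ s := (norm_nonneg z).trans h1.le
  refine ⟨s, h1, summable_of_lt_rad hs (lt_of_lt_of_le ?_ hR)⟩
  exact (ENNReal.ofReal_lt_ofReal_iff (hs.trans_lt h2)).2 h2

theorem diff_ball (hR : ENNReal.ofReal R ≤ rad a) : DifferentiableOn ℂ (pser a) (ball 0 R) := by
  intro z hz
  obtain ⟨s, h1, h2⟩ := exists_s hR hz
  exact ((pser_diff h2).differentiableAt (isOpen_ball.mem_nhds (by simpa using h1))).differentiableWithinAt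

theorem eq_ball {lam : ℂ} (hrec : Rec lam a) (hR : ENNReal.ofReal R ≤ rad a) {z : ℂ} (hz : z ∈ ball (0 : ℂ) R) :
    pser a (lam * z) = lam * (pser a z + pser a z ^ 2) := by
  obtain ⟨s, h1, h2⟩ := exists_s hR hz
  exact pser_eq' hrec h2 h1.le

theorem pser_zero (h0 : a 0 = 0) : pser a 0 = 0 := by
  rw [pser, tsum_eq_single 0]
  · simp [h0]
  · intro n hn
    simp [hn]

/-- the critical value is attained -/
theorem exists_crit {lam : ℂ} (hl0 : lam ≠ 0) (hl1 : ‖lam‖ < 1) (h0 : a 0 = 0) (hrec : Rec lam a)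
    (hR0 : 0 < R) (hR : rad a = ENNReal.ofReal R) : ∃ z : ℂ, ‖z‖ ≤ R ∧ pser a (lam * z) = -(lam / 4) := by
  by_contra hcon
  push Not at hcon
  have hn0 : 0 < ‖lam‖ := norm_pos_iff.2 hl0
  set G : ℂ → ℂ := fun z => 1 + 4 * pser a (lam * z) / lam with hG
  have hGd : DifferentiableOn ℂ G (ball 0 (R / ‖lam‖)) := by
    have e1 : DifferentiableOn ℂ (fun z => pser a (lam * z)) (ball 0 (R / ‖lam‖)) := by
      refine (diff_ball hR.ge).comp (by fun_prop) ?_
      intro z hz
      rw [mem_ball_zero_iff] at hz ⊢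
      rw [norm_mul, mul_comm]
      exact (lt_div_iff₀ hn0).1 hz
    exact (differentiableOn_const 1).add ((e1.const_mul 4).div_const lam)
  have hGne : ∀ z ∈ closedBall (0 : ℂ) R, G z ≠ 0 := by
    intro z hz hc
    refine hcon z (by simpa using hz) ?_
    simp only [hG] at hc
    field_simp at hc
    linear_combination hc / 4
  have hRR : R < R / ‖lam‖ := by
    rw [lt_div_iff₀ hn0]
    nlinarith
  -- a bigger disc
  obtain ⟨δ, hδ, hδs⟩ : ∃ δ, 0 < δ ∧ thickening δ (closedBall (0 : ℂ) R) ⊆ ball 0 (R / ‖lam‖) ∩ G ⁻¹' {0}ᶜ := by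
    refine (isCompact_closedBall (0 : ℂ) R).exists_thickening_subset_open
      (hGd.continuousOn.isOpen_inter_preimage isOpen_ball isOpen_compl_singleton) ?_
    intro z hz
    exact ⟨closedBall_subset_ball hRR hz, hGne z hz⟩
  rw [thickening_closedBall hδ hR0.le] at hδs
  obtain ⟨g, hgd, hg0, hg⟩ := exists_sqrt (ρ := δ + R) (by linarith) (hGd.mono fun z hz => (hδs hz).1)
    (fun z hz => (hδs hz).2) (by simp [hG, pser_zero h0])
  have hsub : ball (0 : ℂ) R ⊆ ball 0 (δ + R) := ball_subset_ball (by linarith)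
  have h1 : ∀ z ∈ ball (0 : ℂ) R, (2 * pser a z + 1 - g z) * (2 * pser a z + 1 + g z) = 0 := by
    intro z hz
    have e1 := hg z (hsub hz)
    have e2 := eq_ball hrec hR.ge hz
    simp only [hG] at e1
    rw [e2] at e1
    field_simp at e1
    linear_combination -e1
  have hd1 : DifferentiableOn ℂ (fun z => 2 * pser a z + 1 - g z) (ball 0 R) :=
    (((diff_ball hR.ge).const_mul 2).add_const 1).sub (hgd.mono hsub)
  have hd2 : DifferentiableOn ℂ (fun z => 2 * pser a z + 1 + g z) (ball 0 R) :=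
    (((diff_ball hR.ge).const_mul 2).add_const 1).add (hgd.mono hsub)
  have h0m : (0 : ℂ) ∈ ball (0 : ℂ) R := by simpa using hR0
  rcases (hd1.analyticOnNhd isOpen_ball).eq_zero_or_eq_zero_of_mul_eq_zero (hd2.analyticOnNhd isOpen_ball) h1
    (convex_ball (0 : ℂ) R).isPreconnected with h2 | h2
  · -- extension
    set E : ℂ → ℂ := fun z => (g z - 1) / 2 with hE
    have hEd : DifferentiableOn ℂ E (ball 0 (δ + R)) := (hgd.sub_const 1).div_const 2
    have hEH : ∀ z ∈ ball (0 : ℂ) R, E z = pser a z := by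
      intro z hz
      have := h2 z hz
      simp only [hE]
      linear_combination -this / 2
    obtain ⟨s, hs1, hs2⟩ := exists_between (show R < δ + R by linarith)
    have hs0 : 0 < s := hR0.trans hs1
    lift s to ℝ≥0 using hs0.le
    have e1 : HasFPowerSeriesOnBall E (cauchyPowerSeries E 0 s) 0 s :=
      (hEd.mono (closedBall_subset_ball hs2)).hasFPowerSeriesOnBall (by exact_mod_cast hs0)
    have e2 : HasFPowerSeriesAt (pser a) (FormalMultilinearSeries.ofScalars ℂ a) 0 :=
      (hasFPS (by rw [hR]; exact ENNReal.ofReal_pos.2 hR0)).hasFPowerSeriesAt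
    have e3 : HasFPowerSeriesAt (pser a) (cauchyPowerSeries E 0 s) 0 := by
      refine e1.hasFPowerSeriesAt.congr ?_
      filter_upwards [isOpen_ball.mem_nhds h0m] with z hz
      exact hEH z hz
    have e4 := e2.eq_formalMultilinearSeries e3
    have e5 : (s : ℝ≥0∞) ≤ rad a := by
      rw [rad, e4]
      exact e1.r_le
    rw [hR, ENNReal.le_ofReal_iff_toReal_le (by simp) hR0.le] at e5
    simp at e5
    linarith
  · have := h2 0 h0m
    rw [pser_zero h0, hg0] at this
    norm_num at this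

end

end H8.Siegel
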