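import Pool.Agent.H8.Siegel.Low2

set_option autoImplicit false

namespace H8.Siegel

open Complex Metric Filter Topology
open scoped ENNReal NNReal

/-- the normalised critical orbit -/
noncomputable def et (lam : ℂ) : ℕ → ℂ
  | 0 => -(1 / 4)
  | (k + 1) => et lam k * (1 + lam ^ (k + 1) * et lam k)

section
variable {a : ℕ → ℂ} {R : ℝ}

theorem continuousAt_pser_zero (hR0 : 0 < R) (hR : ENNReal.ofReal R ≤ rad a) : ContinuousAt (pser a) 0 :=
  ((diff_ball hR).differentiableAt (isOpen_ball.mem_nhds (by simpa using hR0))).continuousAt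

theorem pser_bdd {lam : ℂ} (hl : 1 / 2 ≤ ‖lam‖) (hl1 : ‖lam‖ < 1) (h0 : a 0 = 0) (hrec : Rec lam a)
    (hR : ENNReal.ofReal R ≤ rad a) {z : ℂ} (hz : z ∈ ball (0 : ℂ) R) : ‖pser a z‖ ≤ 3 := by
  by_contra hcon
  push Not at hcon
  have hR0 : 0 < R := (norm_nonneg z).trans_lt (mem_ball_zero_iff.1 hz)
  have hin : ∀ n : ℕ, lam ^ n * z ∈ ball (0 : ℂ) R := by
    intro n
    rw [mem_ball_zero_iff, norm_mul, norm_pow]
    have h1 : ‖lam‖ ^ n ≤ 1 := pow_le_one₀ (norm_nonneg _) hl1.le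
    have h2 := mem_ball_zero_iff.1 hz
    calc ‖lam‖ ^ n * ‖z‖ ≤ 1 * ‖z‖ := by gcongr
      _ < R := by rwa [one_mul]
  have h1 : ∀ n : ℕ, 3 ≤ ‖pser a (lam ^ n * z)‖ := by
    intro n
    induction n with
    | zero => simpa using hcon.le
    | succ n ih =>
      have e1 : lam ^ (n + 1) * z = lam * (lam ^ n * z) := by ring
      rw [e1, eq_ball hrec hR (hin n)]
      set w := pser a (lam ^ n * z) with hw
      have e2 : lam * (w + w ^ 2) = lam * w * (w + 1) := by ring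
      rw [e2, norm_mul, norm_mul]
      have e3 : 2 ≤ ‖w + 1‖ := by
        have := norm_sub_norm_le w (-1)
        rw [norm_neg, norm_one, sub_neg_eq_add] at this
        linarith
      have e4 : 1 / 2 * 3 ≤ ‖lam‖ * ‖w‖ := mul_le_mul hl ih (by norm_num) (norm_nonneg _)
      nlinarith [norm_nonneg lam, norm_nonneg w]
  have h2 : Tendsto (fun n : ℕ => lam ^ n * z) atTop (𝓝 0) := by
    have := (tendsto_pow_atTop_nhds_zero_of_norm_lt_one hl1).mul_const z
    simpa using this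
  have h3 : Tendsto (fun n : ℕ => ‖pser a (lam ^ n * z)‖) atTop (𝓝 0) := by
    have := ((continuousAt_pser_zero hR0 hR).tendsto.comp h2).norm
    simpa [pser_zero h0] using this
  have h4 := ge_of_tendsto' h3 h1
  linarith

theorem coef_norm_le {lam : ℂ} (hl : 1 / 2 ≤ ‖lam‖) (hl1 : ‖lam‖ < 1) (h0 : a 0 = 0) (hrec : Rec lam a)
    (hR0 : 0 < R) (hR : ENNReal.ofReal R ≤ rad a) (k : ℕ) : ‖a k‖ * R ^ k ≤ 3 := by
  have h1 : ∀ s : ℝ, 0 < s → s < R → ‖a k‖ * s ^ k ≤ 3 := by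
    intro s hs0 hsR
    lift s to ℝ≥0 using hs0.le
    have hsub : closedBall (0 : ℂ) s ⊆ ball 0 R := closedBall_subset_ball hsR
    have e1 : HasFPowerSeriesOnBall (pser a) (cauchyPowerSeries (pser a) 0 s) 0 s :=
      ((diff_ball hR).mono hsub).hasFPowerSeriesOnBall (by exact_mod_cast hs0)
    have e2 : HasFPowerSeriesAt (pser a) (FormalMultilinearSeries.ofScalars ℂ a) 0 :=
      (hasFPS (lt_of_lt_of_le (ENNReal.ofReal_pos.2 hR0) hR)).hasFPowerSeriesAt
    have e3 := e2.eq_formalMultilinearSeries e1.hasFPowerSeriesAt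
    have e4 := norm_cauchyPowerSeries_le (pser a) 0 s k
    rw [← e3, FormalMultilinearSeries.ofScalars_norm] at e4
    have e5 : ∫ θ in (0 : ℝ)..2 * Real.pi, ‖pser a (circleMap 0 s θ)‖ ≤ 3 * (2 * Real.pi) := by
      have hb : ∀ θ ∈ Set.uIoc (0 : ℝ) (2 * Real.pi), ‖‖pser a (circleMap 0 s θ)‖‖ ≤ 3 := by
        intro θ _
        rw [norm_norm]
        refine pser_bdd hl hl1 h0 hrec hR (hsub ?_)
        simp [circleMap]
      have := intervalIntegral.norm_integral_le_of_norm_le_const hb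
      have h2 := (le_abs_self _).trans this
      rwa [sub_zero, abs_of_pos (by positivity)] at h2
    have e6 : (2 * Real.pi)⁻¹ * ∫ θ in (0 : ℝ)..2 * Real.pi, ‖pser a (circleMap 0 s θ)‖ ≤ 3 := by
      have hpi : 0 < 2 * Real.pi := by positivity
      rw [inv_mul_le_iff₀ hpi]
      linarith
    have e7 : ‖a k‖ ≤ 3 * |(s : ℝ)|⁻¹ ^ k := e4.trans (by gcongr)
    rw [abs_of_pos hs0, inv_pow] at e7
    calc ‖a k‖ * (s : ℝ) ^ k ≤ (3 * ((s : ℝ) ^ k)⁻¹) * (s : ℝ) ^ k := by gcongr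
      _ = 3 := by
        have : (s : ℝ) ^ k ≠ 0 := by positivity
        field_simp
  have h2 : Tendsto (fun s : ℝ => ‖a k‖ * s ^ k) (𝓝[<] R) (𝓝 (‖a k‖ * R ^ k)) :=
    ((continuous_const.mul (continuous_pow k)).tendsto R).mono_left nhdsWithin_le_nhds
  refine le_of_tendsto h2 ?_
  filter_upwards [Ioo_mem_nhdsLT hR0] with s hs
  exact h1 s hs.1 hs.2

end

/-- the critical orbit controls the radius -/
theorem et_le {lam : ℂ} (hl : 1 / 2 ≤ ‖lam‖) (hl1 : ‖lam‖ < 1) {R : ℝ} (hR0 : 0 < R)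
    (hR : rad (coef lam) = ENNReal.ofReal R) (k : ℕ) :
    ‖et lam k‖ ≤ R + 3 * ‖lam‖ ^ (k + 1) / (1 - ‖lam‖ ^ (k + 1)) := by
  have hl0 : lam ≠ 0 := by
    intro h
    rw [h, norm_zero] at hl
    norm_num at hl
  have hroot : ∀ n, 1 ≤ n → lam ^ n ≠ 1 := by
    intro n hn h
    have h1 := congrArg norm h
    rw [norm_pow, norm_one] at h1
    have := pow_lt_one₀ (norm_nonneg lam) hl1 (by omega : n ≠ 0)
    linarith
  have hrec := coef_rec hroot
  have h0 := coef_zero lam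
  obtain ⟨z, hz, hzc⟩ := exists_crit hl0 hl1 h0 hrec hR0 hR
  set x : ℝ := ‖lam‖ ^ (k + 1) with hx
  have hx0 : 0 < x := pow_pos (by linarith) _
  have hx1 : x < 1 := pow_lt_one₀ (norm_nonneg lam) hl1 (by omega)
  -- the orbit
  have horb : ∀ j : ℕ, pser (coef lam) (lam ^ (j + 1) * z) = lam ^ (j + 1) * et lam j := by
    intro j
    induction j with
    | zero =>
      rw [zero_add, pow_one, hzc, et]
      ring
    | succ j ih =>
      have e1 : lam ^ (j + 1 + 1) * z = lam * (lam ^ (j + 1) * z) := by ring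
      have e2 : lam ^ (j + 1) * z ∈ ball (0 : ℂ) R := by
        rw [mem_ball_zero_iff, norm_mul, norm_pow]
        have h1 : ‖lam‖ ^ (j + 1) < 1 := pow_lt_one₀ (norm_nonneg _) hl1 (by omega)
        calc ‖lam‖ ^ (j + 1) * ‖z‖ ≤ ‖lam‖ ^ (j + 1) * R := by gcongr
          _ < R := by nlinarith
      rw [e1, eq_ball hrec hR.ge e2, ih, et]
      ring
  have hw : ‖lam ^ (k + 1) * z‖ ≤ x * R := by
    rw [norm_mul, norm_pow]
    gcongr
  have hwR : ‖lam ^ (k + 1) * z‖ < R := by nlinarith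
  -- the series
  have hsum : Summable fun n => ‖coef lam n * (lam ^ (k + 1) * z) ^ n‖ := by
    obtain ⟨s, h1, h2⟩ := exists_s hR.ge (z := lam ^ (k + 1) * z) (by simpa using hwR)
    exact summable_at h2 h1.le
  have h2 : pser (coef lam) (lam ^ (k + 1) * z)
      = lam ^ (k + 1) * z + ∑' n, coef lam (n + 2) * (lam ^ (k + 1) * z) ^ (n + 2) := by
    have := hsum.of_norm.sum_add_tsum_nat_add 2
    rw [pser, ← this, Finset.sum_range_succ, Finset.sum_range_one, coef_zero, coef_one]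
    ring
  have h3 : ∀ n, ‖coef lam (n + 2) * (lam ^ (k + 1) * z) ^ (n + 2)‖ ≤ 3 * x ^ 2 * x ^ n := by
    intro n
    have e1 := coef_norm_le hl hl1 h0 hrec hR0 hR.ge (n + 2)
    rw [norm_mul, norm_pow]
    calc ‖coef lam (n + 2)‖ * ‖lam ^ (k + 1) * z‖ ^ (n + 2) ≤ ‖coef lam (n + 2)‖ * (x * R) ^ (n + 2) := by gcongr
      _ = (‖coef lam (n + 2)‖ * R ^ (n + 2)) * x ^ (n + 2) := by rw [mul_pow]; ring
      _ ≤ 3 * x ^ (n + 2) := by gcongr
      _ = 3 * x ^ 2 * x ^ n := by ring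
  have h4 : ‖∑' n, coef lam (n + 2) * (lam ^ (k + 1) * z) ^ (n + 2)‖ ≤ 3 * x ^ 2 * (1 - x)⁻¹ :=
    tsum_of_norm_bounded ((hasSum_geometric_of_lt_one hx0.le hx1).mul_left _) h3
  have h5 : x * ‖et lam k‖ ≤ x * R + 3 * x ^ 2 * (1 - x)⁻¹ := by
    have e1 : x * ‖et lam k‖ = ‖pser (coef lam) (lam ^ (k + 1) * z)‖ := by
      rw [horb k, norm_mul, norm_pow]
    rw [e1, h2]
    exact (norm_add_le _ _).trans (add_le_add hw h4)
  have h6 : x * ‖et lam k‖ ≤ x * (R + 3 * x / (1 - x)) := by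
    refine h5.trans (le_of_eq ?_)
    have : 1 - x ≠ 0 := by linarith
    field_simp
  exact le_of_mul_le_mul_left h6 hx0

/-- if the normalised critical orbit is far out, the radius is large -/
theorem coef_norm_le_of_et {lam : ℂ} (hl : 1 / 2 ≤ ‖lam‖) (hl1 : ‖lam‖ < 1) {ρ : ℝ} (hρ : 0 < ρ) {k : ℕ}
    (h : ρ + 3 * ‖lam‖ ^ (k + 1) / (1 - ‖lam‖ ^ (k + 1)) < ‖et lam k‖) (n : ℕ) : ‖coef lam n‖ * ρ ^ n ≤ 3 := by
  have hroot : ∀ n, 1 ≤ n → lam ^ n ≠ 1 := by
    intro n hn h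
    have h1 := congrArg norm h
    rw [norm_pow, norm_one] at h1
    have := pow_lt_one₀ (norm_nonneg lam) hl1 (by omega : n ≠ 0)
    linarith
  have hrec := coef_rec hroot
  have h0 := coef_zero lam
  rcases eq_or_ne (rad (coef lam)) ⊤ with htop | htop
  · exact coef_norm_le hl hl1 h0 hrec hρ (by rw [htop]; exact le_top) n
  · have hpos : 0 < (1 - ‖lam‖) / 8 := by linarith
    have hδ : ∀ n, 1 ≤ n → 1 - ‖lam‖ ≤ ‖lam ^ n - 1‖ := by
      intro n hn
      have e1 := norm_sub_norm_le 1 (lam ^ n)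
      rw [norm_one, norm_pow, norm_sub_rev] at e1
      have e2 : ‖lam‖ ^ n ≤ ‖lam‖ := pow_le_of_le_one (norm_nonneg _) hl1.le (by omega)
      linarith
    have h1 := le_rad_of_summable hpos.le (coef_bound (by linarith) hδ hpos.le (by linarith))
    have h2 : 0 < rad (coef lam) := lt_of_lt_of_le (ENNReal.ofReal_pos.2 hpos) h1
    have h3 : rad (coef lam) = ENNReal.ofReal (rad (coef lam)).toReal := (ENNReal.ofReal_toReal htop).symm
    have h4 : 0 < (rad (coef lam)).toReal := ENNReal.toReal_pos h2.ne' htop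
    have h5 := et_le hl hl1 h4 h3 k
    have h6 : ρ ≤ (rad (coef lam)).toReal := by linarith
    have h7 := coef_norm_le hl hl1 h0 hrec h4 h3.ge n
    refine le_trans ?_ h7
    gcongr

end H8.Siegel
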