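import Pool.Agent.H8.Siegel.Low3

set_option autoImplicit false

namespace H8.Siegel

open Complex Metric Filter Topology
open scoped ENNReal NNReal

theorem et_diff (k : ℕ) : Differentiable ℂ fun lam => et lam k := by
  induction k with
  | zero => simp only [et]; exact differentiable_const _
  | succ k ih =>
    simp only [et]
    fun_prop

/-- maximum principle for the normalised critical orbit -/
theorem et_max {lam₁ : ℂ} {r : ℝ} (hr : ‖lam₁‖ < r) (k : ℕ) : ∃ lam : ℂ, ‖lam‖ = r ∧ ‖et lam₁ k‖ ≤ ‖et lam k‖ := by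
  have hr0 : 0 < r := (norm_nonneg _).trans_lt hr
  obtain ⟨lam, h1, h2⟩ := (isCompact_sphere (0 : ℂ) r).exists_isMaxOn (NormedSpace.sphere_nonempty.2 hr0.le)
    (et_diff k).continuous.norm.continuousOn
  refine ⟨lam, by simpa using h1, ?_⟩
  refine Complex.norm_le_of_forall_mem_frontier_norm_le (U := ball 0 r) isBounded_ball
    ((et_diff k).diffContOnCl) (fun z hz => ?_) (subset_closure (by simpa using hr))
  rw [frontier_ball (0 : ℂ) hr0.ne'] at hz
  exact h2 hz

/-- existence of good multipliers of every modulus close to `1` -/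
theorem exists_good {lam₁ : ℂ} {ρ ρ' : ℝ} (hρ : 0 < ρ) (hρρ : ρ < ρ') {N : ℕ}
    (hN : ∀ k, N ≤ k → ρ' ≤ ‖et lam₁ k‖) {r : ℝ} (hr : ‖lam₁‖ < r) (hr2 : 1 / 2 ≤ r) (hr1 : r < 1) :
    ∃ lam : ℂ, ‖lam‖ = r ∧ ∀ n, ‖coef lam n‖ * ρ ^ n ≤ 3 := by
  have hlim : Tendsto (fun k : ℕ => 3 * r ^ (k + 1) / (1 - r ^ (k + 1))) atTop (𝓝 0) := by
    have h1 : Tendsto (fun k : ℕ => r ^ (k + 1)) atTop (𝓝 0) :=
      (tendsto_pow_atTop_nhds_zero_of_lt_one (by linarith) hr1).comp (tendsto_add_atTop_nat 1)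
    have h2 : Tendsto (fun k : ℕ => 3 * r ^ (k + 1) / (1 - r ^ (k + 1))) atTop (𝓝 (3 * 0 / (1 - 0))) :=
      (h1.const_mul 3).div (tendsto_const_nhds.sub h1) (by norm_num)
    simpa using h2
  obtain ⟨k, hk1, hk2⟩ := ((hlim.eventually (gt_mem_nhds (show (0 : ℝ) < ρ' - ρ by linarith))).and
    (eventually_ge_atTop N)).exists
  obtain ⟨lam, h1, h2⟩ := et_max hr k
  refine ⟨lam, h1, fun n => ?_⟩
  refine coef_norm_le_of_et (k := k) (by rw [h1]; exact hr2) (by rw [h1]; exact hr1) hρ ?_ n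
  rw [h1]
  have := hN k hk2
  linarith

/-- compactness: a multiplier on the circle -/
theorem exists_limit {ρ : ℝ} (hρ : 0 < ρ) {r0 : ℝ} (hr0 : r0 < 1)
    (h : ∀ r, r0 < r → r < 1 → ∃ lam : ℂ, ‖lam‖ = r ∧ ∀ n, ‖coef lam n‖ * ρ ^ n ≤ 3) :
    ∃ (lam : ℂ) (b : ℕ → ℂ), ‖lam‖ = 1 ∧ b 0 = 0 ∧ b 1 = 1 ∧ Rec lam b ∧ ∀ n, ‖b n‖ * ρ ^ n ≤ 3 := by
  obtain ⟨r, -, hr1, hr2⟩ := exists_seq_strictMono_tendsto' hr0
  choose L hL1 hL2 using fun m : ℕ => h (r m) (hr1 m).1 (hr1 m).2
  set K : Set (ℂ × (ℕ → ℂ)) := closedBall (0 : ℂ) 1 ×ˢ Set.pi Set.univ (fun n => closedBall (0 : ℂ) (3 / ρ ^ n)) with hK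
  have hKc : IsCompact K := (isCompact_closedBall _ _).prod (isCompact_univ_pi fun n => isCompact_closedBall _ _)
  have hmem : ∀ m, ((L m, coef (L m)) : ℂ × (ℕ → ℂ)) ∈ K := by
    intro m
    refine ⟨?_, fun n _ => ?_⟩
    · rw [mem_closedBall_zero_iff, hL1]
      exact (hr1 m).2.le
    · rw [mem_closedBall_zero_iff, le_div_iff₀ (by positivity)]
      exact hL2 m n
  obtain ⟨⟨lam, b⟩, hb, φ, hφ, hlim⟩ := hKc.tendsto_subseq hmem
  have hlam : Tendsto (fun m => L (φ m)) atTop (𝓝 lam) := (continuous_fst.tendsto _).comp hlim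
  have hb' : ∀ n, Tendsto (fun m => coef (L (φ m)) n) atTop (𝓝 (b n)) := fun n =>
    ((continuous_apply n).tendsto _).comp ((continuous_snd.tendsto _).comp hlim)
  refine ⟨lam, b, ?_, ?_, ?_, fun n => ?_, fun n => ?_⟩
  · have h1 := hlam.norm
    have h2 : Tendsto (fun m => ‖L (φ m)‖) atTop (𝓝 1) := by
      simp_rw [hL1]
      exact hr2.comp hφ.tendsto_atTop
    exact tendsto_nhds_unique h1 h2
  · have := hb' 0
    simp_rw [coef_zero] at this
    exact tendsto_nhds_unique this tendsto_const_nhds |>.symm ▸ rfl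
  · have := hb' 1
    simp_rw [coef_one] at this
    exact tendsto_nhds_unique this tendsto_const_nhds |>.symm ▸ rfl
  · have hrec : ∀ m, (L (φ m)) ^ n * coef (L (φ m)) n = L (φ m) * (coef (L (φ m)) n +
        ∑ p ∈ Finset.HasAntidiagonal.antidiagonal n, coef (L (φ m)) p.1 * coef (L (φ m)) p.2) := by
      intro m
      refine coef_rec (fun j hj hc => ?_) n
      have h1 := congrArg norm hc
      rw [norm_pow, norm_one, hL1] at h1
      have hnn : 0 ≤ r (φ m) := by rw [← hL1]; exact norm_nonneg _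
      have := pow_lt_one₀ hnn (hr1 (φ m)).2 (by omega : j ≠ 0)
      linarith
    have e1 : Tendsto (fun m => (L (φ m)) ^ n * coef (L (φ m)) n) atTop (𝓝 (lam ^ n * b n)) :=
      (hlam.pow n).mul (hb' n)
    have e2 : Tendsto (fun m => L (φ m) * (coef (L (φ m)) n +
        ∑ p ∈ Finset.HasAntidiagonal.antidiagonal n, coef (L (φ m)) p.1 * coef (L (φ m)) p.2)) atTop
        (𝓝 (lam * (b n + ∑ p ∈ Finset.HasAntidiagonal.antidiagonal n, b p.1 * b p.2))) :=
      hlam.mul ((hb' n).add (tendsto_finsetSum _ fun p _ => (hb' p.1).mul (hb' p.2)))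
    simp_rw [hrec] at e1
    exact tendsto_nhds_unique e1 e2
  · have h1 := (hb' n).norm.mul_const (ρ ^ n)
    exact le_of_tendsto' h1 fun m => hL2 (φ m) n

open Polynomial in
/-- the multiplier of a linearisable quadratic polynomial is not a root of unity -/
theorem not_root {lam : ℂ} (hl : lam ≠ 0) {b : ℕ → ℂ} (h0 : b 0 = 0) (h1 : b 1 = 1) (hrec : Rec lam b) (q : ℕ)
    (hq : 1 ≤ q) : lam ^ q ≠ 1 := by
  intro hlq
  set h : PowerSeries ℂ := PowerSeries.mk b with hh
  set P : ℂ[X] := C lam * (X + X ^ 2) with hP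
  have hfe : aeval h P = PowerSeries.rescale lam h := by
    ext n
    rw [PowerSeries.coeff_rescale, hP]
    simp only [map_mul, map_add, map_pow, aeval_X, aeval_C]
    have : algebraMap ℂ (PowerSeries ℂ) lam = PowerSeries.C lam := rfl
    rw [this, PowerSeries.coeff_C_mul, map_add, sq, PowerSeries.coeff_mul]
    simp only [hh, PowerSeries.coeff_mk]
    exact (hrec n).symm
  have hit : ∀ k : ℕ, aeval h (P.comp^[k] X) = PowerSeries.rescale (lam ^ k) h := by
    intro k
    induction k with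
    | zero => simp
    | succ k ih =>
      rw [Function.iterate_succ_apply', aeval_comp, ih]
      have e1 : aeval (PowerSeries.rescale (lam ^ k) h) P = PowerSeries.rescale (lam ^ k) (aeval h P) := by
        rw [hP]
        simp only [map_mul, map_add, map_pow, aeval_X, aeval_C]
        congr 1
        ext n
        rw [PowerSeries.coeff_rescale]
        have : algebraMap ℂ (PowerSeries ℂ) lam = PowerSeries.C lam := rfl
        rw [this, PowerSeries.coeff_C]
        split_ifs with hn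
        · rw [hn]; simp
        · simp
      rw [e1, hfe]
      ext n
      simp only [PowerSeries.coeff_rescale]
      ring
  have h2 := hit q
  rw [hlq] at h2
  have h3 : aeval h (P.comp^[q] X - X) = 0 := by
    rw [map_sub, h2, aeval_X]
    ext n
    simp [PowerSeries.coeff_rescale]
  -- the polynomial is nonzero
  have hdeg : P.natDegree = 2 := by
    rw [hP, natDegree_C_mul hl]
    compute_degree!
  have hne : P.comp^[q] X - X ≠ 0 := by
    intro hc
    have e1 := congrArg natDegree (sub_eq_zero.1 hc)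
    rw [natDegree_iterate_comp, hdeg, natDegree_X, mul_one] at e1
    have : 2 ≤ 2 ^ q := by
      calc 2 = 2 ^ 1 := rfl
        _ ≤ 2 ^ q := Nat.pow_le_pow_right (by norm_num) hq
    omega
  obtain ⟨Q, hQ1, hQ2⟩ := exists_eq_pow_rootMultiplicity_mul_and_not_dvd (P.comp^[q] X - X) hne 0
  rw [hQ1, map_mul, map_pow, map_sub, aeval_X, aeval_C, map_zero, sub_zero] at h3
  have hh0 : h ≠ 0 := by
    intro hc
    have := congrArg (PowerSeries.coeff 1) hc
    simp [hh, h1] at this
  rcases mul_eq_zero.1 h3 with h4 | h4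
  · exact pow_ne_zero _ hh0 h4
  · have h5 := congrArg PowerSeries.constantCoeff h4
    rw [map_zero, aeval_def, Polynomial.hom_eval₂] at h5
    have e1 : PowerSeries.constantCoeff h = 0 := by
      rw [← PowerSeries.coeff_zero_eq_constantCoeff_apply, hh, PowerSeries.coeff_mk, h0]
    have e2 : (PowerSeries.constantCoeff).comp (algebraMap ℂ (PowerSeries ℂ)) = RingHom.id ℂ := by
      ext x <;> simp
    rw [e1, e2, eval₂_id] at h5
    exact hQ2 (dvd_iff_isRoot.2 h5)

end H8.Siegel
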