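import Pool.Agent.H8.Siegel.O11

set_option autoImplicit false
set_option maxRecDepth 100000

namespace H8.Siegel

theorem o180 : orb 115792089237316195423570985008687907853269984665640564035975523566606752940032 115792089237316195423570985008687907853269984665640564036267739456726941302784 3189844551186188337152
    115792089237316195423570985008687907853269984665640564039457584001753869813573 115792089237316195423570985008687907853269984665640564039457583987706121051467 6080612356115 5000
    115792089237316195423570985008687907853269984665640564039457583985096254289695 115792089237316195423570985008687907853269984665640564039457584002968021771064 6030737078273 = true := by
  decide +kernel

theorem o181 : orb 115792089237316195423570985008687907853269984665640564035975523566606752940032 115792089237316195423570985008687907853269984665640564036267739456726941302784 3189844551186188337152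
    13246390340717 115792089237316195423570985008687907853269984665640564039457583994132747479128 6130726229644 5000
    115792089237316195423570985008687907853269984665640564039457584001753869813573 115792089237316195423570985008687907853269984665640564039457583987706121051467 6080612356115 = true := by
  decide +kernel

theorem o182 : orb 115792089237316195423570985008687907853269984665640564035975523566606752940032 115792089237316195423570985008687907853269984665640564036267739456726941302784 3189844551186188337152
    16730345497198 4385333354268 6181079898776 5000
    13246390340717 115792089237316195423570985008687907853269984665640564039457583994132747479128 6130726229644 = true := by
  decide +kernel

theorem o183 : orb 115792089237316195423570985008687907853269984665640564035975523566606752940032 115792089237316195423570985008687907853269984665640564036267739456726941302784 3189844551186188337152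
    3916344684976 15151675729902 6231674532104 5000
    16730345497198 4385333354268 6181079898776 = true := by
  decide +kernel

end H8.Siegel
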