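import Pool.Agent.H8.Siegel.Algo

set_option autoImplicit false

namespace H8.Siegel

/-- the new real part -/
noncomputable def ox (a nb s t : Nat) : Nat := (Nat.mod (Nat.add (Nat.shiftRight (Nat.mod (Nat.add (Nat.add (Nat.mul a s) (Nat.mul nb t)) (nat_lit 6901746346790563787434755862277025452451108972170386555162524223799296)) (nat_lit 115792089237316195423570985008687907853269984665640564039457584007913129639936)) (nat_lit 144)) (nat_lit 115792089237316195423570985008687907853269984665640254554447762662844404858880)) (nat_lit 115792089237316195423570985008687907853269984665640564039457584007913129639936))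

/-- the new imaginary part -/
noncomputable def oy (a b s t : Nat) : Nat := (Nat.mod (Nat.add (Nat.shiftRight (Nat.mod (Nat.add (Nat.add (Nat.mul a t) (Nat.mul b s)) (nat_lit 6901746346790563787434755862277025452451108972170386555162524223799296)) (nat_lit 115792089237316195423570985008687907853269984665640564039457584007913129639936)) (nat_lit 144)) (nat_lit 115792089237316195423570985008687907853269984665640254554447762662844404858880)) (nat_lit 115792089237316195423570985008687907853269984665640564039457584007913129639936))

/-- the new error bound -/
noncomputable def oe (E D : Nat) : Nat := (Nat.add (Nat.shiftRight (Nat.mul (Nat.mul E (Nat.add D (nat_lit 20769187434139310514121985316880384))) (nat_lit 1048577)) (nat_lit 164)) (nat_lit 4194304))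

/-- one step of the critical orbit in fixed point arithmetic (unit `2 ^ (-72)`), modulo `2 ^ 256`;
`E` bounds the square of the error in units -/
noncomputable def ostep (a b nb : Nat) (ih : Nat → Nat → Nat → Bool) (x y E : Nat) : Bool :=
  fN (Nat.add (Nat.add x x) (nat_lit 4722366482869645213696)) fun u =>
  fN (Nat.mod (Nat.add (Nat.mul x (Nat.add x (nat_lit 4722366482869645213696))) (Nat.mul y (Nat.sub (nat_lit 115792089237316195423570985008687907853269984665640564039457584007913129639936) y))) (nat_lit 115792089237316195423570985008687907853269984665640564039457584007913129639936)) fun s =>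
  fN (Nat.mod (Nat.mul u y) (nat_lit 115792089237316195423570985008687907853269984665640564039457584007913129639936)) fun t =>
  fN (Nat.mod (Nat.add (Nat.mul u u) (Nat.mul (Nat.mul (nat_lit 4) y) y)) (nat_lit 115792089237316195423570985008687907853269984665640564039457584007913129639936)) fun D =>
  sel (Nat.ble D (nat_lit 356811923176489970264571492362373784095686656))
    (fN (oe E D) fun E' =>
    sel (Nat.ble E' (nat_lit 1152921504606846976))
      (fN (ox a nb s t) fun x' =>
      fN (oy a b s t) fun y' =>
      ih x' y' E') false) false

/-- run `fuel` steps and compare with the claimed final state -/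
noncomputable def orb (a b nb x1 y1 E1 fuel : Nat) : Nat → Nat → Nat → Bool :=
  Nat.rec (fun x y E => sel (Nat.beq x x1) (sel (Nat.beq y y1) (Nat.beq E E1) false) false)
    (fun _ ih => ostep a b nb ih) fuel

end H8.Siegel
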