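import Pool.Agent.H8.Siegel.Sound
import Pool.Agent.H8.Siegel.Low4
import Pool.Agent.H8.Siegel.Orb

set_option autoImplicit false

namespace H8.Siegel

open Complex

/-- the modulus -/
def oQ : ℕ := 2 ^ 256

theorem ostep_elim {a b nb x y E : ℕ} {ih : ℕ → ℕ → ℕ → Bool} (h : ostep a b nb ih x y E = true) :
    ((x + x + 2 ^ 72) * (x + x + 2 ^ 72) + 4 * y * y) % oQ ≤ 16 * 2 ^ 144 ∧
    E * (((x + x + 2 ^ 72) * (x + x + 2 ^ 72) + 4 * y * y) % oQ + 2 ^ 114) * (2 ^ 20 + 1) / 2 ^ 164 + 2 ^ 22 ≤ 2 ^ 60 ∧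
    ih ((((a * ((x * (x + 2 ^ 72) + y * (oQ - y)) % oQ) + nb * (((x + x + 2 ^ 72) * y) % oQ) + 2 ^ 88 * 2 ^ 144) % oQ)
        / 2 ^ 144 + (oQ - 2 ^ 88)) % oQ)
      ((((a * (((x + x + 2 ^ 72) * y) % oQ) + b * ((x * (x + 2 ^ 72) + y * (oQ - y)) % oQ) + 2 ^ 88 * 2 ^ 144) % oQ)
        / 2 ^ 144 + (oQ - 2 ^ 88)) % oQ)
      (E * (((x + x + 2 ^ 72) * (x + x + 2 ^ 72) + 4 * y * y) % oQ + 2 ^ 114) * (2 ^ 20 + 1) / 2 ^ 164 + 2 ^ 22) = true := by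
  unfold ostep at h
  simp only [fN_eq] at h
  have hD : Nat.mod (Nat.add (Nat.mul (Nat.add (Nat.add x x) 4722366482869645213696) (Nat.add (Nat.add x x) 4722366482869645213696)) (Nat.mul (Nat.mul 4 y) y))
      115792089237316195423570985008687907853269984665640564039457584007913129639936
      = ((x + x + 2 ^ 72) * (x + x + 2 ^ 72) + 4 * y * y) % oQ := by
    unfold oQ; norm_num; rfl
  have hs : Nat.mod (Nat.add (Nat.mul x (Nat.add x 4722366482869645213696)) (Nat.mul y (Nat.sub 115792089237316195423570985008687907853269984665640564039457584007913129639936 y)))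
      115792089237316195423570985008687907853269984665640564039457584007913129639936
      = (x * (x + 2 ^ 72) + y * (oQ - y)) % oQ := by
    unfold oQ; norm_num; rfl
  have ht : Nat.mod (Nat.mul (Nat.add (Nat.add x x) 4722366482869645213696) y)
      115792089237316195423570985008687907853269984665640564039457584007913129639936
      = ((x + x + 2 ^ 72) * y) % oQ := by
    unfold oQ; norm_num; rfl
  rw [hD, hs, ht] at h
  have hE : ∀ E D : ℕ, oe E D = E * (D + 2 ^ 114) * (2 ^ 20 + 1) / 2 ^ 164 + 2 ^ 22 := by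
    intro E D
    unfold oe
    have : ∀ n : ℕ, Nat.shiftRight n 164 = n / 2 ^ 164 := fun n => Nat.shiftRight_eq_div_pow n 164
    rw [this]
    norm_num
  have hx : ∀ a nb s t : ℕ, ox a nb s t = ((((a * s + nb * t + 2 ^ 88 * 2 ^ 144) % oQ) / 2 ^ 144 + (oQ - 2 ^ 88)) % oQ) := by
    intro a nb s t
    unfold ox
    have : ∀ n : ℕ, Nat.shiftRight n 144 = n / 2 ^ 144 := fun n => Nat.shiftRight_eq_div_pow n 144
    rw [this]
    unfold oQ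
    norm_num
    rfl
  have hy : ∀ a b s t : ℕ, oy a b s t = ((((a * t + b * s + 2 ^ 88 * 2 ^ 144) % oQ) / 2 ^ 144 + (oQ - 2 ^ 88)) % oQ) := by
    intro a b s t
    unfold oy
    have : ∀ n : ℕ, Nat.shiftRight n 144 = n / 2 ^ 144 := fun n => Nat.shiftRight_eq_div_pow n 144
    rw [this]
    unfold oQ
    norm_num
    rfl
  rw [hE, hx, hy] at h
  by_cases h1 : ((x + x + 2 ^ 72) * (x + x + 2 ^ 72) + 4 * y * y) % oQ ≤ 16 * 2 ^ 144
  · have e1 : Nat.ble (((x + x + 2 ^ 72) * (x + x + 2 ^ 72) + 4 * y * y) % oQ)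
        356811923176489970264571492362373784095686656 = true := by
      rw [ble_iff]; exact h1
    rw [e1, sel_true] at h
    by_cases h2 : E * (((x + x + 2 ^ 72) * (x + x + 2 ^ 72) + 4 * y * y) % oQ + 2 ^ 114) * (2 ^ 20 + 1) / 2 ^ 164 + 2 ^ 22 ≤ 2 ^ 60
    · have e2 : Nat.ble (E * (((x + x + 2 ^ 72) * (x + x + 2 ^ 72) + 4 * y * y) % oQ + 2 ^ 114) * (2 ^ 20 + 1) / 2 ^ 164 + 2 ^ 22)
          1152921504606846976 = true := by
        rw [ble_iff]; exact h2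
      rw [e2, sel_true] at h
      exact ⟨h1, h2, h⟩
    · have e2 : Nat.ble (E * (((x + x + 2 ^ 72) * (x + x + 2 ^ 72) + 4 * y * y) % oQ + 2 ^ 114) * (2 ^ 20 + 1) / 2 ^ 164 + 2 ^ 22)
          1152921504606846976 = false := by
        rw [← Bool.not_eq_true, ble_iff]; exact h2
      rw [e2, sel_false] at h
      exact absurd h (by simp)
  · have e1 : Nat.ble (((x + x + 2 ^ 72) * (x + x + 2 ^ 72) + 4 * y * y) % oQ)
        356811923176489970264571492362373784095686656 = false := by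
      rw [← Bool.not_eq_true, ble_iff]; exact h1
    rw [e1, sel_false] at h
    exact absurd h (by simp)

/-- the critical orbit -/
noncomputable def zz (lam : ℂ) (k : ℕ) : ℂ := lam ^ (k + 1) * et lam k

theorem zz_succ (lam : ℂ) (k : ℕ) : zz lam (k + 1) = lam * (zz lam k + zz lam k ^ 2) := by
  simp only [zz, et]
  ring

/-- invariant of the orbit computation -/
def OInv (lam : ℂ) (k x y E : ℕ) : Prop :=
  ∃ X Y : ℤ, Rep oQ x X ∧ Rep oQ y Y ∧ x < oQ ∧ y < oQ ∧ |X| ≤ 32 * 2 ^ 72 ∧ |Y| ≤ 32 * 2 ^ 72 ∧ E ≤ 2 ^ 60 ∧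
    ‖(2 : ℂ) ^ 72 * zz lam k - ((X : ℂ) + Y * I)‖ ^ 2 ≤ E

theorem err_step {e d q T : ℝ} {E D E' : ℕ} (he0 : 0 ≤ e) (hd0 : 0 ≤ d) (hq0 : 0 ≤ q) (hT : T = 2 ^ 72)
    (he : e ^ 2 ≤ E) (hE : E ≤ 2 ^ 60) (hd : d ^ 2 * 2 ^ 144 = D) (hD : D ≤ 16 * 2 ^ 144) (hq : q ^ 2 ≤ 2)
    (hE' : E' = E * (D + 2 ^ 114) * (2 ^ 20 + 1) / 2 ^ 164 + 2 ^ 22) :
    (e * (d + e / T) + q) ^ 2 ≤ E' := by
  have hEr : (E : ℝ) ≤ 2 ^ 60 := by exact_mod_cast hE
  have hDr : (D : ℝ) ≤ 16 * 2 ^ 144 := by exact_mod_cast hD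
  have he30 : e ≤ 2 ^ 30 := by
    have : e ^ 2 ≤ (2 ^ 30 : ℝ) ^ 2 := by
      have : ((2 : ℝ) ^ 30) ^ 2 = 2 ^ 60 := by norm_num
      rw [this]; linarith
    exact le_of_sq_le_sq this (by positivity)
  have hd4 : d ≤ 4 := by
    have h1 : d ^ 2 ≤ 4 ^ 2 := by
      have : d ^ 2 * 2 ^ 144 ≤ 16 * 2 ^ 144 := by rw [hd]; exact hDr
      have h2 : d ^ 2 ≤ 16 := le_of_mul_le_mul_right this (by positivity)
      linarith
    exact le_of_sq_le_sq h1 (by norm_num)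
  have h1 : (d + e / T) ^ 2 ≤ (D + 2 ^ 114) / 2 ^ 144 := by
    have e1 : e / T ≤ 1 / 2 ^ 42 := by
      rw [hT, div_le_div_iff₀ (by positivity) (by positivity)]
      have : (2 : ℝ) ^ 30 * 2 ^ 42 = 2 ^ 72 := by norm_num
      nlinarith
    have e0 : 0 ≤ e / T := div_nonneg he0 (by rw [hT]; positivity)
    have e2 : (D + 2 ^ 114 : ℝ) / 2 ^ 144 = d ^ 2 + 1 / 2 ^ 30 := by
      rw [← hd]
      have : (2 : ℝ) ^ 144 = 2 ^ 114 * 2 ^ 30 := by norm_num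
      rw [this]
      field_simp
    rw [e2]
    have e3 : (d + e / T) ^ 2 = d ^ 2 + 2 * (d * (e / T)) + (e / T) ^ 2 := by ring
    have e4 : d * (e / T) ≤ 4 * (1 / 2 ^ 42) := mul_le_mul hd4 e1 e0 (by norm_num)
    have e5 : (e / T) ^ 2 ≤ (1 / 2 ^ 42) ^ 2 := by gcongr
    rw [e3]
    have e6 : 2 * (4 * (1 / 2 ^ 42 : ℝ)) + (1 / 2 ^ 42) ^ 2 ≤ 1 / 2 ^ 30 := by norm_num
    linarith
  set p := e * (d + e / T) with hp
  have hp2 : p ^ 2 ≤ E * ((D + 2 ^ 114) / 2 ^ 144) := by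
    rw [hp, mul_pow]
    exact mul_le_mul he h1 (sq_nonneg _) (Nat.cast_nonneg _)
  have h2 : (p + q) ^ 2 ≤ (1 + 1 / 2 ^ 20) * p ^ 2 + (1 + 2 ^ 20) * q ^ 2 := by
    have : 0 ≤ (p / 2 ^ 10 - 2 ^ 10 * q) ^ 2 := sq_nonneg _
    have e1 : (p / 2 ^ 10 - 2 ^ 10 * q) ^ 2 = p ^ 2 / 2 ^ 20 - 2 * (p * q) + 2 ^ 20 * q ^ 2 := by
      norm_num
      ring
    nlinarith
  have h3 : (E' : ℝ) ≥ (E * (D + 2 ^ 114) * (2 ^ 20 + 1) : ℝ) / 2 ^ 164 - 1 + 2 ^ 22 := by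
    rw [hE', Nat.cast_add]
    have e1 := Nat.lt_div_mul_add (a := E * (D + 2 ^ 114) * (2 ^ 20 + 1)) (b := 2 ^ 164) (by positivity)
    have e2 : ((E * (D + 2 ^ 114) * (2 ^ 20 + 1) : ℕ) : ℝ) <
        ((E * (D + 2 ^ 114) * (2 ^ 20 + 1) / 2 ^ 164 : ℕ) : ℝ) * 2 ^ 164 + 2 ^ 164 := by
      exact_mod_cast e1
    have e3 : (E * (D + 2 ^ 114) * (2 ^ 20 + 1) : ℝ) / 2 ^ 164 <
        ((E * (D + 2 ^ 114) * (2 ^ 20 + 1) / 2 ^ 164 : ℕ) : ℝ) + 1 := by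
      rw [div_lt_iff₀ (by positivity)]
      push_cast at e2
      linarith
    push_cast at e3 ⊢
    linarith
  have h4 : (1 + 1 / 2 ^ 20) * p ^ 2 ≤ (E * (D + 2 ^ 114) * (2 ^ 20 + 1) : ℝ) / 2 ^ 164 := by
    have e1 : (E * (D + 2 ^ 114) * (2 ^ 20 + 1) : ℝ) / 2 ^ 164 =
        (1 + 1 / 2 ^ 20) * (E * ((D + 2 ^ 114) / 2 ^ 144)) := by
      have : (2 : ℝ) ^ 164 = 2 ^ 144 * 2 ^ 20 := by norm_num
      rw [this]
      field_simp
    rw [e1]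
    gcongr
  have h5 : (1 + 2 ^ 20 : ℝ) * q ^ 2 ≤ (1 + 2 ^ 20) * 2 := by gcongr
  have h6 : ((1 + 2 ^ 20) * 2 : ℝ) ≤ 2 ^ 22 - 1 := by norm_num
  linarith

theorem floor_err (P q : ℤ) (hq : 0 < q) : |((P / q : ℤ) : ℝ) - (P : ℝ) / q| ≤ 1 := by
  have h1 : (q : ℝ) * ((P / q : ℤ) : ℝ) + ((P % q : ℤ) : ℝ) = P := by exact_mod_cast Int.mul_ediv_add_emod P q
  have h2 : (0 : ℝ) ≤ ((P % q : ℤ) : ℝ) := by exact_mod_cast Int.emod_nonneg P hq.ne'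
  have h3 : ((P % q : ℤ) : ℝ) < q := by exact_mod_cast Int.emod_lt_of_pos P hq
  have hq' : (0 : ℝ) < q := by exact_mod_cast hq
  have h4 : ((P / q : ℤ) : ℝ) - (P : ℝ) / q = -(((P % q : ℤ) : ℝ) / q) := by
    rw [← h1]
    field_simp
    ring
  rw [h4, abs_neg, abs_of_nonneg (by positivity), div_le_one hq']
  exact h3.le

theorem int_D {T X Y : ℤ} (hT : 1 ≤ T) (hX : |X| ≤ 32 * T) (hY : |Y| ≤ 32 * T) :
    0 ≤ (X + X + T) * (X + X + T) + 4 * Y * Y ∧ (X + X + T) * (X + X + T) + 4 * Y * Y < 1099511627776 * T ^ 3 := by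
  have hX' := abs_le.1 hX
  have h0 : (0 : ℤ) ≤ (X + X + T) * (X + X + T) + 4 * Y * Y := by
    nlinarith [mul_self_nonneg (X + X + T), mul_self_nonneg Y]
  refine ⟨h0, ?_⟩
  have e1 : (X + X + T) * (X + X + T) ≤ (65 * T) * (65 * T) := by
    have : |X + X + T| ≤ 65 * T := abs_le.2 ⟨by linarith, by linarith⟩
    have := mul_self_le_mul_self (abs_nonneg _) this
    rwa [abs_mul_abs_self] at this
  have e2 : Y * Y ≤ (32 * T) * (32 * T) := by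
    have := mul_self_le_mul_self (abs_nonneg _) hY
    rwa [abs_mul_abs_self] at this
  have e3 : (0 : ℤ) < T ^ 2 := by positivity
  have e4 : T ^ 3 ≥ T ^ 2 := by nlinarith
  nlinarith

theorem int_P {T X Y A B S Tt : ℤ} (hT : 1 ≤ T) (hA : |A| ≤ T) (hB : |B| ≤ T)
    (hD16 : (X + X + T) * (X + X + T) + 4 * Y * Y ≤ 16 * T ^ 2) (hS : S = X * (X + T) + Y * (-Y))
    (hTt : Tt = (X + X + T) * Y) :
    |A * S + (-B) * Tt| ≤ 24 * T ^ 3 ∧ |A * Tt + B * S| ≤ 24 * T ^ 3 := by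
  have hb1 : |X + X + T| ≤ 4 * T := by
    have : |X + X + T| ^ 2 ≤ (4 * T) ^ 2 := by rw [sq_abs]; nlinarith [mul_self_nonneg Y]
    exact le_of_sq_le_sq this (by positivity)
  have hb2 : |Y| ≤ 2 * T := by
    have : |Y| ^ 2 ≤ (2 * T) ^ 2 := by rw [sq_abs]; nlinarith [mul_self_nonneg (X + X + T)]
    exact le_of_sq_le_sq this (by positivity)
  have hb1' := abs_le.1 hb1
  have hb2' := abs_le.1 hb2
  have hXb : |X| ≤ 3 * T := abs_le.2 ⟨by linarith, by linarith⟩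
  have hSb : |S| ≤ 16 * T ^ 2 := by
    rw [hS]
    have e1 : |X * (X + T)| ≤ (3 * T) * (4 * T) := by
      rw [abs_mul]
      exact mul_le_mul hXb (abs_le.2 ⟨by linarith [(abs_le.1 hXb).1], by linarith [(abs_le.1 hXb).2]⟩)
        (abs_nonneg _) (by positivity)
    have e2 : |Y * (-Y)| ≤ (2 * T) * (2 * T) := by
      rw [abs_mul, abs_neg]
      exact mul_le_mul hb2 hb2 (abs_nonneg _) (by positivity)
    have := abs_add_le (X * (X + T)) (Y * (-Y))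
    nlinarith
  have hTb : |Tt| ≤ 8 * T ^ 2 := by
    rw [hTt, abs_mul]
    have := mul_le_mul hb1 hb2 (abs_nonneg _) (by positivity)
    nlinarith
  constructor
  · have e1 : |A * S| ≤ T * (16 * T ^ 2) := by rw [abs_mul]; exact mul_le_mul hA hSb (abs_nonneg _) (by positivity)
    have e2 : |(-B) * Tt| ≤ T * (8 * T ^ 2) := by
      rw [abs_mul, abs_neg]; exact mul_le_mul hB hTb (abs_nonneg _) (by positivity)
    have := abs_add_le (A * S) ((-B) * Tt)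
    have e3 : (T : ℤ) * (16 * T ^ 2) + T * (8 * T ^ 2) = 24 * T ^ 3 := by ring
    linarith
  · have e1 : |A * Tt| ≤ T * (8 * T ^ 2) := by rw [abs_mul]; exact mul_le_mul hA hTb (abs_nonneg _) (by positivity)
    have e2 : |B * S| ≤ T * (16 * T ^ 2) := by
      rw [abs_mul]; exact mul_le_mul hB hSb (abs_nonneg _) (by positivity)
    have := abs_add_le (A * Tt) (B * S)
    have e3 : (T : ℤ) * (8 * T ^ 2) + T * (16 * T ^ 2) = 24 * T ^ 3 := by ring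
    linarith

theorem int_div {T P T2 : ℤ} (hT : 1 ≤ T) (hT2 : T2 = T ^ 2) (hP : |P| ≤ 24 * T ^ 3) : |P / T2| ≤ 32 * T := by
  have hT2p : (0 : ℤ) < T2 := by rw [hT2]; positivity
  have h1 := abs_le.1 hP
  rw [abs_le]
  constructor
  · refine le_trans (by linarith) (Int.le_ediv_of_mul_le (a := -(24 * T)) hT2p ?_)
    rw [hT2]
    linarith [show -(24 * T) * T ^ 2 = -(24 * T ^ 3) by ring]
  · refine le_trans (Int.ediv_le_of_le_mul (b := 24 * T) hT2p ?_) (by linarith)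
    rw [hT2]
    linarith [show (24 * T) * T ^ 2 = 24 * T ^ 3 by ring]

/-- the complex estimate -/
theorem cpx_step {lam z W W' : ℂ} (hlam : ‖lam‖ ≤ 1) {T T2 : ℕ} (hT0 : 0 < T) (hT2 : (T2 : ℤ) = (T : ℤ) ^ 2)
    {X Y A B S Tt Px Py : ℤ} (hAB : (T : ℂ) * lam = (A : ℂ) + B * I)
    (hS : S = X * (X + T) + Y * (-Y)) (hTt : Tt = (X + X + T) * Y) (hPx : Px = A * S + (-B) * Tt)
    (hPy : Py = A * Tt + B * S) (hW : W = (X : ℂ) + Y * I)
    (hW' : W' = ((Px / T2 : ℤ) : ℂ) + ((Py / T2 : ℤ) : ℂ) * I) :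
    ∃ d q : ℝ, 0 ≤ d ∧ 0 ≤ q ∧ q ^ 2 ≤ 2 ∧ d ^ 2 * (T : ℝ) ^ 2 = (((X + X + T) * (X + X + T) + 4 * Y * Y : ℤ) : ℝ) ∧
      ‖(T : ℂ) * (lam * (z + z ^ 2)) - W'‖ ≤ ‖(T : ℂ) * z - W‖ * (d + ‖(T : ℂ) * z - W‖ / T) + q := by
  have hT0' : (0 : ℝ) < T := by exact_mod_cast hT0
  have hTc0 : (T : ℂ) ≠ 0 := by exact_mod_cast hT0.ne'
  have hP : ((Px : ℂ) + Py * I) = (T * lam) * (W ^ 2 + T * W) := by
    rw [hAB, hW, hPx, hPy, hS, hTt]
    push_cast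
    linear_combination (-(A : ℂ) * Y ^ 2 - B * I * Y ^ 2 - 2 * B * X * Y - B * Y * T) * (I_sq)
  have hnT : ‖(T : ℂ)‖ = T := by simp
  obtain ⟨q, hq⟩ : ∃ q : ℝ, q = ‖((Px : ℂ) + Py * I) / T ^ 2 - W'‖ := ⟨_, rfl⟩
  have hq2 : q ^ 2 ≤ 2 := by
    have hT2p : (0 : ℤ) < T2 := by rw [hT2]; positivity
    have e1 := floor_err Px T2 hT2p
    have e2 := floor_err Py T2 hT2p
    have hT2r : (((T2 : ℕ) : ℤ) : ℝ) = (T : ℝ) ^ 2 := by exact_mod_cast hT2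
    have e3 : ((Px : ℂ) + Py * I) / T ^ 2 - W' =
        (((Px : ℝ) / (T : ℝ) ^ 2 - ((Px / T2 : ℤ) : ℝ) : ℝ) : ℂ) + (((Py : ℝ) / (T : ℝ) ^ 2 - ((Py / T2 : ℤ) : ℝ) : ℝ) : ℂ) * I := by
      rw [hW']
      push_cast
      field_simp
      ring
    rw [hq, e3, ← Complex.normSq_eq_norm_sq, Complex.normSq_add_mul_I]
    rw [hT2r, abs_sub_comm] at e1 e2
    have e4 : ((Px : ℝ) / (T : ℝ) ^ 2 - ((Px / T2 : ℤ) : ℝ)) ^ 2 ≤ 1 := by
      rw [← sq_abs]; exact pow_le_one₀ (abs_nonneg _) e1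
    have e5 : ((Py : ℝ) / (T : ℝ) ^ 2 - ((Py / T2 : ℤ) : ℝ)) ^ 2 ≤ 1 := by
      rw [← sq_abs]; exact pow_le_one₀ (abs_nonneg _) e2
    linarith
  obtain ⟨d, hd⟩ : ∃ d : ℝ, d = ‖1 + 2 * (W / T)‖ := ⟨_, rfl⟩
  refine ⟨d, q, by rw [hd]; exact norm_nonneg _, by rw [hq]; exact norm_nonneg _, hq2, ?_, ?_⟩
  · have e1 : (T : ℝ) ^ 2 = ‖(T : ℂ)‖ ^ 2 := by rw [hnT]
    rw [hd, e1, ← mul_pow, ← norm_mul]
    have e2 : (1 + 2 * (W / T)) * (T : ℂ) = (((X + X + T : ℤ)) : ℂ) + ((2 * Y : ℤ) : ℂ) * I := by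
      rw [hW]
      push_cast
      field_simp
      ring
    rw [e2, norm_int]
    push_cast
    ring
  · have e1 : (T : ℂ) * (lam * (z + z ^ 2)) - W' = lam * ((T * z - W) * ((1 + 2 * (W / T)) + (T * z - W) / T))
        + (((Px : ℂ) + Py * I) / T ^ 2 - W') := by
      rw [hP]
      field_simp
      ring
    rw [e1]
    refine (norm_add_le _ _).trans ?_
    rw [← hq]
    have e2 : ‖(1 + 2 * (W / T)) + (T * z - W) / T‖ ≤ d + ‖(T : ℂ) * z - W‖ / T := by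
      refine (norm_add_le _ _).trans ?_
      rw [← hd, norm_div, hnT]
    have e3 : ‖(T : ℂ) * z - W‖ * ‖(1 + 2 * (W / T)) + (T * z - W) / T‖ ≤
        ‖(T : ℂ) * z - W‖ * (d + ‖(T : ℂ) * z - W‖ / T) := by gcongr
    have e4 : ‖lam * ((T * z - W) * ((1 + 2 * (W / T)) + (T * z - W) / T))‖ ≤
        ‖(T : ℂ) * z - W‖ * (d + ‖(T : ℂ) * z - W‖ / T) := by
      rw [norm_mul, norm_mul]
      refine le_trans (mul_le_of_le_one_left (by positivity) hlam) e3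
    linarith

theorem ostep_sound {lam : ℂ} (hlam : ‖lam‖ ≤ 1) {a b nb : ℕ} {A B : ℤ} (ha : Rep oQ a A) (hb : Rep oQ b B)
    (hnb : Rep oQ nb (-B)) (hAB : (2 : ℂ) ^ 72 * lam = (A : ℂ) + B * I) (hA : |A| ≤ 2 ^ 72) (hB : |B| ≤ 2 ^ 72)
    {ih : ℕ → ℕ → ℕ → Bool} {k x y E : ℕ} (hI : OInv lam k x y E) (h : ostep a b nb ih x y E = true) :
    ∃ x' y' E', OInv lam (k + 1) x' y' E' ∧ ih x' y' E' = true := by
  obtain ⟨X, Y, hX, hY, hxQ, hyQ, hX32, hY32, hE60, herr⟩ := hI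
  obtain ⟨hD, hE, hih⟩ := ostep_elim h
  obtain ⟨T, hT⟩ : ∃ T : ℕ, T = 2 ^ 72 := ⟨_, rfl⟩
  obtain ⟨T2, hT2⟩ : ∃ T2 : ℕ, T2 = 2 ^ 144 := ⟨_, rfl⟩
  obtain ⟨K, hK⟩ : ∃ K : ℕ, K = 2 ^ 88 := ⟨_, rfl⟩
  have hTz : (T : ℤ) = 2 ^ 72 := by rw [hT]; norm_num
  have hT2z : (T2 : ℤ) = (T : ℤ) ^ 2 := by rw [hT, hT2]; norm_num
  have hKz : (K : ℤ) = 65536 * (T : ℤ) := by rw [hT, hK]; norm_num
  have hTr : (T : ℝ) = 2 ^ 72 := by rw [hT]; norm_num
  have hTc : (T : ℂ) = 2 ^ 72 := by rw [hT]; norm_num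
  have hT0 : 0 < T := by rw [hT]; norm_num
  have hT1 : (1 : ℤ) ≤ T := by exact_mod_cast hT0
  have hQz : (oQ : ℤ) = 1099511627776 * (T : ℤ) ^ 3 := by rw [hT, oQ]; norm_num
  have hKQ : 2 * (K * T2) < oQ := by
    rw [hK, hT2, oQ]; norm_num
  have hKT : (24 : ℤ) * (T : ℤ) ^ 3 ≤ (K : ℤ) * T2 := by
    rw [hT2z, hKz]
    have e1 : (0 : ℤ) ≤ (T : ℤ) ^ 3 := pow_nonneg (by linarith only [hT1]) 3
    have e2 : 65536 * (T : ℤ) * (T : ℤ) ^ 2 = 65536 * (T : ℤ) ^ 3 := by ring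
    rw [e2]
    linarith only [e1]
  have hQ0 : 0 < oQ := by unfold oQ; positivity
  have hT2pos : 0 < T2 := by rw [hT2]; norm_num
  rw [← hT] at hD hE hih
  have hD' := hD
  rw [← hT2] at hD hih
  rw [← hK] at hih
  rw [← hTz] at hA hB hX32 hY32
  rw [← hTc] at herr hAB
  obtain ⟨sN, hsN⟩ : ∃ sN : ℕ, sN = (x * (x + T) + y * (oQ - y)) % oQ := ⟨_, rfl⟩
  obtain ⟨tN, htN⟩ : ∃ tN : ℕ, tN = (x + x + T) * y % oQ := ⟨_, rfl⟩
  obtain ⟨DN, hDN⟩ : ∃ DN : ℕ, DN = ((x + x + T) * (x + x + T) + 4 * y * y) % oQ := ⟨_, rfl⟩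
  rw [← hDN] at hD hD' hE hih
  rw [← hsN, ← htN] at hih
  have hsR : Rep oQ sN (X * (X + T) + Y * (-Y)) := by
    rw [hsN]
    exact ((hX.mul (hX.add (Rep.nat _ _))).add (hY.mul (hY.neg hyQ.le))).mod
  have htR : Rep oQ tN ((X + X + T) * Y) := by
    rw [htN]
    exact (((hX.add hX).add (Rep.nat _ _)).mul hY).mod
  have hDR : Rep oQ DN ((X + X + T) * (X + X + T) + 4 * Y * Y) := by
    rw [hDN]
    have h4 : Rep oQ 4 4 := by unfold Rep; simp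
    exact ((((hX.add hX).add (Rep.nat _ _)).mul ((hX.add hX).add (Rep.nat _ _))).add ((h4.mul hY).mul hY)).mod
  have hDeq : (DN : ℤ) = (X + X + T) * (X + X + T) + 4 * Y * Y := by
    obtain ⟨h0, h1⟩ := int_D hT1 hX32 hY32
    exact hDR.eq_of_nonneg (by rw [hDN]; exact Nat.mod_lt _ hQ0) h0 (by rw [hQz]; exact h1)
  have hD16 : (X + X + T) * (X + X + T) + 4 * Y * Y ≤ 16 * (T : ℤ) ^ 2 := by
    rw [← hDeq, ← hT2z]
    exact_mod_cast hD
  obtain ⟨S, hS⟩ : ∃ S : ℤ, S = X * (X + T) + Y * (-Y) := ⟨_, rfl⟩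
  obtain ⟨Tt, hTt⟩ : ∃ Tt : ℤ, Tt = (X + X + T) * Y := ⟨_, rfl⟩
  rw [← hS] at hsR
  rw [← hTt] at htR
  obtain ⟨hPxb, hPyb⟩ := int_P hT1 hA hB hD16 hS hTt
  obtain ⟨Px, hPx⟩ : ∃ Px : ℤ, Px = A * S + (-B) * Tt := ⟨_, rfl⟩
  obtain ⟨Py, hPy⟩ : ∃ Py : ℤ, Py = A * Tt + B * S := ⟨_, rfl⟩
  rw [← hPx] at hPxb
  rw [← hPy] at hPyb
  have hKTz : ((K * T2 : ℕ) : ℤ) = K * T2 := by push_cast; ring
  have hrx : Rep oQ (((a * sN + nb * tN + K * T2) % oQ) / T2 + (oQ - K)) (Px / T2) := by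
    refine rep_div hT2pos ?_ (hPxb.trans hKT) hKQ
    rw [hPx, ← hKTz]
    exact ((ha.mul hsR).add (hnb.mul htR)).add (Rep.nat _ _)
  have hry : Rep oQ (((a * tN + b * sN + K * T2) % oQ) / T2 + (oQ - K)) (Py / T2) := by
    refine rep_div hT2pos ?_ (hPyb.trans hKT) hKQ
    rw [hPy, ← hKTz]
    exact ((ha.mul htR).add (hb.mul hsR)).add (Rep.nat _ _)
  refine ⟨_, _, _, ⟨Px / T2, Py / T2, hrx.mod, hry.mod, Nat.mod_lt _ hQ0,
    Nat.mod_lt _ hQ0, ?_, ?_, hE, ?_⟩, hih⟩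
  · rw [← hTz]; exact int_div hT1 hT2z hPxb
  · rw [← hTz]; exact int_div hT1 hT2z hPyb
  · rw [zz_succ, ← hTc]
    obtain ⟨d, q, hd0, hq0, hq2, hdD, hmain⟩ := cpx_step (z := zz lam k) hlam hT0 hT2z hAB hS hTt hPx hPy rfl rfl
    have hdD' : d ^ 2 * 2 ^ 144 = DN := by
      have e1 : ((DN : ℤ) : ℝ) = (((X + X + T) * (X + X + T) + 4 * Y * Y : ℤ) : ℝ) := by rw [hDeq]
      rw [← hdD] at e1
      have e2 : (T : ℝ) ^ 2 = 2 ^ 144 := by rw [hTr]; norm_num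
      rw [e2] at e1
      rw [← e1]
      simp
    have hfin := err_step (T := T) (E := E) (D := DN) (norm_nonneg _) hd0 hq0 hTr herr hE60 hdD' hD' hq2 rfl
    refine le_trans ?_ hfin
    gcongr

theorem beq_iff' (a b : ℕ) : Nat.beq a b = true ↔ a = b := by
  rw [Nat.beq_eq]

/-- soundness of a run -/
theorem orb_sound {lam : ℂ} (hlam : ‖lam‖ ≤ 1) {a b nb : ℕ} {A B : ℤ} (ha : Rep oQ a A) (hb : Rep oQ b B)
    (hnb : Rep oQ nb (-B)) (hAB : (2 : ℂ) ^ 72 * lam = (A : ℂ) + B * I) (hA : |A| ≤ 2 ^ 72) (hB : |B| ≤ 2 ^ 72)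
    {x1 y1 E1 : ℕ} (fuel : ℕ) {k x y E : ℕ} (hI : OInv lam k x y E)
    (h : orb a b nb x1 y1 E1 fuel x y E = true) : OInv lam (k + fuel) x1 y1 E1 := by
  induction fuel generalizing k x y E with
  | zero =>
    have h' : sel (Nat.beq x x1) (sel (Nat.beq y y1) (Nat.beq E E1) false) false = true := h
    cases hx : Nat.beq x x1
    · rw [hx, sel_false] at h'; exact absurd h' (by simp)
    · rw [hx, sel_true] at h'
      cases hy : Nat.beq y y1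
      · rw [hy, sel_false] at h'; exact absurd h' (by simp)
      · rw [hy, sel_true] at h'
        rw [beq_iff'] at hx hy h'
        subst hx hy h'
        exact hI
  | succ f ih =>
    have h' : ostep a b nb (orb a b nb x1 y1 E1 f) x y E = true := h
    obtain ⟨x', y', E', hI', h2⟩ := ostep_sound hlam ha hb hnb hAB hA hB hI h'
    have := ih hI' h2
    rwa [Nat.add_assoc, Nat.add_comm 1 f] at this

/-- the tail of the critical orbit -/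
theorem et_tail {lam : ℂ} {r z0 q : ℝ} (hr : ‖lam‖ ≤ r) {N : ℕ} (hz0 : ‖zz lam N‖ ≤ z0) (hz1 : z0 ≤ 1)
    (hq : r * (1 + z0) ≤ q) (hq1 : q < 1) (k : ℕ) (hk : N ≤ k) :
    ‖et lam N‖ * (1 - z0 / (1 - q)) ≤ ‖et lam k‖ := by
  have hr0 : 0 ≤ r := (norm_nonneg _).trans hr
  have hz00 : 0 ≤ z0 := (norm_nonneg _).trans hz0
  have hq0 : 0 ≤ q := le_trans (by positivity) hq
  have key : ∀ j : ℕ, ‖zz lam (N + j)‖ ≤ z0 * q ^ j ∧
      ‖et lam N‖ * (1 - z0 * ∑ i ∈ Finset.range j, q ^ i) ≤ ‖et lam (N + j)‖ := by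
    intro j
    induction j with
    | zero => simpa using hz0
    | succ j ih =>
      obtain ⟨ih1, ih2⟩ := ih
      have hqj : q ^ j ≤ 1 := pow_le_one₀ hq0 hq1.le
      have hzz : ‖zz lam (N + j)‖ ≤ z0 := ih1.trans (mul_le_of_le_one_right hz00 hqj)
      constructor
      · rw [← Nat.add_assoc, zz_succ]
        have e1 : lam * (zz lam (N + j) + zz lam (N + j) ^ 2) = lam * (zz lam (N + j) * (1 + zz lam (N + j))) := by ring
        rw [e1, norm_mul, norm_mul]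
        have e2 : ‖1 + zz lam (N + j)‖ ≤ 1 + z0 := by
          refine (norm_add_le _ _).trans ?_
          rw [norm_one]
          linarith
        calc ‖lam‖ * (‖zz lam (N + j)‖ * ‖1 + zz lam (N + j)‖) ≤ r * ((z0 * q ^ j) * (1 + z0)) := by gcongr
          _ = (r * (1 + z0)) * (z0 * q ^ j) := by ring
          _ ≤ q * (z0 * q ^ j) := by gcongr
          _ = z0 * q ^ (j + 1) := by ring
      · have e1 : et lam (N + j + 1) = et lam (N + j) * (1 + zz lam (N + j)) := by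
          simp only [et, zz]
        rw [← Nat.add_assoc, e1, norm_mul]
        have e2 : 1 - ‖zz lam (N + j)‖ ≤ ‖1 + zz lam (N + j)‖ := by
          have := norm_sub_norm_le 1 (-zz lam (N + j))
          rw [norm_one, norm_neg, sub_neg_eq_add] at this
          exact this
        have e3 : 0 ≤ 1 - ‖zz lam (N + j)‖ := by linarith
        have hs0 : 0 ≤ z0 * ∑ i ∈ Finset.range j, q ^ i := by positivity
        rw [Finset.sum_range_succ]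
        calc ‖et lam N‖ * (1 - z0 * (∑ i ∈ Finset.range j, q ^ i + q ^ j))
            ≤ (‖et lam N‖ * (1 - z0 * ∑ i ∈ Finset.range j, q ^ i)) * (1 - ‖zz lam (N + j)‖) := by
              rw [mul_assoc]
              refine mul_le_mul_of_nonneg_left ?_ (norm_nonneg _)
              nlinarith [norm_nonneg (zz lam (N + j)), mul_nonneg hs0 (norm_nonneg (zz lam (N + j)))]
          _ ≤ ‖et lam (N + j)‖ * (1 - ‖zz lam (N + j)‖) := by gcongr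
          _ ≤ ‖et lam (N + j)‖ * ‖1 + zz lam (N + j)‖ := by gcongr
  obtain ⟨j, rfl⟩ := Nat.exists_eq_add_of_le hk
  refine le_trans ?_ (key j).2
  refine mul_le_mul_of_nonneg_left ?_ (norm_nonneg _)
  have h1 : ∑ i ∈ Finset.range j, q ^ i ≤ 1 / (1 - q) := by
    have h2 : 0 < 1 - q := by linarith
    rw [le_div_iff₀ h2, geom_sum_mul_neg]
    have : 0 ≤ q ^ j := pow_nonneg hq0 j
    linarith
  have h3 : z0 * ∑ i ∈ Finset.range j, q ^ i ≤ z0 * (1 / (1 - q)) := by gcongr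
  rw [mul_one_div] at h3
  linarith

/-- a lower bound for the normalised critical orbit from integer data -/
theorem et_lower_aux {lam : ℂ} {N rn rd en em D T : ℕ} (hT : (T : ℝ) = 2 ^ 72) (hrd : 0 < rd) (hrn : 0 < rn)
    (hem : 0 < em) (hr : ‖lam‖ ≤ (rn : ℝ) / rd) (h1 : (D : ℝ) / 2 ^ 72 ≤ ‖zz lam N‖)
    (h3 : en * T * rn ^ (N + 1) ≤ em * D * rd ^ (N + 1)) : (en : ℝ) / em ≤ ‖et lam N‖ := by
  have h2 : ‖zz lam N‖ ≤ ‖et lam N‖ * ((rn : ℝ) ^ (N + 1) / (rd : ℝ) ^ (N + 1)) := by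
    rw [zz, norm_mul, norm_pow, mul_comm, ← div_pow]
    exact mul_le_mul_of_nonneg_left (pow_le_pow_left₀ (norm_nonneg _) hr _) (norm_nonneg _)
  have h3' : (en : ℝ) * T * (rn : ℝ) ^ (N + 1) ≤ em * D * (rd : ℝ) ^ (N + 1) := by exact_mod_cast h3
  have hp1 : (0 : ℝ) < (rn : ℝ) ^ (N + 1) := by positivity
  have hp2 : (0 : ℝ) < (rd : ℝ) ^ (N + 1) := by positivity
  rw [← hT] at h1
  have hT0 : (0 : ℝ) < T := by rw [hT]; positivity
  generalize (rn : ℝ) ^ (N + 1) = P1 at *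
  generalize (rd : ℝ) ^ (N + 1) = P2 at *
  have h4 : (D : ℝ) / T ≤ ‖et lam N‖ * (P1 / P2) := h1.trans h2
  rw [div_le_iff₀ hT0] at h4
  have h5 : (D : ℝ) * P2 ≤ ‖et lam N‖ * P1 * T := by
    calc (D : ℝ) * P2 ≤ (‖et lam N‖ * (P1 / P2) * T) * P2 := by gcongr
      _ = ‖et lam N‖ * P1 * T := by field_simp
  have hem' : (0 : ℝ) < em := by exact_mod_cast hem
  rw [div_le_iff₀ hem']
  have h6 : (en : ℝ) * (T * P1) ≤ (‖et lam N‖ * em) * (T * P1) := by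
    calc (en : ℝ) * (T * P1) = en * T * P1 := by ring
      _ ≤ em * D * P2 := h3'
      _ = em * (D * P2) := by ring
      _ ≤ em * (‖et lam N‖ * P1 * T) := by gcongr
      _ = (‖et lam N‖ * em) * (T * P1) := by ring
  exact le_of_mul_le_mul_right h6 (by positivity)

end H8.Siegel
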