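import Pool.Agent.H8.Siegel.Digits

set_option autoImplicit false

namespace H8.Siegel

open Polynomial Finset Complex

theorem norm_int (a b : ℤ) : ‖((a : ℂ) + b * I)‖ ^ 2 = ((a ^ 2 + b ^ 2 : ℤ) : ℝ) := by
  rw [← Complex.normSq_eq_norm_sq, Complex.normSq_apply]
  simp; ring

theorem re_int (a b : ℤ) : ((a : ℂ) + b * I).re = a := by simp
theorem im_int (a b : ℤ) : ((a : ℂ) + b * I).im = b := by simp

theorem abs_int_le {a b : ℤ} {r : ℝ} (h : ‖((a : ℂ) + b * I)‖ ≤ r) :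
    |(a : ℝ)| ≤ r ∧ |(b : ℝ)| ≤ r := by
  have h1 := Complex.abs_re_le_norm ((a : ℂ) + b * I)
  have h2 := Complex.abs_im_le_norm ((a : ℂ) + b * I)
  rw [re_int] at h1; rw [im_int] at h2
  exact ⟨h1.trans h, h2.trans h⟩

/-- facts about `sqrtUp` for a complex integer -/
theorem sqrt_facts {a b : ℤ} {na nb s SU : ℕ} (ha : (na : ℤ) = |a|) (hb : (nb : ℤ) = |b|)
    (hs : s = na * na + nb * nb) (hSU : SU = sqrtUp na nb s) :
    (s : ℝ) = ‖((a : ℂ) + b * I)‖ ^ 2 ∧ ‖((a : ℂ) + b * I)‖ ≤ SU ∧ (0 : ℝ) < SU ∧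
      ((s / SU : ℕ) : ℝ) ≤ ‖((a : ℂ) + b * I)‖ := by
  have h1 : (s : ℤ) = a ^ 2 + b ^ 2 := by
    rw [hs]; push_cast; rw [ha, hb, abs_mul_abs_self, abs_mul_abs_self]; ring
  have h2 : (s : ℝ) = ‖((a : ℂ) + b * I)‖ ^ 2 := by
    rw [norm_int, ← h1]; simp
  have h3 : s ≤ SU * SU := by rw [hSU]; exact sqrtUp_le hs
  have h4 : (0 : ℝ) < SU := by rw [hSU]; exact_mod_cast sqrtUp_pos _ _ _
  have h5 : ‖((a : ℂ) + b * I)‖ ≤ SU := by
    apply le_of_sq_le_sq _ h4.le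
    rw [← h2]
    have : (s : ℝ) ≤ SU * SU := by exact_mod_cast h3
    rw [sq]; exact this
  refine ⟨h2, h5, h4, ?_⟩
  have h6 : ((s / SU : ℕ) : ℝ) ≤ (s : ℝ) / SU := Nat.cast_div_le
  refine h6.trans ?_
  rw [div_le_iff₀ h4, h2, sq]
  exact mul_le_mul_of_nonneg_left h5 (norm_nonneg _)

theorem lemmaA {tt : ℝ} (htt : 0 ≤ tt) {cc den num S D : ℂ} {W d UD SL : ℕ}
    (h : cc * den = num) (hS : ‖(tt : ℂ) ^ 2 * num - S‖ ≤ W) (hD : ‖(tt : ℂ) * den - D‖ ≤ d)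
    (hUD : ‖D‖ ≤ UD) (hUDpos : (0 : ℝ) < UD) (hSL : (SL : ℝ) ≤ ‖S‖) :
    (((SL - W) / (UD + d) : ℕ) : ℝ) ≤ tt * ‖cc‖ := by
  have hpos : (0 : ℝ) < (UD : ℝ) + d := by positivity
  have hc : 0 ≤ tt * ‖cc‖ := by positivity
  rcases le_or_gt SL W with h0 | h0
  · have : (SL - W) / (UD + d) = 0 := by
      rw [Nat.sub_eq_zero_of_le h0]; simp
    rw [this]; simpa using hc
  · refine Nat.cast_div_le.trans ?_
    rw [Nat.cast_sub h0.le, Nat.cast_add, div_le_iff₀ hpos]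
    have h1 : ‖S‖ - W ≤ ‖(tt : ℂ) ^ 2 * num‖ := by
      have := norm_sub_norm_le S ((tt : ℂ) ^ 2 * num)
      rw [norm_sub_rev] at this
      linarith
    have h2 : ‖(tt : ℂ) ^ 2 * num‖ = tt * ‖cc‖ * ‖(tt : ℂ) * den‖ := by
      rw [← h]
      simp only [norm_mul, norm_pow, Complex.norm_real, Real.norm_eq_abs, abs_of_nonneg htt]
      ring
    have h3 : ‖(tt : ℂ) * den‖ ≤ UD + d := by
      have := norm_sub_norm_le ((tt : ℂ) * den) D
      linarith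
    have h4 := mul_le_mul_of_nonneg_left h3 hc
    linarith

theorem lemmaB {tt : ℝ} {cc den num S D Zr : ℂ} {W d LD SU m E : ℕ}
    (h : cc * den = num) (hS : ‖(tt : ℂ) ^ 2 * num - S‖ ≤ W)
    (hD : ‖(tt : ℂ) * den - D‖ ≤ d) (hLD : (LD : ℝ) ≤ ‖D‖) (hd : d < LD) (hSU : ‖S‖ ≤ SU)
    (hm : m = SU / LD + 3) (hE : E = (W + m * d) / (LD - d) + 3)
    (hZ : ‖Zr - S / D‖ ≤ 2) :
    ‖(tt : ℂ) * cc - Zr‖ ≤ E ∧ ‖Zr‖ ≤ m ∧ ‖S / D‖ ≤ m := by
  have hLD0 : (0 : ℝ) < LD := by exact_mod_cast (by omega : 0 < LD)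
  have hDpos : 0 < ‖D‖ := lt_of_lt_of_le hLD0 hLD
  have hD0 : D ≠ 0 := norm_pos_iff.1 hDpos
  have h1 : ‖S / D‖ ≤ (SU : ℝ) / LD := by
    rw [norm_div]
    exact div_le_div₀ (Nat.cast_nonneg _) hSU hLD0 hLD
  have h2 : (SU : ℝ) / LD ≤ (SU / LD : ℕ) + 1 := by
    rw [div_le_iff₀ hLD0]
    have := Nat.lt_mul_div_succ SU (show 0 < LD by omega)
    have h3 : (SU : ℝ) < LD * (SU / LD + 1 : ℕ) := by exact_mod_cast this
    push_cast at h3 ⊢
    nlinarith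
  have hmr : (m : ℝ) = (SU / LD : ℕ) + 3 := by rw [hm]; push_cast; ring
  have h3 : ‖S / D‖ ≤ m - 2 := by rw [hmr]; linarith
  have h4 : ‖Zr‖ ≤ m := by
    have := norm_sub_norm_le Zr (S / D)
    linarith
  refine ⟨?_, h4, by linarith⟩
  -- main estimate
  have hden : (LD : ℝ) - d ≤ ‖(tt : ℂ) * den‖ := by
    have := norm_sub_norm_le D ((tt : ℂ) * den)
    rw [norm_sub_rev] at this
    linarith
  have hLd : (0 : ℝ) < (LD : ℝ) - d := by
    have : (d : ℝ) < LD := by exact_mod_cast hd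
    linarith
  have hkey : ((tt : ℂ) * cc - S / D) * ((tt : ℂ) * den) =
      ((tt : ℂ) ^ 2 * num - S) - (S / D) * ((tt : ℂ) * den - D) := by
    rw [← h]; field_simp; ring
  have h5 : ‖(tt : ℂ) * cc - S / D‖ * ‖(tt : ℂ) * den‖ ≤ W + m * d := by
    rw [← norm_mul, hkey]
    refine (norm_sub_le _ _).trans (add_le_add hS ?_)
    rw [norm_mul]
    exact mul_le_mul (by linarith) hD (norm_nonneg _) (Nat.cast_nonneg _)
  have h6 : ‖(tt : ℂ) * cc - S / D‖ ≤ (W + m * d : ℕ) / ((LD - d : ℕ) : ℝ) := by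
    rw [Nat.cast_sub hd.le, le_div_iff₀ hLd]
    push_cast
    exact (mul_le_mul_of_nonneg_left hden (norm_nonneg _)).trans h5
  have hpos' : 0 < LD - d := by omega
  have h7 : ((W + m * d : ℕ) : ℝ) / ((LD - d : ℕ) : ℝ) ≤ ((W + m * d) / (LD - d) : ℕ) + 1 := by
    have hp : (0 : ℝ) < ((LD - d : ℕ) : ℝ) := by exact_mod_cast hpos'
    rw [div_le_iff₀ hp]
    have := Nat.lt_mul_div_succ (W + m * d) hpos'
    have h3 : ((W + m * d : ℕ) : ℝ) < ((LD - d : ℕ) : ℝ) * ((W + m * d) / (LD - d) + 1 : ℕ) := by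
      exact_mod_cast this
    rw [Nat.cast_add_one] at h3
    nlinarith
  have hEr : (E : ℝ) = ((W + m * d) / (LD - d) : ℕ) + 3 := by
    rw [hE]; simp
  have h8 := norm_add_le ((tt : ℂ) * cc - S / D) (S / D - Zr)
  rw [sub_add_sub_cancel] at h8
  rw [norm_sub_rev] at hZ
  rw [hEr]
  linarith

/-- floor of the quotient of complex integers -/
theorem floor_div {a b X Y q : ℤ} (hq : q = X ^ 2 + Y ^ 2) (hq0 : 0 < q) :
    ‖((((a * X + b * Y) / q : ℤ) : ℂ) + ((b * X - a * Y) / q : ℤ) * I) -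
      ((a : ℂ) + b * I) / ((X : ℂ) + Y * I)‖ ≤ 2 := by
  have hqr : (0 : ℝ) < q := by exact_mod_cast hq0
  have hqc : (q : ℂ) ≠ 0 := by exact_mod_cast hq0.ne'
  have hD : ((X : ℂ) + Y * I) ≠ 0 := by
    intro h
    have h1 := norm_int X Y
    rw [h, norm_zero, ← hq] at h1
    norm_num at h1
    linarith
  have e : ((a : ℂ) + b * I) / ((X : ℂ) + Y * I) =
      (((a * X + b * Y : ℤ) : ℂ) + ((b * X - a * Y : ℤ) : ℂ) * I) / q := by
    rw [div_eq_div_iff hD hqc, hq]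
    push_cast
    linear_combination (-(a : ℂ) * Y ^ 2 + (b : ℂ) * X * Y - b * Y ^ 2 * I - a * X * Y * I +
      a * Y ^ 2 - b * X * Y + b * Y ^ 2 * I + a * X * Y * I + 0) * (I ^ 2 + 1) * 0 + (-(b : ℂ) * X * Y + a * Y ^ 2) * I_sq
  rw [e]
  have h1 : ∀ t : ℤ, |((t / q : ℤ) : ℝ) - (t : ℝ) / q| ≤ 1 := by
    intro t
    have h2 := Int.emod_add_mul_ediv t q
    have h3 := Int.emod_nonneg t hq0.ne'
    have h4 := Int.emod_lt_of_pos t hq0
    have h5 : (t : ℝ) = (t % q : ℤ) + q * (t / q : ℤ) := by exact_mod_cast h2.symm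
    have h6 : (0 : ℝ) ≤ (t % q : ℤ) := by exact_mod_cast h3
    have h7 : ((t % q : ℤ) : ℝ) < q := by exact_mod_cast h4
    have h8 : ((t / q : ℤ) : ℝ) - (t : ℝ) / q = -((t % q : ℤ) / q) := by
      field_simp; linarith
    rw [h8, abs_neg, abs_of_nonneg (by positivity), div_le_one hqr]
    exact h7.le
  refine (Complex.norm_le_abs_re_add_abs_im _).trans ?_
  have hre : ((((a * X + b * Y) / q : ℤ) : ℂ) + ((b * X - a * Y) / q : ℤ) * I -
      (((a * X + b * Y : ℤ) : ℂ) + ((b * X - a * Y : ℤ) : ℂ) * I) / q).re =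
      (((a * X + b * Y) / q : ℤ) : ℝ) - ((a * X + b * Y : ℤ) : ℝ) / q := by
    have : (((a * X + b * Y : ℤ) : ℂ) + ((b * X - a * Y : ℤ) : ℂ) * I) / q =
      (((a * X + b * Y : ℤ) / (q : ℝ) : ℝ) : ℂ) + (((b * X - a * Y : ℤ) / (q : ℝ) : ℝ) : ℂ) * I := by
      push_cast; field_simp
    rw [this]
    simp only [sub_re, add_re, mul_re, I_re, I_im, intCast_re, intCast_im, ofReal_re, ofReal_im]
    ring
  have him : ((((a * X + b * Y) / q : ℤ) : ℂ) + ((b * X - a * Y) / q : ℤ) * I -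
      (((a * X + b * Y : ℤ) : ℂ) + ((b * X - a * Y : ℤ) : ℂ) * I) / q).im =
      (((b * X - a * Y) / q : ℤ) : ℝ) - ((b * X - a * Y : ℤ) : ℝ) / q := by
    have : (((a * X + b * Y : ℤ) : ℂ) + ((b * X - a * Y : ℤ) : ℂ) * I) / q =
      (((a * X + b * Y : ℤ) / (q : ℝ) : ℝ) : ℂ) + (((b * X - a * Y : ℤ) / (q : ℝ) : ℝ) : ℂ) * I := by
      push_cast; field_simp
    rw [this]
    simp only [sub_im, add_im, mul_im, I_re, I_im, intCast_re, intCast_im, ofReal_re, ofReal_im]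
    ring
  rw [hre, him]
  linarith [h1 (a * X + b * Y), h1 (b * X - a * Y)]

/-- the shifted floor division on residues -/
theorem rep_div {Q n q K : ℕ} {t : ℤ} (hq : 0 < q) (h : Rep Q n (t + K * q))
    (ht : |t| ≤ K * q) (hQ : 2 * (K * q) < Q) :
    Rep Q ((n % Q) / q + (Q - K)) (t / q) := by
  have hQ0 : 0 < Q := by omega
  have ht' := abs_le.1 ht
  have hQ' : (2 * (K * q) : ℤ) < Q := by exact_mod_cast hQ
  have e : ((n % Q : ℕ) : ℤ) = t + K * q :=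
    h.mod.eq_of_nonneg (Nat.mod_lt _ hQ0) (by linarith) (by linarith)
  have e2 : (((n % Q) / q : ℕ) : ℤ) = t / q + K := by
    rw [Int.natCast_div, e, Int.add_mul_ediv_right _ _ (by exact_mod_cast hq.ne')]
  have hK : K ≤ Q := by nlinarith
  unfold Rep
  rw [Nat.cast_add, e2, Nat.cast_sub hK]
  exact ⟨1, by ring⟩

end H8.Siegel
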