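import Pool.Agent.H8.Siegel.Sound

set_option autoImplicit false
set_option maxRecDepth 20000

namespace H8.Siegel

open Polynomial Finset Complex

/-- complex integer -/
noncomputable def zc (a b : ℤ) : ℂ := (a : ℂ) + b * I

/-- loop invariant before the computation of the coefficient number `k + 1` -/
def Inv (L : ℕ) (lam : ℂ) (c : ℕ → ℂ) (k x y d A C G M s : ℕ) : Prop :=
  ∃ (zx zy : ℤ) (u v m g : ℕ → ℤ),
    y < 2 ^ (80 * L) ∧ C < 2 ^ (80 * L) ∧
    Rep (2 ^ (80 * L)) x zx ∧ Rep (2 ^ (80 * L)) y zy ∧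
    ‖((1073741824 : ℝ) : ℂ) * lam ^ k - zc zx zy‖ ≤ d ∧ ‖zc zx zy‖ ≤ 1073741824 + 2 * k ∧
    Rep (2 ^ (80 * L)) A ((pk u k).eval (2 ^ 80)) ∧
    Rep (2 ^ (80 * L)) C ((pk v k).eval (2 ^ 80)) ∧
    (G : ℤ) = (pk g k).eval (2 ^ 80) ∧ (M : ℤ) = (pk m k).eval (2 ^ 80) ∧
    (∀ j, 1 ≤ j → j ≤ k → ‖((1073741824 : ℝ) : ℂ) * c j - zc (u j) (v j)‖ ≤ ((g j - m j : ℤ) : ℝ) ∧
      ‖zc (u j) (v j)‖ ≤ ((m j : ℤ) : ℝ) ∧ 0 ≤ m j ∧ m j ≤ g j ∧ g j ≤ 2 ^ 32) ∧
    (s : ℝ) ≤ 1073741824 ^ 2 * ∑ j ∈ range (k + 1), (j : ℝ) * ‖c j‖ ^ 2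

theorem pk_eval_mono {f g : ℕ → ℤ} {n : ℕ} (h : ∀ j, 1 ≤ j → j ≤ n → f j ≤ g j) :
    (pk f n).eval (2 ^ 80) ≤ (pk g n).eval (2 ^ 80) := by
  induction n with
  | zero => simp [pk]
  | succ n ih =>
    rw [pk_eval_succ, pk_eval_succ]
    have h1 := ih fun j h1 h2 => h j h1 (by omega)
    have h2 := h (n + 1) (by omega) le_rfl
    linarith

theorem pk_eval_nonneg {f : ℕ → ℤ} {n : ℕ} (h : ∀ j, 1 ≤ j → j ≤ n → 0 ≤ f j) :
    0 ≤ (pk f n).eval (2 ^ 80) := by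
  induction n with
  | zero => simp [pk]
  | succ n ih =>
    rw [pk_eval_succ]
    have h1 := ih fun j h1 h2 => h j h1 (by omega)
    have h2 := h (n + 1) (by omega) le_rfl
    linarith

theorem pk_mul_coeff_mono {f g : ℕ → ℤ} {n i : ℕ} (hi : i ≤ n)
    (h : ∀ j, 1 ≤ j → j ≤ n + 1 → 0 ≤ f j ∧ f j ≤ g j) :
    (pk f (n + 1) * pk f (n + 1)).coeff i ≤ (pk g (n + 1) * pk g (n + 1)).coeff i := by
  rw [coeff_mul, coeff_mul, Finset.Nat.sum_antidiagonal_eq_sum_range_succ_mk,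
    Finset.Nat.sum_antidiagonal_eq_sum_range_succ_mk]
  apply Finset.sum_le_sum
  intro j hj
  rw [Finset.mem_range] at hj
  simp only [pk_coeff]
  rw [if_pos (by omega), if_pos (by omega), if_pos (by omega), if_pos (by omega)]
  have h1 := h (n + 1 - j) (by omega) (by omega)
  have h2 := h (n + 1 - (i - j)) (by omega) (by omega)
  exact mul_le_mul h1.2 h2.2 h2.1 (h1.1.trans h1.2)

/-- symmetric convolution of complex integers -/
theorem conv_zc (u v : ℕ → ℤ) (n : ℕ) :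
    ∑ j ∈ range (n + 1), zc (u (j + 1)) (v (j + 1)) * zc (u (n + 1 - j)) (v (n + 1 - j)) =
      zc (∑ j ∈ range (n + 1), u (j + 1) * u (n + 1 - j) -
          ∑ j ∈ range (n + 1), v (j + 1) * v (n + 1 - j))
        (2 * ∑ j ∈ range (n + 1), u (j + 1) * v (n + 1 - j)) := by
  have hrefl : ∑ j ∈ range (n + 1), v (j + 1) * u (n + 1 - j) =
      ∑ j ∈ range (n + 1), u (j + 1) * v (n + 1 - j) := by
    rw [← Finset.sum_range_reflect]
    apply Finset.sum_congr rfl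
    intro j hj
    rw [Finset.mem_range] at hj
    have h1 : n + 1 - 1 - j + 1 = n + 1 - j := by omega
    have h2 : n + 1 - (n + 1 - 1 - j) = j + 1 := by omega
    rw [h1, h2, mul_comm]
  have : ∀ j, zc (u (j + 1)) (v (j + 1)) * zc (u (n + 1 - j)) (v (n + 1 - j)) =
      (((u (j + 1) * u (n + 1 - j) : ℤ) : ℂ) - ((v (j + 1) * v (n + 1 - j) : ℤ) : ℂ)) +
      (((u (j + 1) * v (n + 1 - j) : ℤ) : ℂ) + ((v (j + 1) * u (n + 1 - j) : ℤ) : ℂ)) * I := by
    intro j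
    simp only [zc]
    push_cast
    linear_combination (v (j + 1) : ℂ) * v (n + 1 - j) * I_sq
  rw [Finset.sum_congr rfl fun j _ => this j, Finset.sum_add_distrib, ← Finset.sum_mul,
    Finset.sum_sub_distrib, Finset.sum_add_distrib]
  simp only [zc]
  rw [two_mul]
  nth_rewrite 1 [← hrefl]
  push_cast
  ring

theorem adist_abs {U : ℕ} {z : ℤ} (h : (U : ℤ) = z + 604462909807314587353088) :
    ((adist U : ℕ) : ℤ) = |z| := by
  rw [adist_eq]
  rcases abs_cases z with ⟨h1, h2⟩ | ⟨h1, h2⟩ <;> omega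

theorem prod_bound {a b z w : ℂ} {gz mz gw mw : ℝ} (hmz : 0 ≤ mz) (hmw : 0 ≤ mw)
    {t : ℂ} (h1 : ‖t * a - z‖ ≤ gz - mz) (h2 : ‖z‖ ≤ mz) (h3 : ‖t * b - w‖ ≤ gw - mw)
    (h4 : ‖w‖ ≤ mw) : ‖t ^ 2 * (a * b) - z * w‖ ≤ gz * gw - mz * mw := by
  have e : t ^ 2 * (a * b) - z * w = (t * a - z) * (t * b - w) + (t * a - z) * w +
      z * (t * b - w) := by ring
  rw [e]
  have n1 := norm_nonneg (t * a - z)
  have n2 := norm_nonneg (t * b - w)
  refine (norm_add₃_le).trans ?_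
  rw [norm_mul, norm_mul, norm_mul]
  have i1 := mul_le_mul h1 h3 n2 (n1.trans h1)
  have i2 := mul_le_mul h1 h4 (norm_nonneg _) (n1.trans h1)
  have i3 := mul_le_mul h2 h3 n2 hmz
  nlinarith

theorem sum_step {P S l c K s : ℝ} (hs : s ≤ P * S) (h1 : l * l ≤ P * c) (hK : 0 ≤ K) :
    s + K * (l * l) ≤ P * S + P * (K * c) := by
  have := mul_le_mul_of_nonneg_left h1 hK
  nlinarith

theorem sd_bound {nS nD nSD m q : ℝ} (hqr : q = nD ^ 2) (h1 : nS = nSD * nD) (h2 : nSD ≤ m)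
    (h3 : 0 ≤ nD) : nS * nD ≤ m * q := by
  rw [h1, hqr]
  nlinarith [mul_nonneg h3 h3, mul_le_mul_of_nonneg_right h2 (mul_nonneg h3 h3)]

theorem int_bound {t : ℤ} {q : ℕ} (h : ((|t| : ℤ) : ℝ) ≤ 2 ^ 32 * q) :
    |t| ≤ ((18446744073709551616 : ℕ) : ℤ) * q := by
  have h2 : |t| ≤ 2 ^ 32 * q := by exact_mod_cast h
  refine h2.trans ?_
  exact mul_le_mul_of_nonneg_right (by norm_num) (by positivity)

theorem quarter {P s S : ℝ} (hP : 0 < P) (h1 : P ≤ 4 * s) (h2 : s ≤ P * S) : 1 / 4 ≤ S := by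
  have h3 : P * (1 / 4) ≤ P * S := by linarith
  exact le_of_mul_le_mul_left h3 hP

/-- rounding of a complex integer divided by a positive integer -/
theorem floor_T {t t' q : ℤ} (hq0 : 0 < q) :
    ‖zc (t / q) (t' / q) - zc t t' / ((q : ℝ) : ℂ)‖ ≤ 2 := by
  have hqr : (0 : ℝ) < q := by exact_mod_cast hq0
  have h1 : ∀ t : ℤ, |((t / q : ℤ) : ℝ) - (t : ℝ) / q| ≤ 1 := by
    intro t
    have h2 := Int.emod_add_mul_ediv t q
    have h3 := Int.emod_nonneg t hq0.ne'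
    have h4 := Int.emod_lt_of_pos t hq0
    have h5 : (t : ℝ) = (t % q : ℤ) + q * (t / q : ℤ) := by exact_mod_cast h2.symm
    have h6 : (0 : ℝ) ≤ (t % q : ℤ) := by exact_mod_cast h3
    have h7 : ((t % q : ℤ) : ℝ) < q := by exact_mod_cast h4
    have h8 : ((t / q : ℤ) : ℝ) - (t : ℝ) / q = -((t % q : ℤ) / q) := by
      field_simp; linarith
    rw [h8, abs_neg, abs_of_nonneg (by positivity), div_le_one hqr]
    exact h7.le
  refine (Complex.norm_le_abs_re_add_abs_im _).trans ?_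
  have e : zc (t / q) (t' / q) - zc t t' / ((q : ℝ) : ℂ) =
      (((((t / q : ℤ) : ℝ) - (t : ℝ) / q : ℝ)) : ℂ) +
        (((((t' / q : ℤ) : ℝ) - (t' : ℝ) / q : ℝ)) : ℂ) * I := by
    simp only [zc]; push_cast; ring
  rw [e]
  have e1 : ((((((t / q : ℤ) : ℝ) - (t : ℝ) / q : ℝ)) : ℂ) +
        (((((t' / q : ℤ) : ℝ) - (t' : ℝ) / q : ℝ)) : ℂ) * I).re =
        ((t / q : ℤ) : ℝ) - (t : ℝ) / q := by
    rw [add_re, ofReal_re, mul_re, ofReal_re, ofReal_im, I_re, I_im]; ring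
  have e2 : ((((((t / q : ℤ) : ℝ) - (t : ℝ) / q : ℝ)) : ℂ) +
        (((((t' / q : ℤ) : ℝ) - (t' : ℝ) / q : ℝ)) : ℂ) * I).im =
        ((t' / q : ℤ) : ℝ) - (t' : ℝ) / q := by
    rw [add_im, ofReal_im, mul_im, ofReal_re, ofReal_im, I_re, I_im]; ring
  rw [e1, e2]
  linarith [h1 t, h1 t']

theorem zc_mul (a b X Y : ℤ) : zc a b * zc X Y = zc (a * X - b * Y) (a * Y + b * X) := by
  simp only [zc]; push_cast
  linear_combination (b : ℂ) * Y * I_sq

theorem power_step {lam w z p1 z' : ℂ} {tt d e k : ℝ} (htt : 0 < tt) (hlam : ‖w‖ = 1)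
    (h1 : ‖(tt : ℂ) * w - z‖ ≤ d) (h2 : ‖z‖ ≤ tt + 2 * k) (hcen : ‖(tt : ℂ) * lam - p1‖ ≤ e - 2)
    (hcn : ‖p1‖ ≤ tt) (hk : 0 ≤ k) (h3 : ‖z' - z * p1 / (tt : ℂ)‖ ≤ 2) :
    ‖(tt : ℂ) * (w * lam) - z'‖ ≤ d + e ∧ ‖z'‖ ≤ tt + 2 * (k + 1) := by
  have htc : (tt : ℂ) ≠ 0 := by exact_mod_cast htt.ne'
  have hn : ‖(tt : ℂ)‖ = tt := by rw [Complex.norm_real, Real.norm_eq_abs, abs_of_pos htt]
  have e1 : (tt : ℂ) * (w * lam) - z * p1 / (tt : ℂ) =
      w * ((tt : ℂ) * lam - p1) + ((tt : ℂ) * w - z) * (p1 / tt) := by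
    field_simp; ring
  have h4 : ‖(tt : ℂ) * (w * lam) - z * p1 / (tt : ℂ)‖ ≤ (e - 2) + d := by
    rw [e1]
    refine (norm_add_le _ _).trans ?_
    rw [norm_mul, norm_mul, hlam, one_mul, norm_div, hn]
    have h5 : ‖p1‖ / tt ≤ 1 := (div_le_one htt).2 hcn
    have h6 : ‖(tt : ℂ) * w - z‖ * (‖p1‖ / tt) ≤ d * 1 :=
      mul_le_mul h1 h5 (by positivity) ((norm_nonneg _).trans h1)
    linarith
  constructor
  · have := norm_add_le ((tt : ℂ) * (w * lam) - z * p1 / (tt : ℂ)) (z * p1 / (tt : ℂ) - z')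
    rw [sub_add_sub_cancel, norm_sub_rev (z * p1 / (tt : ℂ)) z'] at this
    linarith
  · have h7 : ‖z * p1 / (tt : ℂ)‖ ≤ tt + 2 * k := by
      rw [norm_div, norm_mul, hn, div_le_iff₀ htt]
      exact mul_le_mul h2 hcn (norm_nonneg _) (by positivity)
    have := norm_add_le (z' - z * p1 / (tt : ℂ)) (z * p1 / (tt : ℂ))
    rw [sub_add_cancel] at this
    linarith

theorem dot_bound (a b X Y : ℤ) :
    ((|a * X + b * Y| : ℤ) : ℝ) ≤ ‖((a : ℂ) + b * I)‖ * ‖((X : ℂ) + Y * I)‖ ∧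
    ((|b * X - a * Y| : ℤ) : ℝ) ≤ ‖((a : ℂ) + b * I)‖ * ‖((X : ℂ) + Y * I)‖ := by
  have e : ((a : ℂ) + b * I) * (starRingEnd ℂ) ((X : ℂ) + Y * I) =
      ((a * X + b * Y : ℤ) : ℂ) + ((b * X - a * Y : ℤ) : ℂ) * I := by
    simp only [map_add, map_mul, conj_I, map_intCast]
    push_cast
    linear_combination (-(b : ℂ) * Y) * I_sq
  have h := Complex.norm_conj ((X : ℂ) + Y * I)
  have h2 : ‖((a * X + b * Y : ℤ) : ℂ) + ((b * X - a * Y : ℤ) : ℂ) * I‖ =
      ‖((a : ℂ) + b * I)‖ * ‖((X : ℂ) + Y * I)‖ := by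
    rw [← e, norm_mul, h]
  have h3 := abs_int_le h2.le
  rw [Int.cast_abs, Int.cast_abs]
  exact h3

theorem step_sound {L x1 y1 e : ℕ} {ih : St} {lam : ℂ} {c : ℕ → ℂ} {X1 Y1 : ℤ}
    (hlam : ‖lam‖ = 1) (hroot : ∀ n, 1 ≤ n → lam ^ n ≠ 1)
    (hrec : ∀ n, 1 ≤ n → c (n + 1) * (lam ^ n - 1) = ∑ j ∈ range n, c (j + 1) * c (n - j))
    (hx1 : Rep (2 ^ (80 * L)) x1 X1) (hy1 : Rep (2 ^ (80 * L)) y1 Y1) (hy1l : y1 ≤ 2 ^ (80 * L))
    (hcen : ‖((1073741824 : ℝ) : ℂ) * lam - zc X1 Y1‖ ≤ e - 2) (hcn : ‖zc X1 Y1‖ ≤ 1073741824)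
    {k x y d A C G M s : ℕ} (hk : 1 ≤ k) (hkL : k ≤ L) (hL : 2 ≤ L) (hk2 : k ≤ 256)
    (hI : Inv L lam c k x y d A C G M s)
    (h : step (2 ^ (80 * L)) x1 y1 (2 ^ (80 * L) - y1) e ih (k + 1) x y d A C G M s
      (80 * (k - 1)) = true) :
    (1 / 4 ≤ ∑ j ∈ range (k + 2), (j : ℝ) * ‖c j‖ ^ 2) ∨
      ∃ x' y' d' A' C' G' M' s' : ℕ, Inv L lam c (k + 1) x' y' d' A' C' G' M' s' ∧
        ih (k + 2) x' y' d' A' C' G' M' s' (80 * k) = true := by
  obtain ⟨zx, zy, u, v, m, g, hyQ, hCQ, hx, hy, hp, hpn, hA, hC, hG, hM, hc, hs⟩ := hI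
  obtain ⟨X, q, UD, LD, U, V, W, s2, SU, l, s', hX, hq, hUD, hLD, hU, hV, hW, hs2, hSU, hl,
    hs', hfin⟩ := step_elim h
  obtain ⟨k', rfl⟩ : ∃ k', k = k' + 1 := ⟨k - 1, by omega⟩
  set Q : ℕ := 2 ^ (80 * L) with hQ
  have hQbig : 2 ^ 160 ≤ Q := Nat.pow_le_pow_right (by norm_num) (by omega)
  have hTQ : 1073741824 ≤ Q := le_trans (by norm_num) hQbig
  have hkr : (k' : ℝ) + 1 ≤ 256 := by exact_mod_cast hk2
  -- the divisor
  have hXrep : Rep Q X (zx - 1073741824) := by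
    rw [hX, sub_eq_add_neg]
    exact (hx.add (by simpa using Rep.neg_nat hTQ)).mod
  have hXQ : X < Q := by rw [hX]; exact Nat.mod_lt _ (by omega)
  have hzb := abs_int_le hpn
  have hzx : |zx| ≤ 2 ^ 31 := by
    have : |(zx : ℝ)| ≤ 2 ^ 31 := hzb.1.trans (by push_cast; linarith)
    exact_mod_cast this
  have hzy : |zy| ≤ 2 ^ 31 := by
    have : |(zy : ℝ)| ≤ 2 ^ 31 := hzb.2.trans (by push_cast; linarith)
    exact_mod_cast this
  have hQz : (2 ^ 160 : ℤ) ≤ Q := by exact_mod_cast hQbig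
  have hzX : |zx - 1073741824| ≤ 2 ^ 32 := by
    have := abs_sub zx 1073741824
    have h2 : |(1073741824 : ℤ)| = 1073741824 := by norm_num
    rw [h2] at this
    calc |zx - 1073741824| ≤ |zx| + 1073741824 := this
      _ ≤ 2 ^ 31 + 1073741824 := by linarith
      _ ≤ 2 ^ 32 := by norm_num
  have hrX : ((rabs Q X : ℕ) : ℤ) = |zx - 1073741824| :=
    hXrep.rabs hXQ (lt_of_lt_of_le (by linarith [show (2 : ℤ) * 2 ^ 32 < 2 ^ 160 by norm_num]) hQz)
  have hrY : ((rabs Q y : ℕ) : ℤ) = |zy| :=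
    hy.rabs hyQ (lt_of_lt_of_le (by linarith [show (2 : ℤ) * 2 ^ 31 < 2 ^ 160 by norm_num]) hQz)
  obtain ⟨hqr, hDUD, hUDpos, hLDD⟩ := sqrt_facts hrX hrY hq hUD
  rw [← hLD] at hLDD
  set D : ℂ := ((zx - 1073741824 : ℤ) : ℂ) + zy * I with hD
  have hdD : ‖((1073741824 : ℝ) : ℂ) * (lam ^ (k' + 1) - 1) - D‖ ≤ d := by
    have : ((1073741824 : ℝ) : ℂ) * (lam ^ (k' + 1) - 1) - D =
        ((1073741824 : ℝ) : ℂ) * lam ^ (k' + 1) - zc zx zy := by
      rw [hD, zc]; push_cast; ring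
    rw [this]; exact hp
  -- the digits
  have hcb : ∀ j, 1 ≤ j → j ≤ k' + 1 → |u j| ≤ 2 ^ 32 ∧ |v j| ≤ 2 ^ 32 ∧ |m j| ≤ 2 ^ 32 ∧
      |g j| ≤ 2 ^ 32 := by
    intro j h1 h2
    obtain ⟨_, hz, hm0, hmg, hg⟩ := hc j h1 h2
    have hz' := abs_int_le hz
    refine ⟨?_, ?_, ?_, ?_⟩
    · have : |u j| ≤ m j := by exact_mod_cast hz'.1
      linarith
    · have : |v j| ≤ m j := by exact_mod_cast hz'.2
      linarith
    · rw [abs_of_nonneg hm0]; linarith
    · rw [abs_of_nonneg (hm0.trans hmg)]; linarith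
  have hkz : (k' : ℤ) + 1 ≤ 256 := by exact_mod_cast hk2
  have hsh : 80 * (k' + 1 - 1) = 80 * k' := by rw [Nat.add_sub_cancel]
  rw [hsh] at hU hV hW
  set Uz : ℤ := ∑ j ∈ range (k' + 1), u (j + 1) * u (k' + 1 - j) -
          ∑ j ∈ range (k' + 1), v (j + 1) * v (k' + 1 - j) with hUz
  set Vz : ℤ := 2 * ∑ j ∈ range (k' + 1), u (j + 1) * v (k' + 1 - j) with hVz
  have bb : ∀ (f1 f2 : ℕ → ℤ), (∀ j, 1 ≤ j → j ≤ k' + 1 → |f1 j| ≤ 2 ^ 32) →
      (∀ j, 1 ≤ j → j ≤ k' + 1 → |f2 j| ≤ 2 ^ 32) → ∀ i ≤ k',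
      |(pk f1 (k' + 1) * pk f2 (k' + 1)).coeff i| ≤ 256 * (2 ^ 32) ^ 2 := by
    intro f1 f2 h1 h2 i hi
    refine (pk_mul_coeff_le f1 f2 k' i (2 ^ 32) hi (by norm_num) h1 h2).trans ?_
    exact mul_le_mul_of_nonneg_right hkz (by positivity)
  have hU2 : (U : ℤ) = Uz + 604462909807314587353088 := by
    rw [hU, hUz, ← pk_mul_coeff, ← pk_mul_coeff, ← coeff_sub]
    refine dig (L := L) ?_ (by omega) ?_
    · rw [eval_sub, eval_mul, eval_mul, sub_eq_add_neg, neg_mul_eq_mul_neg]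
      exact (hA.mul hA).add (hC.mul (hC.neg hCQ.le))
    · intro i hi
      rw [coeff_sub]
      refine lt_of_le_of_lt (abs_sub _ _) ?_
      have h1 := bb u u (fun j a b => (hcb j a b).1) (fun j a b => (hcb j a b).1) i hi
      have h2 := bb v v (fun j a b => (hcb j a b).2.1) (fun j a b => (hcb j a b).2.1) i hi
      calc _ ≤ 256 * (2 ^ 32) ^ 2 + 256 * (2 ^ 32) ^ 2 := add_le_add h1 h2
        _ < 2 ^ 78 := by norm_num
  have hV2 : (V : ℤ) = Vz + 604462909807314587353088 := by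
    have hco : Vz = (Polynomial.C 2 * (pk u (k' + 1) * pk v (k' + 1))).coeff k' := by
      rw [coeff_C_mul, hVz, pk_mul_coeff]
    rw [hV, hco]
    refine dig (L := L) ?_ (by omega) ?_
    · rw [eval_mul, eval_C, eval_mul]
      exact (by simpa using Rep.nat Q 2 : Rep Q 2 2).mul (hA.mul hC)
    · intro i hi
      rw [coeff_C_mul, abs_mul]
      have h1 := bb u v (fun j a b => (hcb j a b).1) (fun j a b => (hcb j a b).2.1) i hi
      calc |(2 : ℤ)| * |(pk u (k' + 1) * pk v (k' + 1)).coeff i| ≤ 2 * (256 * (2 ^ 32) ^ 2) := by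
            rw [show |(2 : ℤ)| = 2 by norm_num]; linarith
        _ < 2 ^ 78 := by norm_num
  have hMG : M * M ≤ G * G := by
    have h1 : (M : ℤ) ≤ G := by
      rw [hG, hM]; exact pk_eval_mono fun j h1 h2 => (hc j h1 h2).2.2.2.1
    have h2 : M ≤ G := by exact_mod_cast h1
    exact Nat.mul_le_mul h2 h2
  have hW2 : (W : ℤ) = ∑ j ∈ range (k' + 1), (g (j + 1) * g (k' + 1 - j) -
      m (j + 1) * m (k' + 1 - j)) := by
    rw [hW, Finset.sum_sub_distrib, ← pk_mul_coeff, ← pk_mul_coeff, ← coeff_sub]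
    refine digN ?_ ?_
    · rw [Nat.cast_sub hMG, eval_sub, eval_mul, eval_mul, ← hG, ← hM]; push_cast; ring
    · intro i hi
      rw [coeff_sub]
      have h1 := pk_mul_coeff_mono hi (f := m) (g := g) fun j a b =>
        ⟨(hc j a b).2.2.1, (hc j a b).2.2.2.1⟩
      have h2 := bb g g (fun j a b => (hcb j a b).2.2.2) (fun j a b => (hcb j a b).2.2.2) i hi
      have h3 := bb m m (fun j a b => (hcb j a b).2.2.1) (fun j a b => (hcb j a b).2.2.1) i hi
      refine ⟨by linarith, ?_⟩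
      have h4 := le_abs_self ((pk g (k' + 1) * pk g (k' + 1)).coeff i)
      have h5 := neg_abs_le ((pk m (k' + 1) * pk m (k' + 1)).coeff i)
      have h6 : (256 : ℤ) * (2 ^ 32) ^ 2 + 256 * (2 ^ 32) ^ 2 < 2 ^ 78 := by norm_num
      linarith
  -- norms of the convolution
  have haU : ((adist U : ℕ) : ℤ) = |Uz| := adist_abs hU2
  have haV : ((adist V : ℕ) : ℤ) = |Vz| := adist_abs hV2
  obtain ⟨hs2r, hSSU, hSUpos, hSLS⟩ := sqrt_facts haU haV hs2 hSU
  set S : ℂ := (Uz : ℂ) + Vz * I with hS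
  set num : ℂ := ∑ j ∈ range (k' + 1), c (j + 1) * c (k' + 1 - j) with hnum
  have hcd : c (k' + 1 + 1) * (lam ^ (k' + 1) - 1) = num := hrec (k' + 1) (by omega)
  have hSW : ‖((1073741824 : ℝ) : ℂ) ^ 2 * num - S‖ ≤ W := by
    have e1 : S = ∑ j ∈ range (k' + 1), zc (u (j + 1)) (v (j + 1)) *
        zc (u (k' + 1 - j)) (v (k' + 1 - j)) := by rw [conv_zc, hS, zc]
    rw [e1, hnum, Finset.mul_sum, ← Finset.sum_sub_distrib]
    refine (norm_sum_le _ _).trans ?_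
    have e2 : (W : ℝ) = ∑ j ∈ range (k' + 1), (((g (j + 1) : ℤ) : ℝ) * (g (k' + 1 - j) : ℤ) -
      ((m (j + 1) : ℤ) : ℝ) * (m (k' + 1 - j) : ℤ)) := by
      have : ((W : ℤ) : ℝ) = W := by simp
      rw [← this, hW2]; push_cast; rfl
    rw [e2]
    apply Finset.sum_le_sum
    intro j hj
    rw [Finset.mem_range] at hj
    obtain ⟨a1, a2, a3, a4, _⟩ := hc (j + 1) (by omega) (by omega)
    obtain ⟨b1, b2, b3, b4, _⟩ := hc (k' + 1 - j) (by omega) (by omega)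
    exact prod_bound (by exact_mod_cast a3) (by exact_mod_cast b3) (by simpa using a1) a2
      (by simpa using b1) b2
  have hlA := lemmaA (tt := 1073741824) (by norm_num) hcd hSW hdD hDUD hUDpos hSLS
  rw [← hl] at hlA
  have hs'r : (s' : ℝ) ≤ 1073741824 ^ 2 * ∑ j ∈ range (k' + 1 + 2), (j : ℝ) * ‖c j‖ ^ 2 := by
    rw [Finset.sum_range_succ, mul_add, hs', Nat.cast_add, Nat.cast_mul, Nat.cast_mul]
    have e1 : (1073741824 * ‖c (k' + 1 + 1)‖) * (1073741824 * ‖c (k' + 1 + 1)‖) =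
        1073741824 ^ 2 * ‖c (k' + 1 + 1)‖ ^ 2 := by ring
    have h1 : (l : ℝ) * l ≤ 1073741824 ^ 2 * ‖c (k' + 1 + 1)‖ ^ 2 := by
      rw [← e1]
      exact mul_le_mul hlA hlA (Nat.cast_nonneg _) (by positivity)
    exact sum_step hs h1 (Nat.cast_nonneg _)
  rcases hfin with hfin | ⟨hdLD, m', g', u', v', x', y', hm', hg', hg'b, hu', hv', hx', hy', hih⟩
  · left
    have h1 : (1152921504606846976 : ℝ) ≤ 4 * s' := by exact_mod_cast hfin
    have h2 : (1152921504606846976 : ℝ) = 1073741824 ^ 2 := by norm_num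
    rw [h2] at h1
    exact quarter (by norm_num) h1 hs'r
  right
  -- the new coefficient
  have hqpos : 0 < q := by
    rcases Nat.eq_zero_or_pos q with h0 | h0
    · rw [h0, Nat.zero_div] at hLD; omega
    · exact h0
  have hqz : (q : ℤ) = (zx - 1073741824) ^ 2 + zy ^ 2 := by
    rw [hq]; push_cast; rw [hrX, hrY, abs_mul_abs_self, abs_mul_abs_self]; ring
  have hqlt : q < 2 ^ 66 := by
    have h1 : (q : ℤ) < 2 ^ 66 := by
      rw [hqz, ← sq_abs (zx - 1073741824), ← sq_abs zy]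
      have h2 : |zx - 1073741824| ^ 2 ≤ (2 ^ 32) ^ 2 := pow_le_pow_left₀ (abs_nonneg _) hzX 2
      have h3 : |zy| ^ 2 ≤ (2 ^ 31) ^ 2 := pow_le_pow_left₀ (abs_nonneg _) hzy 2
      calc _ ≤ (2 ^ 32) ^ 2 + (2 ^ 31) ^ 2 := add_le_add h2 h3
        _ < (2 : ℤ) ^ 66 := by norm_num
    exact_mod_cast h1
  have hKq : 2 * (18446744073709551616 * q) < Q := by
    refine lt_of_lt_of_le ?_ hQbig
    calc 2 * (18446744073709551616 * q) < 2 * (18446744073709551616 * 2 ^ 66) := by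
          apply Nat.mul_lt_mul_of_pos_left _ (by norm_num)
          exact Nat.mul_lt_mul_of_pos_left hqlt (by norm_num)
      _ ≤ 2 ^ 160 := by norm_num
  have hfl := floor_div (a := Uz) (b := Vz) hqz (by exact_mod_cast hqpos)
  obtain ⟨hB1, hB2, hB3⟩ := lemmaB (Zr := zc ((Uz * (zx - 1073741824) + Vz * zy) / q)
    ((Vz * (zx - 1073741824) - Uz * zy) / q)) (m := m') (E := (W + m' * d) / (LD - d) + 3)
    hcd hSW hdD hLDD hdLD hSSU hm' rfl hfl
  have hm'b : (m' : ℝ) ≤ 2 ^ 32 := by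
    have h1 : m' ≤ g' := by rw [hg']; exact Nat.le_add_left _ _
    have : m' ≤ 2 ^ 32 := h1.trans (hg'b.le.trans (by norm_num))
    exact_mod_cast this
  have hDne : ‖D‖ ≠ 0 := by
    have : (0 : ℝ) < LD := by exact_mod_cast (by omega : 0 < LD)
    linarith
  have hSD : ‖S‖ * ‖D‖ ≤ 2 ^ 32 * q :=
    sd_bound hqr (by rw [norm_div]; field_simp) (hB3.trans hm'b) (norm_nonneg _)
  obtain ⟨ht1, ht2⟩ := dot_bound Uz Vz (zx - 1073741824) zy
  have hb1 : |Uz * (zx - 1073741824) + Vz * zy| ≤ ((18446744073709551616 : ℕ) : ℤ) * q :=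
    int_bound (ht1.trans hSD)
  have hb2 : |Vz * (zx - 1073741824) - Uz * zy| ≤ ((18446744073709551616 : ℕ) : ℤ) * q :=
    int_bound (ht2.trans hSD)
  have hB2Q : 604462909807314587353088 ≤ Q := le_trans (by norm_num) hQbig
  have hUr : Rep Q (U + (Q - 604462909807314587353088)) Uz := by
    have h1 : Rep Q U (Uz + 604462909807314587353088) := by rw [← hU2]; exact Rep.nat _ _
    have h2 := h1.add (Rep.neg_nat hB2Q)
    have h3 : Uz + 604462909807314587353088 + -((604462909807314587353088 : ℕ) : ℤ) = Uz := by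
      push_cast; ring
    rwa [h3] at h2
  have hVr : Rep Q (V + (Q - 604462909807314587353088)) Vz := by
    have h1 : Rep Q V (Vz + 604462909807314587353088) := by rw [← hV2]; exact Rep.nat _ _
    have h2 := h1.add (Rep.neg_nat hB2Q)
    have h3 : Vz + 604462909807314587353088 + -((604462909807314587353088 : ℕ) : ℤ) = Vz := by
      push_cast; ring
    rwa [h3] at h2
  have hKqr : Rep Q (18446744073709551616 * q) (((18446744073709551616 : ℕ) : ℤ) * q) := by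
    have := Rep.nat Q (18446744073709551616 * q)
    rwa [Nat.cast_mul] at this
  have hu'r : Rep Q u' ((Uz * (zx - 1073741824) + Vz * zy) / q) := by
    rw [hu']
    exact rep_div hqpos (((hUr.mul hXrep).add (hVr.mul hy)).add hKqr) hb1 hKq
  have hv'r : Rep Q v' ((Vz * (zx - 1073741824) - Uz * zy) / q) := by
    rw [hv']
    refine rep_div hqpos ?_ hb2 hKq
    have h1 := ((hVr.mul hXrep).add (hUr.mul (hy.neg hyQ.le))).add hKqr
    have h2 : Vz * (zx - 1073741824) + Uz * -zy = Vz * (zx - 1073741824) - Uz * zy := by ring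
    rwa [h2] at h1
  -- the new power
  have hT30 : ((1073741824 : ℤ)) = ((1073741824 : ℕ) : ℤ) := rfl
  have hpb : ‖zc zx zy‖ * ‖zc X1 Y1‖ ≤ 2 ^ 61 := by
    have h1 : ‖zc zx zy‖ ≤ 2 ^ 31 := hpn.trans (by push_cast; linarith)
    calc ‖zc zx zy‖ * ‖zc X1 Y1‖ ≤ 2 ^ 31 * 1073741824 :=
          mul_le_mul h1 hcn (norm_nonneg _) (by norm_num)
      _ = 2 ^ 61 := by norm_num
  have hpz : zc zx zy * zc X1 Y1 = zc (zx * X1 - zy * Y1) (zx * Y1 + zy * X1) := zc_mul _ _ _ _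
  have hpb2 := abs_int_le (a := zx * X1 - zy * Y1) (b := zx * Y1 + zy * X1) (r := 2 ^ 61) (by
    have : ‖zc (zx * X1 - zy * Y1) (zx * Y1 + zy * X1)‖ ≤ 2 ^ 61 := by
      rw [← hpz, norm_mul]; exact hpb
    exact this)
  have hpx : |zx * X1 - zy * Y1| ≤ ((4294967296 : ℕ) : ℤ) * (1073741824 : ℕ) := by
    have : |zx * X1 - zy * Y1| ≤ 2 ^ 61 := by exact_mod_cast hpb2.1
    exact this.trans (by norm_num)
  have hpy : |zx * Y1 + zy * X1| ≤ ((4294967296 : ℕ) : ℤ) * (1073741824 : ℕ) := by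
    have : |zx * Y1 + zy * X1| ≤ 2 ^ 61 := by exact_mod_cast hpb2.2
    exact this.trans (by norm_num)
  have hOT : 2 * (4294967296 * 1073741824) < Q := lt_of_lt_of_le (by norm_num) hQbig
  have hOTr : Rep Q 4611686018427387904 (((4294967296 : ℕ) : ℤ) * (1073741824 : ℕ)) := by
    have := Rep.nat Q 4611686018427387904
    have e : ((4611686018427387904 : ℕ) : ℤ) = ((4294967296 : ℕ) : ℤ) * (1073741824 : ℕ) := by
      norm_num
    rwa [e] at this
  have hx'r : Rep Q x' ((zx * X1 - zy * Y1) / (1073741824 : ℕ)) := by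
    rw [hx']
    refine (rep_div (by norm_num) ?_ hpx hOT).mod
    have h1 := ((hx.mul hx1).add (hy.mul (hy1.neg hy1l))).add hOTr
    have h2 : zx * X1 + zy * -Y1 = zx * X1 - zy * Y1 := by ring
    rwa [h2] at h1
  have hy'r : Rep Q y' ((zx * Y1 + zy * X1) / (1073741824 : ℕ)) := by
    rw [hy']
    refine (rep_div (by norm_num) ?_ hpy hOT).mod
    exact ((hx.mul hy1).add (hy.mul hx1)).add hOTr
  have hwn : ‖lam ^ (k' + 1)‖ = 1 := by rw [norm_pow, hlam, one_pow]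
  have hfT : ‖zc ((zx * X1 - zy * Y1) / (1073741824 : ℕ)) ((zx * Y1 + zy * X1) / (1073741824 : ℕ)) -
      zc zx zy * zc X1 Y1 / ((1073741824 : ℝ) : ℂ)‖ ≤ 2 := by
    rw [hpz]
    have := floor_T (t := zx * X1 - zy * Y1) (t' := zx * Y1 + zy * X1)
      (q := ((1073741824 : ℕ) : ℤ)) (by norm_num)
    simpa using this
  have hps := power_step (by norm_num) hwn hp hpn hcen hcn (Nat.cast_nonneg (k' + 1)) hfT
  have hQ0 : 0 < Q := by omega
  refine ⟨x', y', d + e, _, _, _, _, s', ?_, hih⟩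
  set un : ℤ := (Uz * (zx - 1073741824) + Vz * zy) / q with hun
  set vn : ℤ := (Vz * (zx - 1073741824) - Uz * zy) / q with hvn
  have hupd : ∀ (f : ℕ → ℤ) (w : ℤ), (pk (Function.update f (k' + 2) w) (k' + 2)).eval (2 ^ 80) =
      (pk f (k' + 1)).eval (2 ^ 80) * 2 ^ 80 + w := by
    intro f w
    have h := pk_congr (f := Function.update f (k' + 2) w) (g := f) (n := k' + 1) (by
      intro j _ hj
      rw [Function.update_of_ne (by omega)])
    rw [pk_eval_succ, Function.update_self, h]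
  refine ⟨(zx * X1 - zy * Y1) / (1073741824 : ℕ), (zx * Y1 + zy * X1) / (1073741824 : ℕ),
    Function.update u (k' + 2) un, Function.update v (k' + 2) vn,
    Function.update m (k' + 2) m', Function.update g (k' + 2) g', ?_, ?_, hx'r, hy'r, ?_, ?_,
    ?_, ?_, ?_, ?_, ?_, hs'r⟩
  · rw [hy']; exact Nat.mod_lt _ hQ0
  · exact Nat.mod_lt _ hQ0
  · rw [pow_succ]; push_cast at hps ⊢; exact hps.1
  · push_cast at hps ⊢; exact hps.2
  · rw [hupd]
    exact ((hA.mul (by simpa using Rep.nat Q 1208925819614629174706176)).add hu'r).mod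
  · rw [hupd]
    exact ((hC.mul (by simpa using Rep.nat Q 1208925819614629174706176)).add hv'r).mod
  · rw [hupd, ← hG]; push_cast; norm_num
  · rw [hupd, ← hM]; push_cast; norm_num
  · intro j h1 h2
    rcases Nat.lt_or_ge j (k' + 2) with h3 | h3
    · rw [Function.update_of_ne h3.ne, Function.update_of_ne h3.ne, Function.update_of_ne h3.ne,
        Function.update_of_ne h3.ne]
      exact hc j h1 (by omega)
    · have h4 : j = k' + 2 := by omega
      subst h4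
      rw [Function.update_self, Function.update_self, Function.update_self, Function.update_self]
      have hgm : g' = (W + m' * d) / (LD - d) + 3 + m' := hg'
      refine ⟨?_, ?_, Int.natCast_nonneg _, ?_, ?_⟩
      · have : (((g' : ℤ) - (m' : ℤ) : ℤ) : ℝ) = (((W + m' * d) / (LD - d) + 3 : ℕ) : ℝ) := by
          rw [hgm]
          generalize (W + m' * d) / (LD - d) = a
          push_cast; ring
        rw [this]; exact hB1
      · simpa using hB2
      · rw [hgm]; exact_mod_cast Nat.le_add_left _ _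
      · have : g' ≤ 2 ^ 32 := hg'b.le.trans (by norm_num)
        exact_mod_cast this

end H8.Siegel
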