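import Pool.Agent.H8.Siegel.Area4
import Pool.Agent.H8.Siegel.Low1
import Pool.Agent.H8.Siegel.Cover

set_option autoImplicit false

namespace H8.Siegel

open Complex Metric Filter MeasureTheory Topology ComplexConjugate

theorem upper_of_good {lam : ℂ} (hl : ‖lam‖ = 1) (hroot : ∀ n, 1 ≤ n → lam ^ n ≠ 1) {R : ℝ} (hR : 0 < R)
    (hg : Good R lam) {a : ℕ → ℂ} (h0 : a 0 = 0) (h1 : a 1 = 1) (hrec : Rec lam a)
    {r : ℝ} (hs : Summable fun n => ‖a n‖ * r ^ n) : r ≤ R := by
  by_contra hlt
  push Not at hlt
  have hlam : lam ≠ 0 := by
    intro h0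
    rw [h0] at hl
    simp at hl
  obtain ⟨N, hN⟩ := hg hroot (fun n => a n * (R : ℂ) ^ n) (by simp [h1]) (by
    intro n hn
    have e1 := hrec (n + 1)
    have e2 : (lam ^ n - 1) * a (n + 1) = ∑ p ∈ Finset.HasAntidiagonal.antidiagonal (n + 1), a p.1 * a p.2 := by
      have : lam * ((lam ^ n - 1) * a (n + 1)) =
          lam * ∑ p ∈ Finset.HasAntidiagonal.antidiagonal (n + 1), a p.1 * a p.2 := by
        rw [pow_succ] at e1
        linear_combination e1
      exact mul_left_cancel₀ hlam this
    rw [Finset.Nat.sum_antidiagonal_eq_sum_range_succ (fun i j => a i * a j), Finset.sum_range_succ,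
      Finset.sum_range_succ'] at e2
    simp only [Nat.sub_self, h0, mul_zero, zero_mul, add_zero] at e2
    have e3 : a (n + 1) * (R : ℂ) ^ (n + 1) * (lam ^ n - 1) = ((lam ^ n - 1) * a (n + 1)) * (R : ℂ) ^ (n + 1) := by
      ring
    rw [e3, e2, Finset.sum_mul]
    refine Finset.sum_congr rfl fun j hj => ?_
    have hj' := Finset.mem_range.1 hj
    have e4 : n + 1 - (j + 1) = n - j := by omega
    rw [e4]
    have e5 : (R : ℂ) ^ (n + 1) = (R : ℂ) ^ (j + 1) * (R : ℂ) ^ (n - j) := by
      rw [← pow_add]; congr 1; omega
    rw [e5]
    ring)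
  obtain ⟨s, hs1, hs2⟩ := exists_between hlt
  have hs0 : 0 < s := hR.trans hs1
  have h2 := coeff_le hl hroot h1 hrec hs hs0.le hs2 N
  have hN2 : 1 < N := by
    by_contra hc
    have hc' : N = 0 ∨ N = 1 := by omega
    rcases hc' with rfl | rfl
    · norm_num at hN
    · norm_num at hN
  have h3 : ∑ j ∈ Finset.range N, (j : ℝ) * ‖a j * (R : ℂ) ^ j‖ ^ 2 < ∑ j ∈ Finset.range N, (j : ℝ) * ‖a j * (s : ℂ) ^ j‖ ^ 2 := by
    refine Finset.sum_lt_sum (fun j _ => ?_) ⟨1, Finset.mem_range.2 hN2, ?_⟩
    · rw [norm_mul, norm_mul, norm_pow, norm_pow, Complex.norm_real, Complex.norm_real, Real.norm_of_nonneg hR.le,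
        Real.norm_of_nonneg hs0.le]
      gcongr
    · rw [h1, one_mul, one_mul, pow_one, pow_one, Complex.norm_real, Complex.norm_real, Real.norm_of_nonneg hR.le,
        Real.norm_of_nonneg hs0.le]
      have : R ^ 2 < s ^ 2 := by gcongr
      push_cast
      linarith
  linarith

theorem good_of_im_pos {lam : ℂ} (hl : ‖lam‖ = 1) (him : 0 < lam.im) : Good (69 / 200) lam := by
  have hsq : lam.re ^ 2 + lam.im ^ 2 = 1 := by
    have := Complex.normSq_eq_norm_sq lam
    rw [hl, Complex.normSq_apply] at this
    nlinarith
  rcases le_or_gt 0 lam.re with hre | hre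
  · -- right half
    set t : ℝ := lam.im / (1 + lam.re) with ht
    have hp : 0 < 1 + lam.re := by linarith
    have ht0 : 0 < t := div_pos him hp
    have ht1 : t ≤ 1 := by
      rw [ht, div_le_one hp]
      nlinarith
    have e1 : lam = lamP true t := by
      have hne : (1 - (t : ℂ) * I) ≠ 0 := by
        intro h
        have := congrArg Complex.re h
        simp at this
      rw [lamP, if_pos rfl, eq_div_iff hne]
      have him' : lam.im = t * (1 + lam.re) := by rw [ht]; field_simp
      have e2 : lam.re + t * lam.im = 1 := by
        have : lam.im ^ 2 = (1 - lam.re) * (1 + lam.re) := by nlinarith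
        have h2 : (t * lam.im) * (1 + lam.re) = (1 - lam.re) * (1 + lam.re) := by
          rw [← this, him']; ring
        have := mul_right_cancel₀ hp.ne' h2
        linarith
      apply Complex.ext
      · simp only [Complex.mul_re, Complex.sub_re, Complex.one_re, Complex.ofReal_re, Complex.I_re, mul_zero,
          Complex.ofReal_im, Complex.I_im, mul_one, sub_self, sub_zero, Complex.sub_im, Complex.one_im, Complex.mul_im,
          Complex.add_re, add_zero, zero_add, zero_sub]
        linarith
      · simp only [Complex.mul_re, Complex.sub_re, Complex.one_re, Complex.ofReal_re, Complex.I_re, mul_zero,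
          Complex.ofReal_im, Complex.I_im, mul_one, sub_self, sub_zero, Complex.sub_im, Complex.one_im, Complex.mul_im,
          Complex.add_im, add_zero, zero_add, zero_sub]
        linarith
    have h := covT (16777216 * t) (by push_cast; positivity) (by push_cast; linarith)
    rw [e1]
    convert h using 2
    field_simp
  · -- left half
    set t : ℝ := lam.im / (1 - lam.re) with ht
    have hp : 0 < 1 - lam.re := by linarith
    have ht0 : 0 < t := div_pos him hp
    have ht1 : t ≤ 1 := by
      rw [ht, div_le_one hp]
      nlinarith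
    have e1 : lam = lamP false t := by
      have hne : (1 + (t : ℂ) * I) ≠ 0 := by
        intro h
        have := congrArg Complex.re h
        simp at this
      rw [lamP, if_neg (by simp), ← neg_div, eq_div_iff hne]
      have him' : lam.im = t * (1 - lam.re) := by rw [ht]; field_simp
      have e2 : lam.re - t * lam.im = -1 := by
        have : lam.im ^ 2 = (1 - lam.re) * (1 + lam.re) := by nlinarith
        have h2 : (t * lam.im) * (1 - lam.re) = (1 + lam.re) * (1 - lam.re) := by
          rw [mul_comm (1 + lam.re), ← this, him']; ring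
        have := mul_right_cancel₀ hp.ne' h2
        linarith
      apply Complex.ext
      · simp only [Complex.mul_re, Complex.add_re, Complex.one_re, Complex.ofReal_re, Complex.I_re, mul_zero,
          Complex.ofReal_im, Complex.I_im, mul_one, sub_self, sub_zero, Complex.add_im, Complex.one_im, Complex.mul_im,
          Complex.neg_re, Complex.sub_re, add_zero, zero_add]
        linarith
      · simp only [Complex.mul_re, Complex.add_re, Complex.one_re, Complex.ofReal_re, Complex.I_re, mul_zero,
          Complex.ofReal_im, Complex.I_im, mul_one, sub_self, sub_zero, Complex.add_im, Complex.one_im, Complex.mul_im,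
          Complex.neg_im, Complex.sub_im, add_zero, zero_add]
        linarith
    have h := covF (16777216 * t) (by push_cast; positivity) (by push_cast; linarith)
    rw [e1]
    convert h using 2
    field_simp

/-- The upper bound for all `λ`. -/
theorem upper {lam : ℂ} (hl : ‖lam‖ = 1) (hroot : ∀ n, 1 ≤ n → lam ^ n ≠ 1)
    {a : ℕ → ℂ} (h0 : a 0 = 0) (h1 : a 1 = 1) (hrec : Rec lam a)
    {r : ℝ} (hs : Summable fun n => ‖a n‖ * r ^ n) : r ≤ 69 / 200 := by
  rcases lt_trichotomy 0 lam.im with him | him | him
  · exact upper_of_good hl hroot (by norm_num) (good_of_im_pos hl him) h0 h1 hrec hs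
  · exfalso
    have hsq : lam.re ^ 2 + lam.im ^ 2 = 1 := by
      have := Complex.normSq_eq_norm_sq lam
      rw [hl, Complex.normSq_apply] at this
      nlinarith
    rw [← him] at hsq
    have : lam ^ 2 = 1 := by
      apply Complex.ext
      · rw [sq, Complex.mul_re, ← him]
        simp
        nlinarith
      · rw [sq, Complex.mul_im, ← him]
        simp
    exact hroot 2 (by norm_num) this
  · have hl' : ‖conj lam‖ = 1 := by rw [Complex.norm_conj, hl]
    have hroot' : ∀ n, 1 ≤ n → (conj lam) ^ n ≠ 1 := by
      intro n hn h
      refine hroot n hn ?_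
      have := congrArg conj h
      simpa using this
    refine upper_of_good (a := fun n => conj (a n)) hl' hroot' (by norm_num)
      (good_of_im_pos hl' (by simpa using him)) (by simp [h0]) (by simp [h1]) ?_ (r := r) (by simpa using hs)
    intro n
    have := congrArg conj (hrec n)
    simpa only [map_mul, map_pow, map_add, map_sum] using this

end H8.Siegel
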